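import Pool.Agent.Run7.h968.Tri

/-! From the critical degrees to all degrees; the base of the independence. -/

namespace Pool.Agent.Run7.h968

open Finset Pool.Agent.TH183.QC Pool.Agent.TH176.Nag Pool.Agent.TH387.SH Pool.Agent.TH183.QS
open Pool.Agent.TH183.QI Pool.Agent.H932R2 Pool.Agent.H932R3
open Pool.Agent.TH183.QN (EmpW TT)

universe u

/-- the staircase as a finite set -/
def ShF (m p x y : ℕ) : Finset (ℤ × ℤ) :=
  (range (2 * m + 1)).biUnion fun k =>
    (range ((2 * p + 2) * (2 * m - k) + nn p x y k)).image fun i : ℕ => ((i : ℤ), (k : ℤ))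

theorem ShF_subset (m p x y : ℕ) : (↑(ShF m p x y) : Set (ℤ × ℤ)) ⊆ ShS m p x y := by
  intro q hq
  rw [mem_coe] at hq
  unfold ShF at hq
  rw [mem_biUnion] at hq
  obtain ⟨k, hk, hq⟩ := hq
  rw [mem_image] at hq
  obtain ⟨i, hi, rfl⟩ := hq
  rw [mem_range] at hk hi
  refine ⟨by simp, by simp, ?_, ?_⟩
  · simp only [Int.toNat_natCast]; omega
  · simp only [Int.toNat_natCast]; exact hi

theorem ShF_card {m p x y : ℕ} (hxy : x + y + p = 2 * m) : (ShF m p x y).card = 4 * (2 * p + 2) * (m + 1).choose 2 := by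
  unfold ShF
  rw [card_biUnion]
  · have h1 : ∀ k ∈ range (2 * m + 1),
        ((range ((2 * p + 2) * (2 * m - k) + nn p x y k)).image fun i : ℕ => ((i : ℤ), (k : ℤ))).card =
          (2 * p + 2) * (2 * m - k) + nn p x y k := by
      intro k _
      rw [card_image_of_injective, card_range]
      intro i j h
      have := (Prod.mk.inj h).1
      exact_mod_cast this
    rw [sum_congr rfl h1, sum_add_distrib]
    have h2 : ∑ k ∈ range (2 * m + 1), (2 * p + 2) * (2 * m - k) = (2 * p + 2) * m * (2 * m + 1) := by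
      have h3 := sum_tri (2 * p + 2) m
      have h4 : ((∑ k ∈ range (2 * m + 1), (2 * p + 2) * (2 * m - k) : ℕ) : ℤ) =
          ∑ k ∈ range (2 * m + 1), (((2 * p + 2 : ℕ) : ℤ) * (2 * m - k)) := by
        push_cast
        refine sum_congr rfl fun k hk => ?_
        rw [mem_range] at hk
        rw [Nat.cast_sub (by omega)]
        push_cast
        ring
      rw [h3] at h4
      exact_mod_cast h4
    have h5 : ∀ n c : ℕ, ∑ k ∈ range n, (if k < c then 1 else 0) = min n c := by
      intro n c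
      rw [← card_filter]
      have : (range n).filter (fun k => k < c) = range (min n c) := by
        ext k
        simp only [mem_filter, mem_range, lt_min_iff]
      rw [this, card_range]
    have h6 : ∑ k ∈ range (2 * m + 1), nn p x y k = p * (2 * m + 1) + x + y := by
      unfold nn
      rw [sum_add_distrib, sum_add_distrib, h5, h5, sum_const, card_range, smul_eq_mul,
        min_eq_right (by omega), min_eq_right (by omega)]
      ring
    rw [h2, h6]
    have h7 : 2 * (m + 1).choose 2 = (m + 1) * m := by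
      rw [Nat.choose_two_right, Nat.add_sub_cancel]
      exact Nat.mul_div_cancel' (by rw [mul_comm]; exact (Nat.even_mul_succ_self m).two_dvd)
    have h8 : 4 * (2 * p + 2) * (m + 1).choose 2 = 2 * (2 * p + 2) * (2 * (m + 1).choose 2) := by ring
    rw [h8, h7]
    have h9 : p * (2 * m + 1) + x + y = p * (2 * m) + 2 * m := by
      have : p * (2 * m + 1) = p * (2 * m) + p := by ring
      omega
    rw [h9]
    ring
  · intro i _ j _ hij
    rw [Function.onFun, disjoint_left]
    intro p hp hp'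
    rw [mem_image] at hp hp'
    obtain ⟨a, _, rfl⟩ := hp
    obtain ⟨b, _, h⟩ := hp'
    apply hij
    have := (Prod.mk.inj h).2
    omega

theorem baseE {m p x y : ℕ} (hx : m ≤ x) (hxy : x + y + p = 2 * m) :
    EmpA (es (4 * (2 * p + 2)) m) (ShS m p x y) := base_emp hx hxy

theorem baseS {m p x y : ℕ} (hx : m ≤ x) (hxy : x + y + p = 2 * m) :
    SurA (ss (4 * (2 * p + 2)) m) (ShS m p x y) := by
  refine ⟨(↑(ShF m p x y) : Set (ℤ × ℤ)), ShF_subset _ _ _ _, finite_toSet _, ?_, ?_⟩
  · rw [Set.ncard_coe_finset, ShF_card hxy]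
    exact le_rfl
  · rw [Set.ncard_coe_finset, ShF_card hxy]
    have h := (EmpF.of_empW (baseE hx hxy)).mono (ShF_subset m p x y)
    exact h.le (Nat.zero_le _)

theorem TT_mono {d d' : ℕ} (h : d ≤ d') : TT d ⊆ TT d' := by
  rintro q ⟨h1, h2, h3⟩
  exact ⟨h1, h2, h3.trans (by exact_mod_cast h)⟩

/-- all degrees from the critical degrees -/
theorem coll_of_crit {r m : ℕ} (hr : 0 < r)
    (hE : ∀ d : ℕ, (d + 2).choose 2 ≤ r * (m + 1).choose 2 → r * (m + 1).choose 2 < (d + 3).choose 2 →
      EmpA (es r m) (TT d))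
    (hS : ∀ d : ℕ, (d + 1).choose 2 < r * (m + 1).choose 2 → r * (m + 1).choose 2 ≤ (d + 2).choose 2 →
      SurA (ss r m) (TT d)) (L : Type u) [Field L] [CharZero L] :
    ∃ F : MvPolynomial (Fin (r + 1)) L, F ≠ 0 ∧
      ∀ (c : L) (a : Fin r → L), MvPolynomial.eval (Fin.cons c a : Fin (r + 1) → L) F ≠ 0 →
        ∀ d : ℕ, JetDim r m c a d := by
  classical
  rcases Nat.eq_zero_or_pos m with hm | hm
  · exact coll_triv hm L
  obtain ⟨C, hC⟩ : ∃ C, C = r * (m + 1).choose 2 := ⟨_, rfl⟩
  have hC0 : 0 < C := by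
    rw [hC]
    exact Nat.mul_pos hr (Nat.choose_pos (by omega))
  have hmono : ∀ d d' : ℕ, d ≤ d' → (d + 2).choose 2 ≤ (d' + 2).choose 2 :=
    fun d d' h => Nat.choose_le_choose 2 (by omega)
  have hbig : ∀ d : ℕ, d < (d + 2).choose 2 := by
    intro d
    rw [Nat.choose_two_right, ← Nat.add_one_le_iff, Nat.le_div_iff_mul_le (by norm_num)]
    rw [show d + 2 - 1 = d + 1 by omega]
    nlinarith
  rw [← hC] at hE hS
  obtain ⟨F, hF, hF'⟩ := coll_wrap (r := r) (m := m) hr (PL := fun d => (d + 2).choose 2 ≤ C)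
    (PH := fun d => C ≤ (d + 2).choose 2) ⟨C, fun d hd => ((hbig d).le.trans hd)⟩
    (fun d hd => by
      -- the largest degree
      have h1 := Nat.findGreatest_spec (P := fun d => (d + 2).choose 2 ≤ C) (n := C) ((hbig d).le.trans hd) hd
      have h2 : d ≤ Nat.findGreatest (fun d => (d + 2).choose 2 ≤ C) C :=
        Nat.le_findGreatest ((hbig d).le.trans hd) hd
      obtain ⟨D, hD⟩ : ∃ D, D = Nat.findGreatest (fun d => (d + 2).choose 2 ≤ C) C := ⟨_, rfl⟩
      rw [← hD] at h1 h2
      have h3 : C < (D + 3).choose 2 := by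
        by_contra hcon
        have h4 : (D + 1 + 2).choose 2 ≤ C := by rw [not_lt] at hcon; exact hcon
        have h5 : D + 1 ≤ Nat.findGreatest (fun d => (d + 2).choose 2 ≤ C) C :=
          Nat.le_findGreatest ((hbig _).le.trans h4) h4
        omega
      exact EmpAt.of ((hE D h1 h3).mono (TT_mono h2)))
    (fun d hd => by
      obtain ⟨D, hD⟩ : ∃ D, D = Nat.find (⟨d, hd⟩ : ∃ d, C ≤ (d + 2).choose 2) := ⟨_, rfl⟩
      have h1 : C ≤ (D + 2).choose 2 := by rw [hD]; exact Nat.find_spec (⟨d, hd⟩ : ∃ d, C ≤ (d + 2).choose 2)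
      have h2 : D ≤ d := by rw [hD]; exact Nat.find_min' _ hd
      have h3 : (D + 1).choose 2 < C := by
        rcases Nat.eq_zero_or_pos D with h0 | h0
        · rw [h0]; simpa using hC0
        · have := Nat.find_min (⟨d, hd⟩ : ∃ d, C ≤ (d + 2).choose 2) (m := D - 1) (by omega)
          rw [show D - 1 + 2 = D + 1 by omega] at this
          omega
      exact IndAt.of ((hS D h3 h1).mono (TT_mono h2))) L
  refine ⟨F, hF, fun c a hc d => hF' c a hc d ?_⟩
  rcases le_total ((d + 2).choose 2) C with h | h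
  · exact Or.inl h
  · exact Or.inr h

end Pool.Agent.Run7.h968
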