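import Pool.Agent.Run7.h968.Ten
import Pool.Agent.Run7.h968.Wrap

/-! General collisions of forty fat points. -/

namespace Pool.Agent.Run7.h968

open Finset Pool.Agent.TH183.QC Pool.Agent.TH176.Nag Pool.Agent.TH387.SH Pool.Agent.TH183.QS
open Pool.Agent.TH183.QI Pool.Agent.H932R2 Pool.Agent.H932R3
open Pool.Agent.TH183.QN (EmpW TT)

universe u

theorem two_choose (d : ℕ) : 2 * (d + 2).choose 2 = (d + 1) * (d + 2) := by
  rw [Nat.choose_two_right, show d + 2 - 1 = d + 1 by omega]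
  have : 2 ∣ (d + 2) * (d + 1) := by rw [mul_comm]; exact (Nat.even_mul_succ_self (d + 1)).two_dvd
  rw [Nat.mul_div_cancel' this, mul_comm]

theorem crit_lo {s m d : ℝ} (hs : s * s = 10) (hs2 : s < 3.1623) (hm : 14 ≤ m) (hd : 0 ≤ d)
    (h : 40 * m * (m + 1) < (d + 2) * (d + 3)) : 2 * s * m ≤ d := by
  by_contra hcon
  push Not at hcon
  have h1 : d * d ≤ (2 * s * m) * (2 * s * m) := mul_self_le_mul_self hd hcon.le
  have h2 : (2 * s * m) * (2 * s * m) = 40 * m * m := by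
    calc (2 * s * m) * (2 * s * m) = 4 * (s * s) * m * m := by ring
      _ = _ := by rw [hs]; ring
  have h3 : 2 * s * m ≤ 6.3246 * m := mul_le_mul_of_nonneg_right (by linarith) (by linarith)
  nlinarith

theorem crit_hi {s m d : ℝ} (hs : s * s = 10) (hs0 : 0 < s) (hm : 14 ≤ m) (hd : 0 ≤ d)
    (h : d * (d + 1) < 40 * m * (m + 1)) : d < s * (2 * m + 1) := by
  by_contra hcon
  push Not at hcon
  have h1 : (s * (2 * m + 1)) * (s * (2 * m + 1)) ≤ d * d :=
    mul_self_le_mul_self (by positivity) hcon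
  have h2 : (s * (2 * m + 1)) * (s * (2 * m + 1)) = 10 * (2 * m + 1) * (2 * m + 1) := by
    calc (s * (2 * m + 1)) * (s * (2 * m + 1)) = (s * s) * (2 * m + 1) * (2 * m + 1) := by ring
      _ = _ := by rw [hs]
  nlinarith

/-- the numerical part -/
theorem forty_num {s : ℝ} (hs : s * s = 10) (hs1 : 3.1622 < s) (hs2 : s < 3.1623) {m d N C : ℕ}
    (hm : 14 ≤ m) (hN : 2 * N = (d + 1) * (d + 2)) (hC : C = 20 * m * (m + 1)) (h1 : C ≤ N + 5)
    (h2 : N ≤ C + 5) : 19 ≤ m ∧ (20 * m + 5 : ℝ) ≤ s * d ∧ s * d < 20 * m + 5.3 := by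
  have hm19 : 19 ≤ m := by
    by_contra hcon
    have hd : d ≤ 200 := by
      by_contra hcon2
      have h3 : 201 * 202 ≤ (d + 1) * (d + 2) := Nat.mul_le_mul (by omega) (by omega)
      have h4 : 20 * m * (m + 1) ≤ 20 * 18 * 19 := Nat.mul_le_mul (by omega) (by omega)
      omega
    have hm18 : m ≤ 18 := by omega
    clear hcon
    interval_cases m <;> interval_cases d <;> omega
  refine ⟨hm19, ?_, ?_⟩
  · have hmR : (19 : ℝ) ≤ m := by exact_mod_cast hm19
    have hNR : (2 : ℝ) * N = (d + 1) * (d + 2) := by exact_mod_cast hN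
    have hCR : (C : ℝ) = 20 * m * (m + 1) := by exact_mod_cast hC
    have h1R : (C : ℝ) ≤ N + 5 := by exact_mod_cast h1
    by_contra hcon
    push Not at hcon
    have hd0 : (0 : ℝ) ≤ d := Nat.cast_nonneg d
    have h3 : s * (2 * d + 3) < 40 * m + 19.487 := by linarith
    have h4 : 0 ≤ s * (2 * d + 3) := by positivity
    have h5 : (s * (2 * d + 3)) ^ 2 < (40 * m + 19.487) ^ 2 := by
      apply pow_lt_pow_left₀ h3 h4 (by norm_num)
    have h6 : (s * (2 * d + 3)) ^ 2 = 10 * (2 * d + 3) ^ 2 := by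
      rw [mul_pow, sq s, hs]
    rw [h6] at h5
    nlinarith
  · have hmR : (19 : ℝ) ≤ m := by exact_mod_cast hm19
    have hNR : (2 : ℝ) * N = (d + 1) * (d + 2) := by exact_mod_cast hN
    have hCR : (C : ℝ) = 20 * m * (m + 1) := by exact_mod_cast hC
    have h2R : (N : ℝ) ≤ C + 5 := by exact_mod_cast h2
    by_contra hcon
    push Not at hcon
    have h3 : 40 * m + 20.08 ≤ s * (2 * d + 3) := by linarith
    have h5 : (40 * (m : ℝ) + 20.08) ^ 2 ≤ (s * (2 * d + 3)) ^ 2 := by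
      apply pow_le_pow_left₀ (by positivity) h3
    have h6 : (s * (2 * d + 3)) ^ 2 = 10 * (2 * d + 3) ^ 2 := by
      rw [mul_pow, sq s, hs]
    rw [h6] at h5
    nlinarith

/-- the data of the rows in the critical degrees -/
theorem forty_rows {s : ℝ} (hs : s * s = 10) (hs1 : 3.1622 < s) (hs2 : s < 3.1623) (hirr : Irrational s)
    {m d : ℕ} (hlo : 2 * s * m ≤ d) (hhi : (d : ℝ) < s * (2 * m + 1)) :
    ∃ τ : ℝ, 0 < τ ∧ τ < 1 ∧ Irrational τ ∧ (∀ k, 2 * m < k → rc (TD d τ) 1 5 k = 0) ∧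
      (∀ k ≤ 2 * m, (⌊s * d⌋ - 20 * m) - 1 ≤ (rc (TD d τ) 1 5 k : ℤ) - (2 * (4 : ℕ) + 2) * (2 * m - k) ∧
        (rc (TD d τ) 1 5 k : ℤ) - (2 * (4 : ℕ) + 2) * (2 * m - k) ≤ (⌊s * d⌋ - 20 * m) + 1) ∧
      ∑ k ∈ range (2 * m + 1), rc (TD d τ) 1 5 k = (d + 2).choose 2 ∧
      (s * d < 20 * m + 5.3 → (20 * m + 5 : ℝ) ≤ s * d → 19 ≤ m →
        4 ≤ ((range (2 * m + 1)).filter fun k => (rc (TD d τ) 1 5 k : ℤ) - (2 * (4 : ℕ) + 2) * (2 * m - k) =
          (⌊s * d⌋ - 20 * m)).card) := by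
  classical
  obtain ⟨K, hK⟩ : ∃ K : ℝ, K = 3 * s := ⟨_, rfl⟩
  have hK2 : K * K = 90 := by rw [hK]; linarith
  have hK9 : 9 ≤ K := by rw [hK]; linarith
  have hK3 : K / 3 = s := by rw [hK]; ring
  have hKτ : 3 * (1 + (s - 8 / 3)) + 5 = K := by rw [hK]; ring
  have hirr' : Irrational (s - 8 / 3) := by
    have : s - 8 / 3 = s - ((8 / 3 : ℚ) : ℝ) := by push_cast; ring
    rw [this]
    exact hirr.sub_ratCast _
  have hz : ∀ k, 2 * m < k → rc (TD d (s - 8 / 3)) 1 5 k = 0 := by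
    intro k hk
    apply rc_zero hirr' hKτ hK9
    have : ((2 * m + 1 : ℕ) : ℝ) ≤ k := by exact_mod_cast hk
    push_cast at this
    rw [hK]
    nlinarith
  have hY : ∀ k ≤ 2 * m, 0 ≤ 3 * (d : ℝ) - K * k := by
    intro k hk
    have : (k : ℝ) ≤ ((2 * m : ℕ) : ℝ) := by exact_mod_cast hk
    push_cast at this
    rw [hK]
    nlinarith
  refine ⟨s - 8 / 3, by linarith, by linarith, hirr', hz, ?_, ?_, ?_⟩
  · intro k hk
    obtain ⟨h1, h2, -⟩ := rc_val hirr' hKτ hK2 hK9 (hY k hk)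
    rw [hK3] at h1 h2
    push_cast
    constructor
    · linarith
    · linarith
  · rw [rc_sum _ _ _ (fun k hk => hz k (by omega)), card_TD_eq d hirr']
  · intro hlt hle hm19
    have hfl : ⌊s * (d : ℝ)⌋ = 20 * m + 5 := by
      rw [Int.floor_eq_iff]
      push_cast
      exact ⟨by linarith, by linarith⟩
    have hfr : Int.fract (s * (d : ℝ)) < 0.3 := by
      have : Int.fract (s * (d : ℝ)) = s * d - ⌊s * (d : ℝ)⌋ := rfl
      rw [this, hfl]
      push_cast
      linarith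
    have hcnt := count_fract (5 * (d : ℝ) / 3) (10 - K) (by rw [hK]; linarith) (by linarith) (2 * m + 1)
    have hsub : (((range (2 * m + 1)).filter fun k : ℕ => 10 - K ≤ Int.fract (5 * (d : ℝ) / 3 - (10 - K) * k)).card) ≤
        ((range (2 * m + 1)).filter fun k => (rc (TD d (s - 8 / 3)) 1 5 k : ℤ) - (2 * (4 : ℕ) + 2) * (2 * m - k) =
          (⌊s * d⌋ - 20 * m)).card := by
      apply card_le_card
      intro k hk
      rw [mem_filter, mem_range] at hk ⊢
      refine ⟨hk.1, ?_⟩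
      obtain ⟨-, -, h3⟩ := rc_val hirr' hKτ hK2 hK9 (hY k (by omega))
      rw [hK3] at h3
      rw [h3 hk.2 (by
        have : 0.3 ≤ 10 - K := by rw [hK]; linarith
        linarith [hk.2])]
      push_cast
      ring
    have hmR : (19 : ℝ) ≤ m := by exact_mod_cast hm19
    have h4 : (3 : ℝ) < (((range (2 * m + 1)).filter fun k : ℕ => 10 - K ≤ Int.fract (5 * (d : ℝ) / 3 - (10 - K) * k)).card) := by
      refine lt_trans ?_ hcnt
      push_cast
      rw [hK]
      nlinarith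
    have h5 : 3 < (((range (2 * m + 1)).filter fun k : ℕ => 10 - K ≤ Int.fract (5 * (d : ℝ) / 3 - (10 - K) * k)).card) := by
      exact_mod_cast h4
    omega

theorem sqrt_ten : Real.sqrt 10 * Real.sqrt 10 = 10 ∧ 3.1622 < Real.sqrt 10 ∧ Real.sqrt 10 < 3.1623 ∧
    Irrational (Real.sqrt 10) := by
  refine ⟨Real.mul_self_sqrt (by norm_num), ?_, ?_, ?_⟩
  · apply Real.lt_sqrt_of_sq_lt; norm_num
  · rw [Real.sqrt_lt' (by norm_num)]; norm_num
  · have : ¬ IsSquare (10 : ℕ) := by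
      rintro ⟨n, hn⟩
      have : n < 4 := by
        by_contra hcon
        have : 4 * 4 ≤ n * n := Nat.mul_le_mul (by omega) (by omega)
        omega
      interval_cases n <;> omega
    have h2 := (irrational_sqrt_natCast_iff (n := 10)).2 this
    exact_mod_cast h2

theorem fortyE {m d : ℕ} (hm : 14 ≤ m) (h1 : (d + 2).choose 2 ≤ 40 * (m + 1).choose 2)
    (h2 : 40 * (m + 1).choose 2 < (d + 3).choose 2) : EmpA (es 40 m) (TT d) := by
  obtain ⟨s, hsd⟩ : ∃ s, s = Real.sqrt 10 := ⟨_, rfl⟩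
  obtain ⟨hs, hs1, hs2, hirr⟩ := sqrt_ten
  rw [← hsd] at hs hs1 hs2 hirr
  have hC : 40 * (m + 1).choose 2 = 20 * m * (m + 1) := by
    obtain ⟨n, rfl⟩ : ∃ n, m = n + 1 := ⟨m - 1, by omega⟩
    have := two_choose n
    nlinarith
  rw [hC] at h1 h2
  have hN := two_choose d
  have hN1 : 2 * (d + 3).choose 2 = (d + 1 + 1) * (d + 1 + 2) := two_choose (d + 1)
  have hmR : (14 : ℝ) ≤ m := by exact_mod_cast hm
  have hd0 : (0 : ℝ) ≤ d := Nat.cast_nonneg d
  have g1 : ((d : ℝ) + 1) * (d + 2) ≤ 40 * m * (m + 1) := by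
    have : (d + 1) * (d + 2) ≤ 40 * m * (m + 1) := by
      calc (d + 1) * (d + 2) = 2 * (d + 2).choose 2 := hN.symm
        _ ≤ 2 * (20 * m * (m + 1)) := by omega
        _ = _ := by ring
    exact_mod_cast this
  have g2 : 40 * (m : ℝ) * (m + 1) < (d + 2) * (d + 3) := by
    have : 40 * m * (m + 1) < (d + 1 + 1) * (d + 1 + 2) := by
      calc 40 * m * (m + 1) = 2 * (20 * m * (m + 1)) := by ring
        _ < 2 * (d + 3).choose 2 := by omega
        _ = _ := hN1
    have h3 : ((40 * m * (m + 1) : ℕ) : ℝ) < ((d + 1 + 1) * (d + 1 + 2) : ℕ) := by exact_mod_cast this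
    push_cast at h3
    nlinarith
  have hlo : 2 * s * m ≤ d := crit_lo hs hs2 hmR hd0 (by nlinarith)
  have hhi : (d : ℝ) < s * (2 * m + 1) := crit_hi hs (by linarith) hmR hd0 (by nlinarith)
  obtain ⟨τ, h0, h1', hirrτ, hz, hc, hsum, hcnt⟩ := forty_rows hs hs1 hs2 hirr hlo hhi
  refine keyE 40 m d τ h0 h1' ?_
  rw [Reg_eq_TD hirrτ]
  refine flatE (TD d τ) 1 5 1 0 (by norm_num) ?_
  refine crit_E (p := 4) (m := m) (by omega) _ hz _ hc hsum ?_ ?_ ?_ (fun x y hx hxy => baseE hx hxy)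
  · calc (d + 2).choose 2 ≤ 20 * m * (m + 1) := h1
      _ = _ := by ring
  · intro h3
    obtain ⟨-, h5, h6⟩ := forty_num hs hs1 hs2 hm hN (C := 20 * m * (m + 1)) rfl (by
      calc 20 * m * (m + 1) = 2 * (2 * 4 + 2) * m * (m + 1) := by ring
        _ ≤ _ := by omega) (by omega)
    have : ⌊s * (d : ℝ)⌋ = 20 * m + 5 := by
      rw [Int.floor_eq_iff]
      push_cast
      exact ⟨by linarith, by linarith⟩
    rw [this]
    push_cast
    ring
  · intro h3 _
    obtain ⟨h4, h5, h6⟩ := forty_num hs hs1 hs2 hm hN (C := 20 * m * (m + 1)) rfl (by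
      have : 20 * m * (m + 1) = 2 * (2 * 4 + 2) * m * (m + 1) := by ring
      omega) (by omega)
    exact hcnt h6 h5 h4

theorem fortyS {m d : ℕ} (hm : 14 ≤ m) (h1 : (d + 1).choose 2 < 40 * (m + 1).choose 2)
    (h2 : 40 * (m + 1).choose 2 ≤ (d + 2).choose 2) : SurA (ss 40 m) (TT d) := by
  obtain ⟨s, hsd⟩ : ∃ s, s = Real.sqrt 10 := ⟨_, rfl⟩
  obtain ⟨hs, hs1, hs2, hirr⟩ := sqrt_ten
  rw [← hsd] at hs hs1 hs2 hirr
  have hC : 40 * (m + 1).choose 2 = 20 * m * (m + 1) := by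
    obtain ⟨n, rfl⟩ : ∃ n, m = n + 1 := ⟨m - 1, by omega⟩
    have := two_choose n
    nlinarith
  rw [hC] at h1 h2
  have hN := two_choose d
  have hmR : (14 : ℝ) ≤ m := by exact_mod_cast hm
  have hd0 : (0 : ℝ) ≤ d := Nat.cast_nonneg d
  have g1 : (d : ℝ) * (d + 1) < 40 * m * (m + 1) := by
    have : d * (d + 1) < 40 * m * (m + 1) := by
      rcases Nat.eq_zero_or_pos d with h0 | h0
      · rw [h0]; simp; omega
      · obtain ⟨n, rfl⟩ : ∃ n, d = n + 1 := ⟨d - 1, by omega⟩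
        have h1' : (n + 2).choose 2 < 20 * m * (m + 1) := h1
        calc (n + 1) * (n + 1 + 1) = 2 * (n + 2).choose 2 := (two_choose n).symm
          _ < 2 * (20 * m * (m + 1)) := by omega
          _ = _ := by ring
    exact_mod_cast this
  have g2 : 40 * (m : ℝ) * (m + 1) ≤ (d + 1) * (d + 2) := by
    have : 40 * m * (m + 1) ≤ (d + 1) * (d + 2) := by
      calc 40 * m * (m + 1) = 2 * (20 * m * (m + 1)) := by ring
        _ ≤ 2 * (d + 2).choose 2 := by omega
        _ = _ := hN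
    exact_mod_cast this
  have hlo : 2 * s * m ≤ d := crit_lo hs hs2 hmR hd0 (by nlinarith)
  have hhi : (d : ℝ) < s * (2 * m + 1) := crit_hi hs (by linarith) hmR hd0 (by nlinarith)
  obtain ⟨τ, h0, h1', hirrτ, hz, hc, hsum, hcnt⟩ := forty_rows hs hs1 hs2 hirr hlo hhi
  refine keyS 40 m d τ h0 h1' hirrτ ?_
  rw [Reg_eq_TD hirrτ]
  refine flatS (TD d τ) 1 5 1 0 (by norm_num) ?_
  refine crit_S (p := 4) (m := m) (by omega) (by omega) _ _ hc hsum ?_ ?_ ?_ (fun x y hx hxy => baseS hx hxy)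
  · calc 2 * (2 * 4 + 2) * m * (m + 1) = 20 * m * (m + 1) := by ring
      _ ≤ _ := h2
  · intro h3
    obtain ⟨-, h5, h6⟩ := forty_num hs hs1 hs2 hm hN (C := 20 * m * (m + 1)) rfl (by omega) (by
      have : 20 * m * (m + 1) = 2 * (2 * 4 + 2) * m * (m + 1) := by ring
      omega)
    have : ⌊s * (d : ℝ)⌋ = 20 * m + 5 := by
      rw [Int.floor_eq_iff]
      push_cast
      exact ⟨by linarith, by linarith⟩
    rw [this]
    push_cast
    ring
  · intro h3 _
    obtain ⟨h4, h5, h6⟩ := forty_num hs hs1 hs2 hm hN (C := 20 * m * (m + 1)) rfl (by omega) (by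
      have : 20 * m * (m + 1) = 2 * (2 * 4 + 2) * m * (m + 1) := by ring
      omega)
    exact hcnt h6 h5 h4

/-- **General collisions of forty fat points.** -/
theorem forty (m : ℕ) (L : Type u) [Field L] [CharZero L] :
    ∃ F : MvPolynomial (Fin (40 + 1)) L, F ≠ 0 ∧
      ∀ (c : L) (a : Fin 40 → L), MvPolynomial.eval (Fin.cons c a : Fin (40 + 1) → L) F ≠ 0 →
        ∀ d : ℕ, JetDim 40 m c a d := by
  rcases Nat.lt_or_ge m 14 with hm | hm
  · refine coll_start (by norm_num) (Or.inl ?_) L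
    have h1 : Real.sqrt 40 < 6.33 := by
      rw [Real.sqrt_lt' (by norm_num)]; norm_num
    have h2 : (m : ℝ) ≤ 13 := by exact_mod_cast (by omega : m ≤ 13)
    push_cast
    linarith
  · exact coll_of_crit (by norm_num) (fun d h1 h2 => fortyE hm h1 h2) (fun d h1 h2 => fortyS hm h1 h2) L

end Pool.Agent.Run7.h968
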