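import Pool.Agent.Run7.h968.Rows
import Pool.Agent.Run7.h968.Forty

/-! General collisions of `36 q ^ 2 + 4` fat points, `q` odd. -/

namespace Pool.Agent.Run7.h968

open Finset Pool.Agent.TH183.QC Pool.Agent.TH176.Nag Pool.Agent.TH387.SH Pool.Agent.TH183.QS
open Pool.Agent.TH183.QI Pool.Agent.H932R2 Pool.Agent.H932R3
open Pool.Agent.TH183.QN (EmpW TT)

universe u

theorem fract_of {t : ℝ} {n : ℤ} (h0 : 0 ≤ t - n) (h1 : t - n < 1) : Int.fract t = t - n := by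
  rw [Int.fract_eq_iff]
  exact ⟨h0, h1, n, by ring⟩

/-- four points on the circle -/
theorem four_points {ε κ e g x : ℝ} {n₀ : ℤ} (hε0 : 0 < ε) (hε : ε ≤ 0.0556) (hκ : κ = (1 + ε ^ 2) / 2)
    (he1 : 0.32 - 1.5 * ε ≤ e) (he2 : e ≤ 1 / 2 - ε) (hg1 : 0.248 ≤ g) (hg2 : g ≤ 0.25) :
    ∃ o : ℝ, (o = 0 ∨ o = κ ∨ o = n₀ + g ∨ o = n₀ + g + κ) ∧ e < Int.fract (x + o) ∧
      1 / 2 - 3 * ε ≤ Int.fract (x + o) ∧ Int.fract (x + o) ≤ 1 + e - κ := by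
  obtain ⟨E, hE⟩ : ∃ E : ℝ, E = ε ^ 2 := ⟨_, rfl⟩
  have hE0 : 0 ≤ E := by rw [hE]; positivity
  have hE1 : E ≤ 0.0031 := by rw [hE]; nlinarith
  rw [← hE] at hκ
  obtain ⟨y, hy⟩ : ∃ y, y = Int.fract x := ⟨_, rfl⟩
  have hy0 : 0 ≤ y := by rw [hy]; exact Int.fract_nonneg x
  have hy1 : y < 1 := by rw [hy]; exact Int.fract_lt_one x
  have hx : x = y + ⌊x⌋ := by rw [hy, add_comm]; exact (Int.floor_add_fract x).symm
  have key : ∀ (o : ℝ) (n : ℤ), 1 / 2 - ε < x + o - n → x + o - n ≤ 1 + e - κ →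
      e < Int.fract (x + o) ∧ 1 / 2 - 3 * ε ≤ Int.fract (x + o) ∧ Int.fract (x + o) ≤ 1 + e - κ := by
    intro o n h1 h2
    have : Int.fract (x + o) = x + o - n := fract_of (by linarith) (by linarith)
    rw [this]
    exact ⟨by linarith, by linarith, h2⟩
  rcases le_or_gt y (1 + e - κ - κ) with h1 | h1
  · refine ⟨κ, by simp, key κ ⌊x⌋ (by linarith) (by linarith)⟩
  rcases le_or_gt y (1 + e - κ - g) with h2 | h2
  · refine ⟨n₀ + g, by simp, key _ (⌊x⌋ + n₀) (by push_cast; linarith) (by push_cast; linarith)⟩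
  rcases le_or_gt y (1 + e - κ) with h3 | h3
  · refine ⟨0, by simp, key 0 ⌊x⌋ (by linarith) (by linarith)⟩
  rcases le_or_gt y (1 + e - κ + 1 - κ - g) with h4 | h4
  · refine ⟨n₀ + g + κ, by simp, key _ (⌊x⌋ + n₀ + 1) (by push_cast; linarith) (by push_cast; linarith)⟩
  · refine ⟨κ, by simp, key κ (⌊x⌋ + 1) (by push_cast; linarith) (by push_cast; linarith)⟩

variable {q : ℕ} {s τ : ℝ}

/-- many rows of the middle length -/
theorem RD.count (h : RD q s τ) (hq3 : 3 ≤ q) {m d : ℕ} (hm : 18 * q ^ 2 ≤ m)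
    (hY : 3 * ((q : ℝ) - 1) ≤ d - s * (2 * m)) (he1 : 0.32 - 1.5 * (s - 3 * q) ≤ Int.fract (s * (d : ℝ)))
    (he2 : Int.fract (s * (d : ℝ)) ≤ 1 / 2 - (s - 3 * q)) :
    9 * q ^ 2 ≤ ((range (2 * m + 1)).filter fun k =>
      (rc (TD d τ) q (3 * q + 1) k : ℤ) = ⌊s * (d : ℝ)⌋ - (9 * q ^ 2 + 1) * k - EE q).card := by
  classical
  obtain ⟨hε, hκ, hε1, hε2, hε0⟩ := h.eps
  have hq3' : (3 : ℝ) ≤ q := by exact_mod_cast hq3
  have hs := h.hs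
  have hs0 := h.hs0
  have hε3 : s - 3 * q ≤ 0.0556 := by nlinarith
  have hg2 : 9 * (q : ℝ) ^ 2 * (s - 3 * q) ^ 2 ≤ 0.25 := by
    have h1 : (s - 3 * q) * (6 * q) ≤ 1 := by nlinarith
    have h2 : 0 ≤ (s - 3 * q) * (6 * q) := by positivity
    have h3 : ((s - 3 * q) * (6 * q)) * ((s - 3 * q) * (6 * q)) ≤ 1 := by nlinarith
    linarith
  have hg1 : 0.248 ≤ 9 * (q : ℝ) ^ 2 * (s - 3 * q) ^ 2 := by
    have h1 : (s + 3 * q) ^ 2 ≤ 36 * (q : ℝ) ^ 2 + 2 := by nlinarith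
    have h2 : (s - 3 * q) ^ 2 * (s + 3 * q) ^ 2 = 1 := by rw [← mul_pow, hε]; norm_num
    have h3 : 1 ≤ (s - 3 * q) ^ 2 * (36 * (q : ℝ) ^ 2 + 2) := by
      rw [← h2]; exact mul_le_mul_of_nonneg_left h1 (by positivity)
    have h4 : (9 : ℝ) ≤ q ^ 2 := by nlinarith
    have h5 : (s - 3 * q) ^ 2 * 2 ≤ (s - 3 * q) ^ 2 * (0.2224 * (q : ℝ) ^ 2) :=
      mul_le_mul_of_nonneg_left (by linarith) (by positivity)
    nlinarith
  have key : ∀ j < 9 * q ^ 2, ∃ k, (k = 2 * j ∨ k = 2 * j + 1 ∨ k = 2 * j + 18 * q ^ 2 ∨ k = 2 * j + 1 + 18 * q ^ 2) ∧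
      (rc (TD d τ) q (3 * q + 1) k : ℤ) = ⌊s * (d : ℝ)⌋ - (9 * q ^ 2 + 1) * k - EE q := by
    intro j hj
    obtain ⟨o, ho, h1, h2, h3⟩ := four_points (x := s * d - (3 * q + 1) * (d : ℝ) / 3 + s * (s - 3 * q) * (2 * j : ℕ))
      (n₀ := 9 * q ^ 2) hε0 hε3 hκ he1 he2 hg1 hg2
    have hgood : ∀ k : ℕ, k ≤ 2 * m → s * (s - 3 * q) * ((2 * j : ℕ) : ℝ) + o = s * (s - 3 * q) * k →
        (rc (TD d τ) q (3 * q + 1) k : ℤ) = ⌊s * (d : ℝ)⌋ - (9 * q ^ 2 + 1) * k - EE q := by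
      intro k hk hko
      have hk' : (k : ℝ) ≤ 2 * m := by exact_mod_cast hk
      have hYk : 3 * ((q : ℝ) - 1) ≤ d - s * k := by
        have : s * (k : ℝ) ≤ s * (2 * m) := mul_le_mul_of_nonneg_left hk' (by linarith)
        linarith
      have e1 : s * (d : ℝ) - (3 * q + 1) * (d : ℝ) / 3 + s * (s - 3 * q) * ((2 * j : ℕ) : ℝ) + o =
          s * d - (3 * q + 1) * (d : ℝ) / 3 + s * (s - 3 * q) * k := by linarith
      rw [e1] at h1 h2 h3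
      exact (h.facts hYk).2.2 h1 (by linarith) h3
    have hκ2 : s * (s - 3 * q) * 2 = 1 + (s - 3 * q) ^ 2 := by rw [hκ]; ring
    have hj2 : 2 * j < 18 * q ^ 2 := by omega
    rcases ho with ho | ho | ho | ho
    · exact ⟨2 * j, Or.inl rfl, hgood _ (by omega) (by rw [ho]; ring)⟩
    · exact ⟨2 * j + 1, Or.inr (Or.inl rfl), hgood _ (by omega) (by rw [ho]; push_cast; ring)⟩
    · refine ⟨2 * j + 18 * q ^ 2, Or.inr (Or.inr (Or.inl rfl)), hgood _ (by omega) ?_⟩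
      rw [ho]; push_cast
      linear_combination (-9 * (q : ℝ) ^ 2) * hκ2
    · refine ⟨2 * j + 1 + 18 * q ^ 2, Or.inr (Or.inr (Or.inr rfl)), hgood _ (by omega) ?_⟩
      rw [ho]; push_cast
      linear_combination (-9 * (q : ℝ) ^ 2) * hκ2
  choose! f hf1 hf2 using key
  have hcard : (range (9 * q ^ 2)).card ≤ ((range (2 * m + 1)).filter fun k =>
      (rc (TD d τ) q (3 * q + 1) k : ℤ) = ⌊s * (d : ℝ)⌋ - (9 * q ^ 2 + 1) * k - EE q).card := by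
    refine card_le_card_of_injOn f ?_ ?_
    · intro j hj
      rw [mem_coe, mem_range] at hj
      rw [mem_coe, mem_filter, mem_range]
      refine ⟨?_, hf2 j hj⟩
      have := hf1 j hj
      omega
    · intro j hj j' hj' hjj
      rw [mem_coe, mem_range] at hj hj'
      have h1 := hf1 j hj
      have h2 := hf1 j' hj'
      rw [hjj] at h1
      omega
  rwa [card_range] at hcard

/-- no row after the last one -/
theorem RD.zero (h : RD q s τ) {d k : ℕ} (hY : (d : ℝ) - s * k < 0) : rc (TD d τ) q (3 * q + 1) k = 0 := by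
  have hq := h.q_pos
  obtain ⟨B, hB, hB2⟩ := exists_rc (TD d τ) q (3 * q + 1) k
  rw [← hB, card_eq_zero, eq_empty_iff_forall_notMem]
  intro c hc
  obtain ⟨b, hb, -, h1, h2⟩ := h.row.1 (hB2 c hc)
  have hb' : (0 : ℝ) ≤ b := by exact_mod_cast hb
  have h3 : 0 ≤ 3 * (q : ℝ) * (d - s * k - 3 * b) := by linarith
  have h4 : 3 * (q : ℝ) * (d - s * k - 3 * b) < 0 :=
    mul_neg_of_pos_of_neg (by linarith) (by linarith)
  linarith

theorem exists_RD {q : ℕ} (hq : 1 ≤ q) : ∃ s τ : ℝ, RD q s τ ∧ 0 < τ ∧ τ < 1 := by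
  have hq' : (1 : ℝ) ≤ q := by exact_mod_cast hq
  have hs : Real.sqrt (9 * q ^ 2 + 1) * Real.sqrt (9 * q ^ 2 + 1) = 9 * (q : ℝ) ^ 2 + 1 :=
    Real.mul_self_sqrt (by positivity)
  have hs0 : 3 * (q : ℝ) < Real.sqrt (9 * q ^ 2 + 1) := by
    apply Real.lt_sqrt_of_sq_lt; nlinarith
  have hs1 : Real.sqrt (9 * q ^ 2 + 1) < 3 * q + 1 / 3 := by
    rw [Real.sqrt_lt' (by positivity)]; nlinarith
  have hirr : Irrational (Real.sqrt (9 * q ^ 2 + 1)) := by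
    have : ¬ IsSquare (9 * q ^ 2 + 1) := by
      rintro ⟨n, hn⟩
      rcases lt_or_ge n (3 * q + 1) with h | h
      · have : n * n ≤ (3 * q) * (3 * q) := Nat.mul_le_mul (by omega) (by omega)
        nlinarith
      · have : (3 * q + 1) * (3 * q + 1) ≤ n * n := Nat.mul_le_mul h h
        nlinarith
    have h2 := (irrational_sqrt_natCast_iff (n := 9 * q ^ 2 + 1)).2 this
    push_cast at h2
    exact h2
  have hq0 : (q : ℝ) ≠ 0 := by linarith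
  refine ⟨Real.sqrt (9 * q ^ 2 + 1), (3 * Real.sqrt (9 * q ^ 2 + 1) - 6 * q - 1) / (3 * q), ⟨hq, hs, hs0, ?_, ?_⟩, ?_, ?_⟩
  · have e : (3 * Real.sqrt (9 * q ^ 2 + 1) - 6 * q - 1) / (3 * (q : ℝ)) =
        Real.sqrt (9 * q ^ 2 + 1) / (q : ℕ) - (((6 * q + 1) / (3 * q) : ℚ) : ℝ) := by
      push_cast
      field_simp
      ring
    rw [e]
    exact (hirr.div_natCast (by omega)).sub_ratCast _
  · field_simp
    ring
  · apply div_pos <;> linarith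
  · rw [div_lt_one (by linarith)]
    linarith

theorem RD.crit_lo (h : RD q s τ) {m d : ℝ} (hm : s ≤ 2 * m + 1) (hd : 0 ≤ d)
    (h1 : 4 * (9 * q ^ 2 + 1) * m * (m + 1) < (d + 2) * (d + 3)) : 2 * s * m + 3 * (q - 1) ≤ d := by
  by_contra hcon
  push Not at hcon
  have hs := h.hs
  have hs0 := h.hs0
  have hq := h.q_pos
  have h2 : d + 3 ≤ s * (2 * m + 1) := by linarith
  have h3 : (d + 2) * (d + 3) ≤ (s * (2 * m + 1) - 1) * (s * (2 * m + 1)) :=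
    mul_le_mul (by linarith) h2 (by linarith) (by linarith)
  have h4 : s * s ≤ s * (2 * m + 1) := mul_le_mul_of_nonneg_left hm (by linarith)
  have h5 : (s * (2 * m + 1)) * (s * (2 * m + 1)) = (9 * q ^ 2 + 1) * (2 * m + 1) * (2 * m + 1) := by
    rw [← hs]; ring
  nlinarith

theorem RD.crit_hi (h : RD q s τ) {m d : ℝ} (hm : 0 ≤ m)
    (h1 : d * (d + 1) < 4 * (9 * q ^ 2 + 1) * m * (m + 1)) : d < s * (2 * m + 1) := by
  by_contra hcon
  push Not at hcon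
  have hs := h.hs
  have hs0 := h.hs0
  have hq := h.q_pos
  have h0 : 0 ≤ s * (2 * m + 1) := mul_nonneg (by linarith) (by linarith)
  have h2 : (s * (2 * m + 1)) * (s * (2 * m + 1)) ≤ d * d := mul_self_le_mul_self h0 hcon
  have h5 : (s * (2 * m + 1)) * (s * (2 * m + 1)) = (9 * q ^ 2 + 1) * (2 * m + 1) * (2 * m + 1) := by
    rw [← hs]; ring
  nlinarith

/-- the numerical part -/
theorem RD.num (h : RD q s τ) (hq3 : 3 ≤ q) {m d N C p : ℕ} (hm : 36 * q ^ 2 + 15 ≤ m + 36 * q)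
    (hp : 2 * p + 2 = 9 * q ^ 2 + 1) (hN : 2 * N = (d + 1) * (d + 2)) (hC : C = 2 * (9 * q ^ 2 + 1) * m * (m + 1))
    (h1 : C ≤ N + p + 1) (h2 : N ≤ C + p + 1) :
    ⌊s * (d : ℝ)⌋ = EE q + (9 * q ^ 2 + 1) * (2 * m) + p + 1 ∧
      0.32 - 1.5 * (s - 3 * q) ≤ Int.fract (s * (d : ℝ)) ∧ Int.fract (s * (d : ℝ)) ≤ 1 / 2 - (s - 3 * q) := by
  obtain ⟨hε, hκ, hε1, hε2, hε0⟩ := h.eps
  have hs := h.hs
  have hs0 := h.hs0
  have hq3' : (3 : ℝ) ≤ q := by exact_mod_cast hq3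
  have hmR : 36 * (q : ℝ) ^ 2 + 15 ≤ m + 36 * q := by exact_mod_cast hm
  have hpR : 2 * (p : ℝ) + 2 = 9 * q ^ 2 + 1 := by exact_mod_cast hp
  have hNR : (2 : ℝ) * N = (d + 1) * (d + 2) := by exact_mod_cast hN
  have hCR : (C : ℝ) = 2 * (9 * q ^ 2 + 1) * m * (m + 1) := by exact_mod_cast hC
  have h1R : (C : ℝ) ≤ N + p + 1 := by exact_mod_cast h1
  have h2R : (N : ℝ) ≤ C + p + 1 := by exact_mod_cast h2
  have hEE : 2 * ((EE q : ℤ) : ℝ) = 9 * q * (q - 1) := by exact_mod_cast two_EE q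
  have hd0 : (0 : ℝ) ≤ d := Nat.cast_nonneg d
  obtain ⟨W, hW⟩ : ∃ W : ℝ, W = 2 * m + 1 := ⟨_, rfl⟩
  have hWb : 72 * (q : ℝ) ^ 2 - 72 * q + 31 ≤ W := by rw [hW]; linarith
  have hW1 : 1 ≤ W := by nlinarith
  -- the square
  have hsq : (s * (2 * d + 3)) ^ 2 = (9 * q ^ 2 + 1) * (8 * N + 1) := by
    rw [mul_pow, sq s, hs]
    have : (2 * (d : ℝ) + 3) ^ 2 = 8 * N + 1 := by linear_combination -4 * hNR
    rw [this]
  have hC2 : 8 * (C : ℝ) = 4 * (9 * q ^ 2 + 1) * (W ^ 2 - 1) := by rw [hCR, hW]; ring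
  have hup : s * (2 * d + 3) ≤ 2 * (9 * q ^ 2 + 1) * W + (s - 3 * q) := by
    have hpos : 0 ≤ 2 * (9 * (q : ℝ) ^ 2 + 1) * W + (s - 3 * q) := by
      have : 0 ≤ 2 * (9 * (q : ℝ) ^ 2 + 1) * W := mul_nonneg (by positivity) (by linarith)
      linarith
    apply le_of_sq_le_sq _ hpos
    rw [hsq]
    have e1 : (8 * (N : ℝ) + 1) ≤ 4 * (9 * q ^ 2 + 1) * W ^ 2 + 1 := by linarith
    have e2 : (9 * (q : ℝ) ^ 2 + 1) * (8 * N + 1) ≤ (9 * (q : ℝ) ^ 2 + 1) * (4 * (9 * q ^ 2 + 1) * W ^ 2 + 1) :=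
      mul_le_mul_of_nonneg_left e1 (by positivity)
    have e3 : 1 ≤ 4 * W * (s - 3 * q) := by
      have : s + 3 * q ≤ 4 * W := by nlinarith
      calc (1 : ℝ) = (s + 3 * q) * (s - 3 * q) := by linarith
        _ ≤ _ := mul_le_mul_of_nonneg_right this hε0.le
    have e4 : (9 * (q : ℝ) ^ 2 + 1) * 1 ≤ (9 * (q : ℝ) ^ 2 + 1) * (4 * W * (s - 3 * q)) :=
      mul_le_mul_of_nonneg_left e3 (by positivity)
    nlinarith [sq_nonneg (s - 3 * q)]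
  have hlo : 2 * (9 * q ^ 2 + 1) * W - 0.36 ≤ s * (2 * d + 3) := by
    have hpos : 0 ≤ s * (2 * d + 3) := mul_nonneg (by linarith) (by linarith)
    apply le_of_sq_le_sq _ hpos
    rw [hsq]
    have e1 : 4 * (9 * q ^ 2 + 1) * W ^ 2 - 8 * (9 * q ^ 2 + 1) + 1 ≤ (8 * (N : ℝ) + 1) := by linarith
    have e2 : (9 * (q : ℝ) ^ 2 + 1) * (4 * (9 * q ^ 2 + 1) * W ^ 2 - 8 * (9 * q ^ 2 + 1) + 1) ≤
        (9 * (q : ℝ) ^ 2 + 1) * (8 * N + 1) :=
      mul_le_mul_of_nonneg_left e1 (by positivity)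
    have e3 : 8 * (9 * (q : ℝ) ^ 2 + 1) ≤ 1.44 * W := by nlinarith
    have e4 : (9 * (q : ℝ) ^ 2 + 1) * (8 * (9 * (q : ℝ) ^ 2 + 1)) ≤ (9 * (q : ℝ) ^ 2 + 1) * (1.44 * W) :=
      mul_le_mul_of_nonneg_left e3 (by positivity)
    nlinarith
  -- the base value
  obtain ⟨n, hn⟩ : ∃ n : ℤ, n = EE q + (9 * q ^ 2 + 1) * (2 * m) + p + 1 := ⟨_, rfl⟩
  have hnR : (n : ℝ) = (9 * q ^ 2 + 1) * W - 9 * q / 2 - 1 / 2 := by
    rw [hn]
    push_cast
    rw [hW]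
    linarith
  rw [← hn]
  have hsd : s * (d : ℝ) - n = (s * (2 * d + 3) - 2 * (9 * q ^ 2 + 1) * W) / 2 + 1 / 2 - 3 / 2 * (s - 3 * q) := by
    rw [hnR]; ring
  have hfl : ⌊s * (d : ℝ)⌋ = n := by
    rw [Int.floor_eq_iff]
    constructor <;> linarith
  refine ⟨hfl, ?_, ?_⟩
  · have : Int.fract (s * (d : ℝ)) = s * d - ⌊s * (d : ℝ)⌋ := rfl
    rw [this, hfl, hsd]
    linarith
  · have : Int.fract (s * (d : ℝ)) = s * d - ⌊s * (d : ℝ)⌋ := rfl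
    rw [this, hfl, hsd]
    linarith

/-- the facts about the rows in the critical degrees -/
theorem RD.rows (h : RD q s τ) (hq3 : 3 ≤ q) {m d p : ℕ} (hm : 36 * q ^ 2 + 15 ≤ m + 36 * q)
    (hp : 2 * p + 2 = 9 * q ^ 2 + 1) (g1 : 4 * (9 * q ^ 2 + 1) * m * (m + 1) < (d + 2) * (d + 3))
    (g2 : d * (d + 1) < 4 * (9 * q ^ 2 + 1) * m * (m + 1)) :
    (∀ k, 2 * m < k → rc (TD d τ) q (3 * q + 1) k = 0) ∧
    (∀ k ≤ 2 * m, (⌊s * (d : ℝ)⌋ - EE q - (9 * q ^ 2 + 1) * (2 * m)) - 1 ≤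
        (rc (TD d τ) q (3 * q + 1) k : ℤ) - (2 * p + 2) * (2 * m - k) ∧
      (rc (TD d τ) q (3 * q + 1) k : ℤ) - (2 * p + 2) * (2 * m - k) ≤
        (⌊s * (d : ℝ)⌋ - EE q - (9 * q ^ 2 + 1) * (2 * m)) + 1) ∧
    ∑ k ∈ range (2 * m + 1), rc (TD d τ) q (3 * q + 1) k = (d + 2).choose 2 ∧
    (0.32 - 1.5 * (s - 3 * q) ≤ Int.fract (s * (d : ℝ)) → Int.fract (s * (d : ℝ)) ≤ 1 / 2 - (s - 3 * q) →
      p ≤ ((range (2 * m + 1)).filter fun k => (rc (TD d τ) q (3 * q + 1) k : ℤ) - (2 * p + 2) * (2 * m - k) =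
        (⌊s * (d : ℝ)⌋ - EE q - (9 * q ^ 2 + 1) * (2 * m))).card) := by
  have hs := h.hs
  have hs0 := h.hs0
  obtain ⟨-, -, -, hε2, -⟩ := h.eps
  have hq3' : (3 : ℝ) ≤ q := by exact_mod_cast hq3
  have hmR : 36 * (q : ℝ) ^ 2 + 15 ≤ m + 36 * q := by exact_mod_cast hm
  have hd0 : (0 : ℝ) ≤ d := Nat.cast_nonneg d
  have g1R : 4 * (9 * (q : ℝ) ^ 2 + 1) * m * (m + 1) < (d + 2) * (d + 3) := by exact_mod_cast g1
  have g2R : (d : ℝ) * (d + 1) < 4 * (9 * (q : ℝ) ^ 2 + 1) * m * (m + 1) := by exact_mod_cast g2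
  have hlo := h.crit_lo (by nlinarith) hd0 g1R
  have hhi := h.crit_hi (Nat.cast_nonneg m) g2R
  have hpz : (2 * (p : ℤ) + 2) = 9 * q ^ 2 + 1 := by exact_mod_cast hp
  have hz : ∀ k, 2 * m < k → rc (TD d τ) q (3 * q + 1) k = 0 := by
    intro k hk
    apply h.zero
    have : ((2 * m + 1 : ℕ) : ℝ) ≤ k := by exact_mod_cast hk
    push_cast at this
    have : s * (2 * m + 1) ≤ s * k := mul_le_mul_of_nonneg_left this (by linarith)
    linarith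
  refine ⟨hz, ?_, ?_, ?_⟩
  · intro k hk
    have hk' : (k : ℝ) ≤ 2 * m := by exact_mod_cast hk
    have hY : 3 * ((q : ℝ) - 1) ≤ d - s * k := by
      have : s * (k : ℝ) ≤ s * (2 * m) := mul_le_mul_of_nonneg_left hk' (by linarith)
      linarith
    obtain ⟨h1, h2, -⟩ := h.facts hY
    rw [hpz]
    constructor <;> linarith
  · rw [rc_sum _ _ _ (fun k hk => hz k (by omega)), card_TD_eq d h.hirr]
  · intro he1 he2
    have hq2 : 3 * q ≤ q ^ 2 := by nlinarith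
    have hcnt := h.count hq3 (m := m) (d := d) (by nlinarith) (by linarith) he1 he2
    rw [hpz]
    have : p ≤ 9 * q ^ 2 := by omega
    refine this.trans (hcnt.trans (le_of_eq ?_))
    congr 1
    apply filter_congr
    intro k _
    constructor <;> intro h5 <;> linarith

theorem famE {q : ℕ} (hq3 : 3 ≤ q) (hodd : Odd q) {m d : ℕ} (hm : 36 * q ^ 2 + 15 ≤ m + 36 * q)
    (h1 : (d + 2).choose 2 ≤ (36 * q ^ 2 + 4) * (m + 1).choose 2)
    (h2 : (36 * q ^ 2 + 4) * (m + 1).choose 2 < (d + 3).choose 2) : EmpA (es (36 * q ^ 2 + 4) m) (TT d) := by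
  obtain ⟨s, τ, h, h0, h1'⟩ := exists_RD (show 1 ≤ q by omega)
  obtain ⟨p, hp⟩ : ∃ p, 2 * p + 2 = 9 * q ^ 2 + 1 := by
    obtain ⟨j, rfl⟩ := hodd
    exact ⟨18 * j ^ 2 + 18 * j + 4, by ring⟩
  have hq2 : 3 * q ≤ q ^ 2 := by nlinarith
  have hm0 : 18 * q ^ 2 ≤ m := by nlinarith
  have hC : (36 * q ^ 2 + 4) * (m + 1).choose 2 = 2 * (9 * q ^ 2 + 1) * m * (m + 1) := by
    have hm1 : 1 ≤ m := by nlinarith
    obtain ⟨n, rfl⟩ : ∃ n, m = n + 1 := ⟨m - 1, by omega⟩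
    have := two_choose n
    nlinarith
  rw [hC] at h1 h2
  have hN := two_choose d
  have hN1 : 2 * (d + 3).choose 2 = (d + 1 + 1) * (d + 1 + 2) := two_choose (d + 1)
  have g1 : 4 * (9 * q ^ 2 + 1) * m * (m + 1) < (d + 2) * (d + 3) := by
    calc 4 * (9 * q ^ 2 + 1) * m * (m + 1) = 2 * (2 * (9 * q ^ 2 + 1) * m * (m + 1)) := by ring
      _ < 2 * (d + 3).choose 2 := by omega
      _ = _ := hN1
  have g2 : d * (d + 1) < 4 * (9 * q ^ 2 + 1) * m * (m + 1) := by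
    calc d * (d + 1) < (d + 1) * (d + 2) := by nlinarith
      _ = 2 * (d + 2).choose 2 := hN.symm
      _ ≤ 2 * (2 * (9 * q ^ 2 + 1) * m * (m + 1)) := by omega
      _ = _ := by ring
  obtain ⟨hz, hc, hsum, hcnt⟩ := h.rows hq3 hm hp g1 g2
  have er : 36 * q ^ 2 + 4 = 4 * (2 * p + 2) := by rw [hp]; ring
  refine keyE (36 * q ^ 2 + 4) m d τ h0 h1' ?_
  rw [Reg_eq_TD h.hirr]
  refine flatE (TD d τ) q (3 * q + 1) (-3) 1 (by ring) ?_
  have hnum := fun (h3 : 2 * (9 * q ^ 2 + 1) * m * (m + 1) ≤ (d + 2).choose 2 + p + 1) =>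
    h.num hq3 hm hp hN rfl h3 (by omega)
  have eC : 2 * (2 * p + 2) * m * (m + 1) = 2 * (9 * q ^ 2 + 1) * m * (m + 1) := by rw [hp]
  refine crit_E (p := p) (m := m) (by nlinarith) _ hz _ hc hsum ?_ ?_ ?_ (fun x y hx hxy => ?_)
  · rw [eC]; exact h1
  · intro h3
    rw [eC] at h3
    obtain ⟨h4, -, -⟩ := hnum h3
    rw [h4]
    ring
  · intro h3 _
    rw [eC] at h3
    obtain ⟨-, h5, h6⟩ := hnum (by omega)
    exact hcnt h5 h6
  · rw [er]; exact baseE hx hxy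

theorem famS {q : ℕ} (hq3 : 3 ≤ q) (hodd : Odd q) {m d : ℕ} (hm : 36 * q ^ 2 + 15 ≤ m + 36 * q)
    (h1 : (d + 1).choose 2 < (36 * q ^ 2 + 4) * (m + 1).choose 2)
    (h2 : (36 * q ^ 2 + 4) * (m + 1).choose 2 ≤ (d + 2).choose 2) : SurA (ss (36 * q ^ 2 + 4) m) (TT d) := by
  obtain ⟨s, τ, h, h0, h1'⟩ := exists_RD (show 1 ≤ q by omega)
  obtain ⟨p, hp⟩ : ∃ p, 2 * p + 2 = 9 * q ^ 2 + 1 := by
    obtain ⟨j, rfl⟩ := hodd
    exact ⟨18 * j ^ 2 + 18 * j + 4, by ring⟩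
  have hq2 : 3 * q ≤ q ^ 2 := by nlinarith
  have hm0 : 18 * q ^ 2 ≤ m := by nlinarith
  have hC : (36 * q ^ 2 + 4) * (m + 1).choose 2 = 2 * (9 * q ^ 2 + 1) * m * (m + 1) := by
    have hm1 : 1 ≤ m := by nlinarith
    obtain ⟨n, rfl⟩ : ∃ n, m = n + 1 := ⟨m - 1, by omega⟩
    have := two_choose n
    nlinarith
  rw [hC] at h1 h2
  have hN := two_choose d
  have g1 : 4 * (9 * q ^ 2 + 1) * m * (m + 1) < (d + 2) * (d + 3) := by
    calc 4 * (9 * q ^ 2 + 1) * m * (m + 1) = 2 * (2 * (9 * q ^ 2 + 1) * m * (m + 1)) := by ring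
      _ ≤ 2 * (d + 2).choose 2 := by omega
      _ = (d + 1) * (d + 2) := hN
      _ < _ := by nlinarith
  have g2 : d * (d + 1) < 4 * (9 * q ^ 2 + 1) * m * (m + 1) := by
    have e : d * (d + 1) = 2 * (d + 1).choose 2 := by
      rcases Nat.eq_zero_or_pos d with h0 | h0
      · rw [h0]; simp
      · obtain ⟨n, rfl⟩ : ∃ n, d = n + 1 := ⟨d - 1, by omega⟩
        exact (two_choose n).symm
    calc d * (d + 1) = 2 * (d + 1).choose 2 := e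
      _ < 2 * (2 * (9 * q ^ 2 + 1) * m * (m + 1)) := by omega
      _ = _ := by ring
  obtain ⟨hz, hc, hsum, hcnt⟩ := h.rows hq3 hm hp g1 g2
  have er : 36 * q ^ 2 + 4 = 4 * (2 * p + 2) := by rw [hp]; ring
  refine keyS (36 * q ^ 2 + 4) m d τ h0 h1' h.hirr ?_
  rw [Reg_eq_TD h.hirr]
  refine flatS (TD d τ) q (3 * q + 1) (-3) 1 (by ring) ?_
  have hnum := fun (h3 : (d + 2).choose 2 ≤ 2 * (9 * q ^ 2 + 1) * m * (m + 1) + p + 1) =>
    h.num hq3 hm hp hN rfl (by omega) h3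
  have eC : 2 * (2 * p + 2) * m * (m + 1) = 2 * (9 * q ^ 2 + 1) * m * (m + 1) := by rw [hp]
  refine crit_S (p := p) (m := m) (by nlinarith) (by nlinarith) _ _ hc hsum ?_ ?_ ?_ (fun x y hx hxy => ?_)
  · rw [eC]; exact h2
  · intro h3
    rw [eC] at h3
    obtain ⟨h4, -, -⟩ := hnum h3
    rw [h4]
    ring
  · intro h3 _
    rw [eC] at h3
    obtain ⟨-, h5, h6⟩ := hnum (by omega)
    exact hcnt h5 h6
  · rw [er]; exact baseS hx hxy

/-- **General collisions of `36 q ^ 2 + 4` fat points, `q` odd.** -/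
theorem fam {q : ℕ} (hodd : Odd q) (m : ℕ) (L : Type u) [Field L] [CharZero L] :
    ∃ F : MvPolynomial (Fin (36 * q ^ 2 + 4 + 1)) L, F ≠ 0 ∧
      ∀ (c : L) (a : Fin (36 * q ^ 2 + 4) → L), MvPolynomial.eval (Fin.cons c a : Fin (36 * q ^ 2 + 4 + 1) → L) F ≠ 0 →
        ∀ d : ℕ, JetDim (36 * q ^ 2 + 4) m c a d := by
  have hq1 : q = 1 ∨ 3 ≤ q := by
    obtain ⟨j, rfl⟩ := hodd
    omega
  rcases hq1 with rfl | hq3
  · exact forty m L
  have hq2 : 3 * q ≤ q ^ 2 := by nlinarith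
  rcases Nat.lt_or_ge (m + 36 * q) (36 * q ^ 2 + 15) with hm | hm
  · refine coll_start (by nlinarith) (Or.inl ?_) L
    obtain ⟨s, τ, h, -, -⟩ := exists_RD (show 1 ≤ q by omega)
    obtain ⟨hε, -, -, hε2, hε0⟩ := h.eps
    have hs := h.hs
    have hs0 := h.hs0
    have hq3' : (3 : ℝ) ≤ q := by exact_mod_cast hq3
    have hε3 : s - 3 * q ≤ 0.0556 := by nlinarith
    have h1 : Real.sqrt ((36 * q ^ 2 + 4 : ℕ) : ℝ) = 2 * s := by
      rw [Real.sqrt_eq_iff_mul_self_eq (by positivity) (by linarith)]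
      push_cast
      linear_combination (-4) * hs
    rw [h1]
    have h2 : (m : ℝ) + 36 * q + 1 ≤ 36 * q ^ 2 + 15 := by exact_mod_cast hm
    push_cast
    linarith
  · exact coll_of_crit (by positivity) (fun d h1 h2 => famE hq3 hodd hm h1 h2)
      (fun d h1 h2 => famS hq3 hodd hm h1 h2) L

end Pool.Agent.Run7.h968
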