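import Pool.Agent.Run7.h968.Lim
import Pool.Agent.TH183.QS.Wrap

/-! Emptiness on the staircases. -/

namespace Pool.Agent.Run7.h968

open Polynomial
open Pool.Agent.TH183.QN (PS cc Wt ev EmpW ou ou_val uo uo_val ld ld_ou_zero)

section inc
variable (K : Type) [Field K]

/-- polynomials as power series, one variable -/
noncomputable def inc1 : K[X] →+* PS K := eval₂RingHom (MvPowerSeries.C (σ := Fin 2)) (MvPowerSeries.X 0)

/-- polynomials as power series -/
noncomputable def inc : K[X][X] →+* PS K := eval₂RingHom (inc1 K) (MvPowerSeries.X 1)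

variable {K}

theorem inc_C (p : K[X]) : inc K (C p) = inc1 K p := by unfold inc; simp

theorem inc_X : inc K X = MvPowerSeries.X 1 := by unfold inc; simp

theorem inc1_X : inc1 K X = MvPowerSeries.X 0 := by unfold inc1; simp

theorem inc1_C (c : K) : inc1 K (C c) = MvPowerSeries.C (σ := Fin 2) c := by unfold inc1; simp

theorem coeff_mon (i j : ℕ) (c : K) (e : Fin 2 →₀ ℕ) :
    MvPowerSeries.coeff e (MvPowerSeries.C (σ := Fin 2) c * MvPowerSeries.X 0 ^ i * MvPowerSeries.X 1 ^ j : PS K) =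
      if e 0 = i ∧ e 1 = j then c else 0 := by
  classical
  have e1 : (MvPowerSeries.C (σ := Fin 2) c * MvPowerSeries.X 0 ^ i * MvPowerSeries.X 1 ^ j : PS K) =
      MvPowerSeries.monomial (Finsupp.single 0 i + Finsupp.single 1 j) c := by
    rw [MvPowerSeries.X_pow_eq, MvPowerSeries.X_pow_eq, ← MvPowerSeries.monomial_zero_eq_C_apply,
      MvPowerSeries.monomial_mul_monomial, MvPowerSeries.monomial_mul_monomial]
    simp
  rw [e1, MvPowerSeries.coeff_monomial]
  congr 1
  rw [eq_iff_iff]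
  constructor
  · rintro rfl
    simp
  · rintro ⟨rfl, rfl⟩
    ext k
    fin_cases k <;> simp

theorem coeff_inc (G : K[X][X]) (e : Fin 2 →₀ ℕ) :
    MvPowerSeries.coeff e (inc K G) = (G.coeff (e 1)).coeff (e 0) := by
  induction G using Polynomial.induction_on' with
  | add p q hp hq => rw [map_add, map_add, hp, hq, coeff_add, coeff_add]
  | monomial j g =>
    induction g using Polynomial.induction_on' with
    | add p q hp hq => rw [map_add, map_add, map_add, hp, hq, coeff_add, coeff_add]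
    | monomial i c =>
      have e1 : inc K (monomial j (monomial i c)) =
          MvPowerSeries.C (σ := Fin 2) c * MvPowerSeries.X 0 ^ i * MvPowerSeries.X 1 ^ j := by
        rw [← C_mul_X_pow_eq_monomial, ← C_mul_X_pow_eq_monomial, map_mul, map_pow, inc_C, inc_X, map_mul,
          map_pow, inc1_X, inc1_C]
      rw [e1, coeff_mon, coeff_monomial]
      by_cases h1 : e 1 = j
      · rw [if_pos h1.symm, coeff_monomial]
        by_cases h0 : e 0 = i
        · rw [if_pos ⟨h0, h1⟩, if_pos h0.symm]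
        · rw [if_neg (fun h => h0 h.1), if_neg (fun h => h0 h.symm)]
      · rw [if_neg (fun h => h1 h.2), if_neg (fun h => h1 h.symm), coeff_zero]

theorem inc_smul (c : K) (G : K[X][X]) : c • inc K G = inc K (C (C c) * G) := by
  rw [map_mul, inc_C, inc1_C, MvPowerSeries.smul_eq_C_mul]

/-- the translation by `(1, 1)` -/
noncomputable def sg : K[X][X] →+* K[X][X] :=
  eval₂RingHom ((C : K[X] →+* K[X][X]).comp (eval₂RingHom (C : K →+* K[X]) (X + 1))) (X + 1)

/-- the inverse -/
noncomputable def sg' : K[X][X] →+* K[X][X] :=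
  eval₂RingHom ((C : K[X] →+* K[X][X]).comp (eval₂RingHom (C : K →+* K[X]) (X - 1))) (X - 1)

theorem sg'_sg (p : K[X][X]) : sg' (sg p) = p := by
  have h : (sg' (K := K)).comp sg = RingHom.id _ := by
    refine Polynomial.ringHom_ext' (Polynomial.ringHom_ext' ?_ ?_) ?_
    · ext c
      simp [sg, sg']
    · simp [sg, sg']
    · simp [sg, sg']
  exact congrArg (fun φ : K[X][X] →+* K[X][X] => φ p) h

theorem sg_mon (i k : ℕ) (c : K) :
    sg (monomial k (monomial i c)) = C (C c * (X + 1) ^ i) * (X + 1) ^ k := by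
  unfold sg
  rw [coe_eval₂RingHom, eval₂_monomial, RingHom.comp_apply, coe_eval₂RingHom, eval₂_monomial]

theorem coeff_sg_mon (i k i' k' : ℕ) (c : K) :
    ((sg (monomial k (monomial i c))).coeff k').coeff i' = c * i.choose i' * k.choose k' := by
  rw [sg_mon, coeff_C_mul, coeff_X_add_one_pow, ← C_eq_natCast, coeff_mul_C, coeff_C_mul,
    coeff_X_add_one_pow]

/-- the polynomial of a Laurent polynomial without negative exponents -/
noncomputable def fp (f : (ℤ × ℤ) →₀ K) : K[X][X] :=
  ∑ q ∈ f.support, monomial q.2.toNat (monomial q.1.toNat (f q))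

theorem fp_coeff {f : (ℤ × ℤ) →₀ K} (hf : ∀ q ∈ f.support, 0 ≤ q.1 ∧ 0 ≤ q.2) (i k : ℕ) :
    ((fp f).coeff k).coeff i = f ((i : ℤ), (k : ℤ)) := by
  classical
  unfold fp
  rw [finsetSum_coeff, finsetSum_coeff]
  have h1 : ∀ q ∈ f.support, ((monomial q.2.toNat (monomial q.1.toNat (f q)) : K[X][X]).coeff k).coeff i =
      if q = ((i : ℤ), (k : ℤ)) then f q else 0 := by
    intro q hq
    obtain ⟨h2, h3⟩ := hf q hq
    rw [coeff_monomial]
    by_cases h4 : q.2.toNat = k
    · rw [if_pos h4, coeff_monomial]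
      by_cases h5 : q.1.toNat = i
      · rw [if_pos h5, if_pos]
        ext
        · simp only; omega
        · simp only; omega
      · rw [if_neg h5, if_neg]
        rintro rfl
        simp at h5
    · rw [if_neg h4, if_neg, coeff_zero]
      rintro rfl
      simp at h4
  rw [Finset.sum_congr rfl h1, Finset.sum_ite_eq']
  split_ifs with h
  · rfl
  · exact (Finsupp.notMem_support_iff.1 h).symm

end inc

/-- the staircase as a set of exponents -/
def ShS (m p x y : ℕ) : Set (ℤ × ℤ) := {q | 0 ≤ q.1 ∧ 0 ≤ q.2 ∧ InSh m p x y q.1.toNat q.2.toNat}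

theorem InSh.mono {m p x y i k i' k' : ℕ} (h : InSh m p x y i k) (hi : i' ≤ i) (hk : k' ≤ k) :
    InSh m p x y i' k' := by
  obtain ⟨h1, h2⟩ := h
  refine ⟨by omega, ?_⟩
  have h3 : (2 * p + 2) * (2 * m - k) ≤ (2 * p + 2) * (2 * m - k') := Nat.mul_le_mul_left _ (by omega)
  have h4 : nn p x y k ≤ nn p x y k' := by
    unfold nn
    split_ifs <;> omega
  omega

/-- **Emptiness on the staircases.** -/
theorem base_emp {m p x y : ℕ} (hx : m ≤ x) (hxy : x + y + p = 2 * m) :
    EmpW (fun _ : Unit => (((4 * (2 * p + 2) : ℕ)) : ℝ)) (fun _ => (((4 * (2 * p + 2) : ℕ)) * m : ℝ))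
      (ShS m p x y) := by
  classical
  obtain ⟨Z, ⟨γ, δ, hγ, hδ, rfl⟩, hb⟩ := exists_sub hx hxy
  obtain ⟨a, ha⟩ : ∃ a, a = 2 * p + 2 := ⟨_, rfl⟩
  let K := FractionRing ℚ[X]
  have hchar : CharZero K := charZero_of_injective_algebraMap (R := ℚ[X]) (IsFractionRing.injective ℚ[X] K)
  let Ψ : K[X] := Psi a (algebraMap ℚ[X] K X) (jl K (γ.map C)) (jl K (δ.map C))
  have hΨ : Ψ.coeff 0 = 0 := by
    rw [coeff_zero_eq_eval_zero]
    simp only [Ψ, Psi, eval_add, eval_mul, eval_pow, eval_X, zero_pow (show a ≠ 0 by omega), mul_zero,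
      ne_eq, OfNat.ofNat_ne_zero, not_false_eq_true, zero_pow, add_zero]
  have hcY : cc (1 + MvPowerSeries.X 1 + inc K (C Ψ) : PS K) ≠ 0 := by
    have h1 : cc (inc K (C Ψ)) = 0 := by
      show MvPowerSeries.constantCoeff (inc K (C Ψ)) = 0
      rw [← MvPowerSeries.coeff_zero_eq_constantCoeff_apply, coeff_inc]
      simpa using hΨ
    unfold cc at h1 ⊢
    rw [map_add, map_add, map_one, MvPowerSeries.constantCoeff_X, h1]
    simp
  refine ⟨K, inferInstance, hchar, fun _ => ou K 0, fun _ => uo _ hcY, fun _ => Or.inl ?_, ?_⟩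
  · rw [ld_ou_zero]; exact one_ne_zero
  intro f hfS hfW
  have hf0 : ∀ q ∈ f.support, 0 ≤ q.1 ∧ 0 ≤ q.2 := fun q hq => ⟨(hfS hq).1, (hfS hq).2.1⟩
  -- the evaluation
  have hev : ev (ou K 0) (uo _ hcY) f = inc K (taylor Ψ (sg (fp f))) := by
    unfold ev fp Finsupp.sum
    rw [map_sum, map_sum, map_sum]
    refine Finset.sum_congr rfl fun q hq => ?_
    obtain ⟨h2, h3⟩ := hf0 q hq
    obtain ⟨i, hi⟩ := Int.eq_ofNat_of_zero_le h2
    obtain ⟨k, hk⟩ := Int.eq_ofNat_of_zero_le h3
    beta_reduce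
    rw [hi, hk, zpow_natCast, zpow_natCast, Units.val_mul, Units.val_pow_eq_pow_val,
      Units.val_pow_eq_pow_val, ou_val, uo_val, Int.toNat_natCast, Int.toNat_natCast, sg_mon,
      taylor_apply, mul_comp, C_comp, pow_comp, add_comp, X_comp, one_comp,
      MvPowerSeries.smul_eq_C_mul]
    simp only [map_mul, map_pow, map_add, map_one, inc_C, inc_X, inc1_C, inc1_X]
    ring
  have hz : sg (fp f) = 0 := by
    have hyx : y ≤ x := by omega
    refine lim_zero (K := K) hyx hγ hδ hb ?_ ?_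
    · intro i k hik
      unfold fp
      rw [map_sum, finsetSum_coeff, finsetSum_coeff]
      refine Finset.sum_eq_zero fun q hq => ?_
      rw [coeff_sg_mon]
      obtain ⟨h1, h2, h3⟩ := hfS hq
      rcases Nat.lt_or_ge q.1.toNat i with h4 | h4
      · rw [Nat.choose_eq_zero_of_lt h4]; simp
      · rcases Nat.lt_or_ge q.2.toNat k with h5 | h5
        · rw [Nat.choose_eq_zero_of_lt h5]; simp
        · exact absurd (h3.mono h4 h5) hik
    · intro i j hij
      obtain ⟨e, he⟩ : ∃ e : Fin 2 →₀ ℕ, e = Finsupp.single 0 i + Finsupp.single 1 j := ⟨_, rfl⟩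
      have e0 : e 0 = i := by rw [he]; simp
      have e1 : e 1 = j := by rw [he]; simp
      have h1 := hfW () e (by
        rw [e0, e1]
        have : ((i + 4 * (2 * p + 2) * j : ℕ) : ℝ) < ((4 * (2 * p + 2) * m : ℕ) : ℝ) := by exact_mod_cast hij
        push_cast at this ⊢
        exact this)
      rw [hev, coeff_inc, e0, e1] at h1
      rw [← ha]
      exact h1
  have hfp : fp f = 0 := by rw [← sg'_sg (fp f), hz, map_zero]
  ext q
  rw [Finsupp.zero_apply]
  by_contra hne
  have hq : q ∈ f.support := Finsupp.mem_support_iff.2 hne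
  obtain ⟨h1, h2⟩ := hf0 q hq
  have h3 := fp_coeff hf0 q.1.toNat q.2.toNat
  rw [hfp, coeff_zero, coeff_zero, Int.toNat_of_nonneg h1, Int.toNat_of_nonneg h2] at h3
  exact hne h3.symm

end Pool.Agent.Run7.h968
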