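import Pool.Agent.Run7.h968.Base

/-! Flattening finite sets, and the comparison with the staircases. -/

namespace Pool.Agent.Run7.h968

open Finset Pool.Agent.TH183.QC

/-- the number of the points on a line -/
def ln (T : Finset (ℤ × ℤ)) (x y c : ℤ) : ℕ := (T.filter fun p => x * p.1 + y * p.2 = c).card

/-- the number of the lines with more than `k` points -/
def rc (T : Finset (ℤ × ℤ)) (x y : ℤ) (k : ℕ) : ℕ :=
  ((T.image fun p => x * p.1 + y * p.2).filter fun c => k < ln T x y c).card

theorem ln_pos {T : Finset (ℤ × ℤ)} {x y c : ℤ} (h : 0 < ln T x y c) : c ∈ T.image fun p => x * p.1 + y * p.2 := by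
  unfold ln at h
  obtain ⟨p, hp⟩ := card_pos.1 h
  rw [mem_filter] at hp
  rw [mem_image]
  exact ⟨p, hp.1, hp.2⟩

/-- a finite set of lines with more than `k` points -/
theorem card_le_rc {T : Finset (ℤ × ℤ)} {x y : ℤ} {k : ℕ} {B : Finset ℤ}
    (hB : ∀ c ∈ B, k < ln T x y c) : B.card ≤ rc T x y k := by
  unfold rc
  apply card_le_card
  intro c hc
  rw [mem_filter]
  exact ⟨ln_pos (lt_of_le_of_lt (Nat.zero_le _) (hB c hc)), hB c hc⟩

theorem exists_rc (T : Finset (ℤ × ℤ)) (x y : ℤ) (k : ℕ) :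
    ∃ B : Finset ℤ, B.card = rc T x y k ∧ ∀ c ∈ B, k < ln T x y c :=
  ⟨_, rfl, fun _ hc => (mem_filter.1 hc).2⟩

theorem exists_ln (T : Finset (ℤ × ℤ)) (x y u v : ℤ) (hdet : x * u + y * v = 1) (a : ℤ) :
    ∃ B : Finset ℤ, B.card = ln T x y a ∧ ∀ b ∈ B, (u * a - y * b, v * a + x * b) ∈ T := by
  refine ⟨(T.filter fun p => x * p.1 + y * p.2 = a).image (fun p => -v * p.1 + u * p.2), ?_, ?_⟩
  · unfold ln
    apply card_image_of_injOn
    intro p hp q hq hpq
    rw [mem_coe, mem_filter] at hp hq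
    simp only at hpq
    have e1 : p.1 = u * (x * p.1 + y * p.2) - y * (-v * p.1 + u * p.2) := by
      linear_combination -p.1 * hdet
    have e2 : p.2 = v * (x * p.1 + y * p.2) + x * (-v * p.1 + u * p.2) := by
      linear_combination -p.2 * hdet
    have e3 : q.1 = u * (x * q.1 + y * q.2) - y * (-v * q.1 + u * q.2) := by
      linear_combination -q.1 * hdet
    have e4 : q.2 = v * (x * q.1 + y * q.2) + x * (-v * q.1 + u * q.2) := by
      linear_combination -q.2 * hdet
    ext
    · rw [e1, e3, hp.2, hq.2, hpq]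
    · rw [e2, e4, hp.2, hq.2, hpq]
  · intro b' hb'
    rw [mem_image] at hb'
    obtain ⟨p, hp, rfl⟩ := hb'
    rw [mem_filter] at hp
    have e1 : u * a - y * (-v * p.1 + u * p.2) = p.1 := by
      rw [← hp.2]; linear_combination p.1 * hdet
    have e2 : v * a + x * (-v * p.1 + u * p.2) = p.2 := by
      rw [← hp.2]; linear_combination p.2 * hdet
    rw [e1, e2]
    exact hp.1

theorem rc_sum (T : Finset (ℤ × ℤ)) (x y : ℤ) {M : ℕ} (hM : ∀ k, M ≤ k → rc T x y k = 0) :
    ∑ k ∈ range M, rc T x y k = T.card := by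
  classical
  unfold rc
  have h1 : ∀ k, ((T.image fun p => x * p.1 + y * p.2).filter fun c => k < ln T x y c).card =
      ∑ c ∈ T.image fun p => x * p.1 + y * p.2, if k < ln T x y c then 1 else 0 := by
    intro k
    rw [card_filter]
  simp only [h1]
  rw [sum_comm]
  have h2 : T.card = ∑ c ∈ T.image fun p => x * p.1 + y * p.2, ln T x y c := by
    unfold ln
    exact card_eq_sum_card_image _ _
  rw [h2]
  refine sum_congr rfl fun c hc => ?_
  have h3 : ln T x y c ≤ M := by
    by_contra hcon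
    have h4 := hM M le_rfl
    have h5 : ({c} : Finset ℤ).card ≤ rc T x y M := card_le_rc (by
      intro c' hc'
      rw [mem_singleton] at hc'
      subst hc'
      omega)
    rw [h4, card_singleton] at h5
    omega
  rw [← card_filter]
  have : (range M).filter (fun k => k < ln T x y c) = range (ln T x y c) := by
    ext k
    simp only [mem_filter, mem_range]
    omega
  rw [this, card_range]

/-- the region with given rows -/
def Rw (R : ℕ → ℕ) : Set (ℤ × ℤ) := {p | 0 ≤ p.1 ∧ 0 ≤ p.2 ∧ p.1 < R p.2.toNat}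

theorem flatE {w : ES} (T : Finset (ℤ × ℤ)) (x y u v : ℤ) (hdet : x * u + y * v = 1)
    (h : EmpA w (Rw (rc T x y))) : EmpA w (↑T : Set (ℤ × ℤ)) := by
  classical
  -- swap
  have h1 : EmpA w {p : ℤ × ℤ | ((p.2, p.1) : ℤ × ℤ) ∈ Rw (rc T x y)} := by
    refine h.comap 0 1 1 0 0 0 (by norm_num) ?_
    intro p hp
    have e : ((0 * p.1 + 1 * p.2 + 0, 1 * p.1 + 0 * p.2 + 0) : ℤ × ℤ) = (p.2, p.1) := by
      ext <;> simp
    rw [e]; exact hp
  have h2 : EmpA w {p : ℤ × ℤ | 0 ≤ p.1 ∧ p.1 < ln T x y p.2} := by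
    refine EmpA_flat0 ?_ h1
    intro a B hB k hk
    rcases B.eq_empty_or_nonempty with rfl | ⟨b, hb⟩
    · simp at hk
    have ha := (hB b hb).1
    simp only at ha
    obtain ⟨a, rfl⟩ := Int.eq_ofNat_of_zero_le ha
    have h3 := card_le_rc (T := T) (x := x) (y := y) (k := a) (B := B) (by
      intro c hc
      have := (hB c hc).2
      simp only at this
      exact_mod_cast this)
    refine ⟨by simp, by simp, ?_⟩
    simp only [Int.toNat_natCast]
    exact_mod_cast lt_of_lt_of_le hk h3
  have h3 : EmpA w {p : ℤ × ℤ | 0 ≤ p.2 ∧ p.2 < ln T x y p.1} := by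
    refine h2.comap 0 1 1 0 0 0 (by norm_num) ?_
    intro p hp
    have e : ((0 * p.1 + 1 * p.2 + 0, 1 * p.1 + 0 * p.2 + 0) : ℤ × ℤ) = (p.2, p.1) := by
      ext <;> simp
    rw [e]; exact hp
  have h4 : EmpA w {p : ℤ × ℤ | (u * p.1 - y * p.2, v * p.1 + x * p.2) ∈ T} := by
    refine EmpA_flat0 ?_ h3
    intro a B hB k hk
    have h5 : B.card ≤ ln T x y a := by
      unfold ln
      have h6 : B.card = (B.image fun b => ((u * a - y * b, v * a + x * b) : ℤ × ℤ)).card := by
        rw [card_image_of_injective]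
        intro b b' hbb
        simp only [Prod.mk.injEq] at hbb
        have e1 : y * (b - b') = 0 := by linear_combination -hbb.1
        have e2 : x * (b - b') = 0 := by linear_combination hbb.2
        have e3 : b - b' = 0 := by linear_combination (-(b - b')) * hdet + u * e2 + v * e1
        omega
      rw [h6]
      apply card_le_card
      intro q hq
      rw [mem_image] at hq
      obtain ⟨b, hb, rfl⟩ := hq
      rw [mem_filter]
      refine ⟨hB b hb, ?_⟩
      simp only
      linear_combination a * hdet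
    refine ⟨by simp, ?_⟩
    simp only
    exact_mod_cast lt_of_lt_of_le hk h5
  refine h4.comap x y (-v) u 0 0 (by rw [show x * u - y * -v = x * u + y * v by ring, hdet]; exact one_ne_zero) ?_
  intro p hp
  show (u * (x * p.1 + y * p.2 + 0) - y * (-v * p.1 + u * p.2 + 0),
    v * (x * p.1 + y * p.2 + 0) + x * (-v * p.1 + u * p.2 + 0)) ∈ T
  have e1 : u * (x * p.1 + y * p.2 + 0) - y * (-v * p.1 + u * p.2 + 0) = p.1 := by
    linear_combination p.1 * hdet
  have e2 : v * (x * p.1 + y * p.2 + 0) + x * (-v * p.1 + u * p.2 + 0) = p.2 := by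
    linear_combination p.2 * hdet
  rw [e1, e2]
  exact hp

theorem flatS {w : SS} (T : Finset (ℤ × ℤ)) (x y u v : ℤ) (hdet : x * u + y * v = 1)
    (h : SurA w (Rw (rc T x y))) : SurA w (↑T : Set (ℤ × ℤ)) := by
  classical
  have h1 : SurA w {p : ℤ × ℤ | ((p.2, p.1) : ℤ × ℤ) ∈ Rw (rc T x y)} := by
    refine h.comap 0 1 1 0 0 0 (by norm_num) ?_
    rintro ⟨a, b⟩ hp
    refine ⟨(b, a), hp, ?_⟩
    ext <;> simp
  have h2 : SurA w {p : ℤ × ℤ | 0 ≤ p.1 ∧ p.1 < ln T x y p.2} := by
    refine SurA_flat0 ?_ h1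
    rintro ⟨a, b⟩ ⟨hb, ha, hab⟩
    simp only at ha hb hab
    obtain ⟨a, rfl⟩ := Int.eq_ofNat_of_zero_le ha
    rw [Int.toNat_natCast] at hab
    obtain ⟨B, hB1, hB2⟩ := exists_rc T x y a
    refine ⟨hb, B, by rw [hB1]; exact hab, fun c hc => ⟨ha, ?_⟩⟩
    have := hB2 c hc
    simp only
    exact_mod_cast this
  have h3 : SurA w {p : ℤ × ℤ | 0 ≤ p.2 ∧ p.2 < ln T x y p.1} := by
    refine h2.comap 0 1 1 0 0 0 (by norm_num) ?_
    rintro ⟨a, b⟩ hp
    refine ⟨(b, a), hp, ?_⟩
    ext <;> simp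
  have h4 : SurA w {p : ℤ × ℤ | (u * p.1 - y * p.2, v * p.1 + x * p.2) ∈ T} := by
    refine SurA_flat0 ?_ h3
    rintro ⟨a, b⟩ ⟨hb, hab⟩
    simp only at hb hab
    obtain ⟨B, hB1, hB2⟩ := exists_ln T x y u v hdet a
    exact ⟨hb, B, by rw [hB1]; exact hab, fun c hc => hB2 c hc⟩
  refine h4.comap x y (-v) u 0 0 (by rw [show x * u - y * -v = x * u + y * v by ring, hdet]; exact one_ne_zero) ?_
  intro p hp
  refine ⟨(u * p.1 - y * p.2, v * p.1 + x * p.2), hp, ?_⟩
  ext
  · simp only; linear_combination p.1 * hdet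
  · simp only; linear_combination p.2 * hdet

/-- comparison with a staircase, emptiness -/
theorem compE {w : ES} {m p x y : ℕ} (R : ℕ → ℕ) (h0 : ∀ k, 2 * m < k → R k = 0)
    (h1 : ∀ k ≤ 2 * m, R k ≤ (2 * p + 2) * (2 * m - k) + p + 2)
    (h2 : ((range (2 * m + 1)).filter fun k => (2 * p + 2) * (2 * m - k) + p + 1 ≤ R k).card ≤ x)
    (h3 : ((range (2 * m + 1)).filter fun k => (2 * p + 2) * (2 * m - k) + p + 2 ≤ R k).card ≤ y)
    (h : EmpA w (ShS m p x y)) : EmpA w (Rw R) := by
  classical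
  obtain ⟨a, ha⟩ : ∃ a, a = 2 * p + 2 := ⟨_, rfl⟩
  have h4 : EmpA w {q : ℤ × ℤ | (q.1 - a * q.2, q.2) ∈ ShS m p x y} := by
    refine h.comap 1 (-a) 0 1 0 0 (by norm_num) ?_
    intro q hq
    have e : ((1 * q.1 + -a * q.2 + 0, 0 * q.1 + 1 * q.2 + 0) : ℤ × ℤ) = (q.1 - a * q.2, q.2) := by
      ext <;> simp
      ring
    rw [e]; exact hq
  have h5 : EmpA w {q : ℤ × ℤ | (q.1 - a * q.2, q.2) ∈ Rw R} := by
    refine EmpA_flat0 ?_ h4
    intro c B hB κ hκ
    -- the elements of `B`
    have hb : ∀ b ∈ B, 0 ≤ c - a * b ∧ 0 ≤ b ∧ b ≤ 2 * m ∧ c - a * b < R b.toNat := by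
      intro b hb
      obtain ⟨g1, g2, g3⟩ := hB b hb
      simp only at g1 g2 g3
      refine ⟨g1, g2, ?_, g3⟩
      by_contra hcon
      rw [h0 b.toNat (by omega)] at g3
      simp at g3
      omega
    -- an element at least `κ`
    obtain ⟨b, hbB, hbκ⟩ : ∃ b ∈ B, (κ : ℤ) ≤ b := by
      by_contra hcon
      push Not at hcon
      have h6 : B ⊆ Finset.Ico 0 (κ : ℤ) := by
        intro b hb'
        rw [Finset.mem_Ico]
        exact ⟨(hb b hb').2.1, hcon b hb'⟩
      have h7 := card_le_card h6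
      rw [Int.card_Ico] at h7
      omega
    obtain ⟨g1, g2, g3, -⟩ := hb b hbB
    have hak : (a : ℤ) * κ ≤ a * b := mul_le_mul_of_nonneg_left hbκ (by positivity)
    have hκm : κ ≤ 2 * m := by omega
    refine ⟨by simp only; omega, by simp, ?_, ?_⟩
    · simp only [Int.toNat_natCast]; exact hκm
    · simp only [Int.toNat_natCast]
      -- the comparison of the surplus
      have hkey : c < 2 * a * m + nn p x y κ := by
        by_contra hcon
        push Not at hcon
        have hBr : ∀ n : ℕ, 2 * a * m + n ≤ c → ∀ b ∈ B, a * (2 * m - b.toNat) + n + 1 ≤ R b.toNat := by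
          intro n hn b hb'
          obtain ⟨f1, f2, f3, f4⟩ := hb b hb'
          obtain ⟨b, rfl⟩ := Int.eq_ofNat_of_zero_le f2
          rw [Int.toNat_natCast] at f4 ⊢
          have e1 : ((a * (2 * m - b) : ℕ) : ℤ) = 2 * a * m - a * b := by
            rw [Nat.cast_mul, Nat.cast_sub (by omega)]; push_cast; ring
          have e2 : ((a * (2 * m - b) : ℕ) : ℤ) + n + 1 ≤ R b := by rw [e1]; omega
          exact_mod_cast e2
        have hcard : ∀ n : ℕ, 2 * a * m + n ≤ c →
            κ < ((range (2 * m + 1)).filter fun k => a * (2 * m - k) + n + 1 ≤ R k).card := by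
          intro n hn
          refine lt_of_lt_of_le hκ ?_
          have h6 : B.card = (B.image Int.toNat).card := by
            rw [card_image_of_injOn]
            intro b hb1 b' hb2 hbb
            have := (hb b hb1).2.1
            have := (hb b' hb2).2.1
            omega
          rw [h6]
          apply card_le_card
          intro k hk
          rw [mem_image] at hk
          obtain ⟨b', hb', rfl⟩ := hk
          rw [mem_filter, mem_range]
          obtain ⟨f1, f2, f3, f4⟩ := hb b' hb'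
          exact ⟨by omega, hBr n hn b' hb'⟩
        unfold nn at hcon
        have hc0 := hcard p (by split_ifs at hcon <;> push_cast at hcon ⊢ <;> omega)
        rw [← ha] at h1 h2 h3
        have hκx : κ < x := lt_of_lt_of_le hc0 h2
        rw [if_pos hκx] at hcon
        have hc1 := hcard (p + 1) (by split_ifs at hcon <;> push_cast at hcon ⊢ <;> omega)
        have hκy : κ < y := lt_of_lt_of_le hc1 h3
        rw [if_pos hκy] at hcon
        have h7 := hBr (p + 2) (by push_cast at hcon ⊢; omega) b hbB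
        have h8 := h1 b.toNat (by omega)
        omega
      rw [← ha]
      have e1 : ((a * (2 * m - κ) : ℕ) : ℤ) = 2 * a * m - a * κ := by
        rw [Nat.cast_mul, Nat.cast_sub (by omega)]; push_cast; ring
      have h9 : c - a * κ < ((a * (2 * m - κ) + nn p x y κ : ℕ) : ℤ) := by
        push_cast
        push_cast at e1
        rw [e1]; omega
      omega
  refine h5.comap 1 a 0 1 0 0 (by norm_num) ?_
  intro q hq
  show (1 * q.1 + a * q.2 + 0 - a * (0 * q.1 + 1 * q.2 + 0), 0 * q.1 + 1 * q.2 + 0) ∈ Rw R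
  have e1 : 1 * q.1 + a * q.2 + 0 - a * (0 * q.1 + 1 * q.2 + 0) = q.1 := by ring
  have e2 : 0 * q.1 + 1 * q.2 + 0 = q.2 := by ring
  rw [e1, e2]
  exact hq

/-- comparison with a staircase, independence -/
theorem compS {w : SS} {m p x y : ℕ} (hyx : y ≤ x) (R : ℕ → ℕ)
    (h1 : ∀ k ≤ 2 * m, (2 * p + 2) * (2 * m - k) + p ≤ R k)
    (h2 : x ≤ ((range (2 * m + 1)).filter fun k => (2 * p + 2) * (2 * m - k) + p + 1 ≤ R k).card)
    (h3 : y ≤ ((range (2 * m + 1)).filter fun k => (2 * p + 2) * (2 * m - k) + p + 2 ≤ R k).card)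
    (h : SurA w (ShS m p x y)) : SurA w (Rw R) := by
  classical
  obtain ⟨a, ha⟩ : ∃ a, a = 2 * p + 2 := ⟨_, rfl⟩
  have h4 : SurA w {q : ℤ × ℤ | (q.1 - a * q.2, q.2) ∈ ShS m p x y} := by
    refine h.comap 1 (-a) 0 1 0 0 (by norm_num) ?_
    rintro ⟨b, c⟩ hq
    refine ⟨(b + a * c, c), ?_, ?_⟩
    · show (b + a * c - a * c, c) ∈ ShS m p x y
      rwa [add_sub_cancel_right]
    · ext
      · simp only; ring
      · simp only; ring
  have h5 : SurA w {q : ℤ × ℤ | (q.1 - a * q.2, q.2) ∈ Rw R} := by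
    refine SurA_flat0 ?_ h4
    rintro ⟨c, κ⟩ ⟨g1, g2, g3, g4⟩
    simp only at g1 g2 g3 g4 ⊢
    refine ⟨g2, ?_⟩
    obtain ⟨κ, rfl⟩ := Int.eq_ofNat_of_zero_le g2
    rw [Int.toNat_natCast] at g3 g4
    rw [← ha] at h1 h2 h3 g4
    have e1 : ((a * (2 * m - κ) : ℕ) : ℤ) = 2 * a * m - a * κ := by
      rw [Nat.cast_mul, Nat.cast_sub (by omega)]; push_cast; ring
    have hc : c < 2 * a * m + nn p x y κ := by
      have : c - a * κ < ((a * (2 * m - κ) + nn p x y κ : ℕ) : ℤ) := by omega
      push_cast at this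
      push_cast at e1
      rw [e1] at this
      omega
    -- the large values
    have hbig : ∀ n : ℕ, c = 2 * a * m + n →
        κ < ((range (2 * m + 1)).filter fun k => a * (2 * m - k) + n + 1 ≤ R k).card →
        ∃ B : Finset ℤ, (κ : ℤ) < B.card ∧ ∀ b ∈ B, ((c, b) : ℤ × ℤ) ∈ {q : ℤ × ℤ | (q.1 - a * q.2, q.2) ∈ Rw R} := by
      intro n hn hκ
      refine ⟨((range (2 * m + 1)).filter fun k => a * (2 * m - k) + n + 1 ≤ R k).image (fun k : ℕ => (k : ℤ)), ?_, ?_⟩
      · rw [card_image_of_injective _ Nat.cast_injective]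
        exact_mod_cast hκ
      · intro b hb
        rw [mem_image] at hb
        obtain ⟨k, hk, rfl⟩ := hb
        rw [mem_filter, mem_range] at hk
        obtain ⟨f1, f2⟩ := hk
        have e2 : ((a * (2 * m - k) : ℕ) : ℤ) = 2 * a * m - a * k := by
          rw [Nat.cast_mul, Nat.cast_sub (by omega)]; push_cast; ring
        have f3 : ((a * (2 * m - k) : ℕ) : ℤ) + n + 1 ≤ R k := by exact_mod_cast f2
        have f4 : (0 : ℤ) ≤ ((a * (2 * m - k) : ℕ) : ℤ) := Int.natCast_nonneg _
        rw [e2] at f3 f4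
        refine ⟨?_, ?_, ?_⟩
        · simp only; omega
        · simp
        · simp only [Int.toNat_natCast]; omega
    rcases lt_or_ge c (2 * a * m + p) with h6 | h6
    · refine ⟨(range (κ + 1)).image (fun k : ℕ => (k : ℤ)), ?_, ?_⟩
      · rw [card_image_of_injective _ Nat.cast_injective, card_range]
        push_cast; omega
      · intro b hb
        rw [mem_image] at hb
        obtain ⟨k, hk, rfl⟩ := hb
        rw [mem_range] at hk
        have e2 : ((a * (2 * m - k) : ℕ) : ℤ) = 2 * a * m - a * k := by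
          rw [Nat.cast_mul, Nat.cast_sub (by omega)]; push_cast; ring
        have f3 : ((a * (2 * m - k) : ℕ) : ℤ) + p ≤ R k := by exact_mod_cast h1 k (by omega)
        rw [e2] at f3
        have f5 : (a : ℤ) * k ≤ a * κ := mul_le_mul_of_nonneg_left (by omega) (by positivity)
        refine ⟨?_, ?_, ?_⟩
        · simp only; omega
        · simp
        · simp only [Int.toNat_natCast]; omega
    · unfold nn at hc
      rcases h6.eq_or_lt with h7 | h7
      · refine hbig p h7.symm ?_
        have hκx : κ < x := by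
          by_contra hcon
          rw [if_neg hcon] at hc
          split_ifs at hc with h8
          · omega
          · push_cast at hc; omega
        exact lt_of_lt_of_le hκx h2
      · refine hbig (p + 1) ?_ ?_
        · split_ifs at hc <;> push_cast at hc ⊢ <;> omega
        · have hκy : κ < y := by
            by_contra hcon
            rw [if_neg hcon] at hc
            split_ifs at hc <;> push_cast at hc <;> omega
          exact lt_of_lt_of_le hκy h3
  refine h5.comap 1 a 0 1 0 0 (by norm_num) ?_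
  rintro ⟨b, c⟩ hq
  refine ⟨(b - a * c, c), hq, ?_⟩
  ext
  · simp only; ring
  · simp only; ring

end Pool.Agent.Run7.h968
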