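import Pool.Agent.Run7.h968.Comb

/-! The criterion in terms of the rows. -/

namespace Pool.Agent.Run7.h968

open Finset Pool.Agent.TH183.QC

theorem counts (D : ℕ → ℤ) (c : ℤ) (n : ℕ) (h : ∀ k < n, c - 1 ≤ D k ∧ D k ≤ c + 1) :
    ∑ k ∈ range n, D k = c * n + ((range n).filter fun k => D k = c + 1).card -
        ((range n).filter fun k => D k = c - 1).card ∧
      ((range n).filter fun k => D k = c + 1).card + ((range n).filter fun k => D k = c).card +
        ((range n).filter fun k => D k = c - 1).card = n := by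
  induction n with
  | zero => simp
  | succ n ih =>
    obtain ⟨h1, h2⟩ := ih fun k hk => h k (by omega)
    obtain ⟨h3, h4⟩ := h n (by omega)
    have hcard : ∀ e : ℤ, ((range (n + 1)).filter fun k => D k = e).card =
        ((range n).filter fun k => D k = e).card + (if D n = e then 1 else 0) := by
      intro e
      rw [range_add_one, filter_insert]
      split_ifs with h5
      · rw [card_insert_of_notMem (by simp)]
      · rfl
    rw [sum_range_succ, hcard, hcard, hcard, h1]
    have h6 : D n = c - 1 ∨ D n = c ∨ D n = c + 1 := by omega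
    rcases h6 with h6 | h6 | h6
    · rw [if_neg (show ¬ D n = c + 1 by omega), if_neg (show ¬ D n = c by omega), if_pos h6, h6]
      push_cast
      constructor
      · ring
      · omega
    · rw [if_neg (show ¬ D n = c + 1 by omega), if_pos h6, if_neg (show ¬ D n = c - 1 by omega), h6]
      push_cast
      constructor
      · ring
      · omega
    · rw [if_pos h6, if_neg (show ¬ D n = c by omega), if_neg (show ¬ D n = c - 1 by omega), h6]
      push_cast
      constructor
      · ring
      · omega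

theorem sum_tri (a m : ℕ) : ∑ k ∈ range (2 * m + 1), ((a : ℤ) * (2 * m - k)) = a * m * (2 * m + 1) := by
  rw [← mul_sum]
  have h : ∀ n : ℕ, ∀ c : ℤ, 2 * ∑ k ∈ range n, (c - (k : ℤ)) = n * (2 * c - n + 1) := by
    intro n c
    induction n with
    | zero => simp
    | succ n ih => rw [sum_range_succ, mul_add, ih]; push_cast; ring
  have h1 := h (2 * m + 1) (2 * m)
  push_cast at h1
  have h2 : ∑ k ∈ range (2 * m + 1), (2 * (m : ℤ) - (k : ℤ)) = m * (2 * m + 1) := by linarith
  rw [h2]; ring

/-- the numbers of the rows with given surplus -/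
structure RowData (m p : ℕ) (R : ℕ → ℕ) (c : ℤ) (N P Z M : ℕ) : Prop where
  h1 : (N : ℤ) = (2 * p + 2) * m * (2 * m + 1) + c * (2 * m + 1) + P - M
  h2 : P + Z + M = 2 * m + 1
  hP : ((range (2 * m + 1)).filter fun k => (R k : ℤ) - (2 * p + 2) * (2 * m - k) = c + 1).card = P
  hZ : ((range (2 * m + 1)).filter fun k => (R k : ℤ) - (2 * p + 2) * (2 * m - k) = c).card = Z
  hM : ((range (2 * m + 1)).filter fun k => (R k : ℤ) - (2 * p + 2) * (2 * m - k) = c - 1).card = M

theorem rowData {m p : ℕ} (R : ℕ → ℕ) (c : ℤ)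
    (hc : ∀ k ≤ 2 * m, c - 1 ≤ (R k : ℤ) - (2 * p + 2) * (2 * m - k) ∧
      (R k : ℤ) - (2 * p + 2) * (2 * m - k) ≤ c + 1) {N : ℕ} (hN : ∑ k ∈ range (2 * m + 1), R k = N) :
    ∃ P Z M : ℕ, RowData m p R c N P Z M := by
  obtain ⟨h1, h2⟩ := counts (fun k => (R k : ℤ) - (2 * p + 2) * (2 * m - k)) c (2 * m + 1)
    (fun k hk => hc k (by omega))
  refine ⟨_, _, _, ?_, h2, rfl, rfl, rfl⟩
  rw [sum_sub_distrib] at h1
  have h3 := sum_tri (2 * p + 2) m
  push_cast at h3 h1
  rw [h3] at h1
  have h4 : ((∑ k ∈ range (2 * m + 1), R k : ℕ) : ℤ) = N := by rw [hN]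
  push_cast at h4
  rw [h4] at h1
  linarith

theorem geE {m p : ℕ} {R : ℕ → ℕ} {k : ℕ} (hk : k < 2 * m + 1) (n : ℕ) :
    (2 * p + 2) * (2 * m - k) + n ≤ R k ↔ (n : ℤ) ≤ (R k : ℤ) - (2 * p + 2) * (2 * m - k) := by
  have e : (((2 * p + 2) * (2 * m - k) : ℕ) : ℤ) = (2 * p + 2) * (2 * m - k) := by
    rw [Nat.cast_mul, Nat.cast_sub (by omega)]; push_cast; ring
  constructor
  · intro h
    have : (((2 * p + 2) * (2 * m - k) + n : ℕ) : ℤ) ≤ R k := by exact_mod_cast h
    rw [Nat.cast_add, e] at this
    linarith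
  · intro h
    have : (((2 * p + 2) * (2 * m - k) + n : ℕ) : ℤ) ≤ R k := by
      rw [Nat.cast_add, e]; linarith
    exact_mod_cast this

/-- the number of the rows with surplus at least `n` -/
theorem card_ge {m p : ℕ} {R : ℕ → ℕ} {c : ℤ} {N P Z M : ℕ} (hR : RowData m p R c N P Z M)
    (hc : ∀ k ≤ 2 * m, c - 1 ≤ (R k : ℤ) - (2 * p + 2) * (2 * m - k) ∧
      (R k : ℤ) - (2 * p + 2) * (2 * m - k) ≤ c + 1) (n : ℕ) :
    (c + 1 < n → ((range (2 * m + 1)).filter fun k => (2 * p + 2) * (2 * m - k) + n ≤ R k).card = 0) ∧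
    (c + 1 = n → ((range (2 * m + 1)).filter fun k => (2 * p + 2) * (2 * m - k) + n ≤ R k).card = P) ∧
    (c = n → ((range (2 * m + 1)).filter fun k => (2 * p + 2) * (2 * m - k) + n ≤ R k).card = P + Z) ∧
    (n ≤ c - 1 → ((range (2 * m + 1)).filter fun k => (2 * p + 2) * (2 * m - k) + n ≤ R k).card =
      2 * m + 1) := by
  classical
  refine ⟨fun h => ?_, fun h => ?_, fun h => ?_, fun h => ?_⟩
  · rw [card_eq_zero, filter_eq_empty_iff]
    intro k hk
    rw [mem_range] at hk
    rw [geE hk]
    have := (hc k (by omega)).2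
    omega
  · rw [← hR.hP]
    congr 1
    apply filter_congr
    intro k hk
    rw [mem_range] at hk
    rw [geE hk]
    have := hc k (by omega)
    omega
  · rw [← hR.hP, ← hR.hZ, ← card_union_of_disjoint]
    · congr 1
      ext k
      simp only [mem_filter, mem_union, mem_range]
      constructor
      · rintro ⟨hk, h1⟩
        rw [geE hk] at h1
        have := hc k (by omega)
        rcases lt_or_ge ((R k : ℤ) - (2 * p + 2) * (2 * m - k)) (c + 1) with h2 | h2
        · right; exact ⟨hk, by omega⟩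
        · left; exact ⟨hk, by omega⟩
      · rintro (⟨hk, h1⟩ | ⟨hk, h1⟩)
        · exact ⟨hk, (geE hk n).2 (by omega)⟩
        · exact ⟨hk, (geE hk n).2 (by omega)⟩
    · rw [disjoint_filter]
      intro k _ h1 h2
      omega
  · have : (range (2 * m + 1)).filter (fun k => (2 * p + 2) * (2 * m - k) + n ≤ R k) = range (2 * m + 1) := by
      apply filter_true_of_mem
      intro k hk
      rw [mem_range] at hk
      rw [geE hk]
      have := hc k (by omega)
      omega
    rw [this, card_range]

/-- the criterion, emptiness -/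
theorem crit_E {w : ES} {m p : ℕ} (hpm : p ≤ m) (R : ℕ → ℕ) (h0 : ∀ k, 2 * m < k → R k = 0) (c : ℤ)
    (hc : ∀ k ≤ 2 * m, c - 1 ≤ (R k : ℤ) - (2 * p + 2) * (2 * m - k) ∧
      (R k : ℤ) - (2 * p + 2) * (2 * m - k) ≤ c + 1) {N : ℕ} (hN : ∑ k ∈ range (2 * m + 1), R k = N)
    (hNC : N ≤ 2 * (2 * p + 2) * m * (m + 1)) (h4a : 2 * (2 * p + 2) * m * (m + 1) ≤ N + p + 1 → c = p + 1)
    (h4b : 2 * (2 * p + 2) * m * (m + 1) < N + p → c = p + 1 →
      p ≤ ((range (2 * m + 1)).filter fun k => (R k : ℤ) - (2 * p + 2) * (2 * m - k) = c).card)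
    (base : ∀ x y : ℕ, m ≤ x → x + y + p = 2 * m → EmpA w (ShS m p x y)) : EmpA w (Rw R) := by
  obtain ⟨P, Z, M, hR⟩ := rowData R c hc hN
  obtain ⟨h1, h2, hP, hZ, hM⟩ := hR
  have hR : RowData m p R c N P Z M := ⟨h1, h2, hP, hZ, hM⟩
  have hcg := card_ge hR hc
  rw [hZ] at h4b
  obtain ⟨C, hC⟩ : ∃ C, C = 2 * (2 * p + 2) * m * (m + 1) := ⟨_, rfl⟩
  rw [← hC] at h4a h4b hNC
  have hC2 : (C : ℤ) = (2 * p + 2) * m * (2 * m + 1) + (2 * p + 2) * m := by rw [hC]; push_cast; ring
  have hup : ∀ k ≤ 2 * m, c ≤ p + 1 → R k ≤ (2 * p + 2) * (2 * m - k) + p + 2 := by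
    intro k hk hcp
    have h3 := (hc k hk).2
    by_contra hcon
    have h4 : (2 * p + 2) * (2 * m - k) + (p + 3) ≤ R k := by omega
    rw [geE (by omega)] at h4
    push_cast at h4
    omega
  -- the difference of the numbers
  have hdiff : (N : ℤ) - C = (c - p) * (2 * m + 1) + P - M - 2 * m + p := by
    rw [h1, hC2]; ring
  rcases lt_trichotomy c (p + 1) with h3 | h3 | h3
  · rcases lt_or_ge c p with h4 | h4
    · refine compE (x := 2 * m - p) (y := 0) R h0 (fun k hk => hup k hk (by omega)) ?_ ?_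
        (base _ _ (by omega) (by omega))
      · rcases lt_or_ge (c + 1) ((p + 1 : ℕ) : ℤ) with h5 | h5
        · have := (hcg (p + 1)).1 h5
          simp only [← add_assoc] at this
          omega
        · push_cast at h5; omega
      · have := (hcg (p + 2)).1 (by push_cast; omega)
        simp only [← add_assoc] at this
        omega
    · have hcp : c = p := by omega
      have hPx : P ≤ 2 * m - p := by
        by_contra hcon
        have h5 : (1 : ℤ) - p ≤ N - C := by
          rw [hdiff, hcp]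
          have : (P : ℤ) ≥ 2 * m - p + 1 := by omega
          have : (M : ℤ) + P ≤ 2 * m + 1 := by omega
          linarith
        have := h4a (by omega)
        omega
      refine compE (x := 2 * m - p) (y := 0) R h0 (fun k hk => hup k hk (by omega)) ?_ ?_
        (base _ _ (by omega) (by omega))
      · have := (hcg (p + 1)).2.1 (by push_cast; omega)
        simp only [← add_assoc] at this
        omega
      · have := (hcg (p + 2)).1 (by push_cast; omega)
        simp only [← add_assoc] at this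
        omega
  · have h5 : 2 * (P : ℤ) + Z = N - C + 2 * m - p := by
      rw [hdiff, h3]
      have : (P : ℤ) + Z + M = 2 * m + 1 := by exact_mod_cast h2
      linarith
    have h6 : P + p ≤ m := by
      rcases Nat.lt_or_ge C (N + p) with h7 | h7
      · have := h4b h7 h3
        omega
      · omega
    refine compE (x := 2 * m - p - P) (y := P) R h0 (fun k hk => hup k hk (by omega)) ?_ ?_
      (base _ _ (by omega) (by omega))
    · have := (hcg (p + 1)).2.2.1 (by push_cast; omega)
      simp only [← add_assoc] at this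
      omega
    · have := (hcg (p + 2)).2.1 (by push_cast; omega)
      simp only [← add_assoc] at this
      omega
  · exfalso
    have h5 : (N : ℤ) ≤ C := by exact_mod_cast hNC
    have h6 : (2 : ℤ) * (2 * m + 1) ≤ (c - p) * (2 * m + 1) :=
      mul_le_mul_of_nonneg_right (by omega) (by positivity)
    have h7 : (M : ℤ) ≤ 2 * m + 1 := by omega
    have h8 : (0 : ℤ) ≤ P := by positivity
    linarith

/-- the criterion, independence -/
theorem crit_S {w : SS} {m p : ℕ} (hpm : p ≤ m) (hm : 0 < m) (R : ℕ → ℕ) (c : ℤ)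
    (hc : ∀ k ≤ 2 * m, c - 1 ≤ (R k : ℤ) - (2 * p + 2) * (2 * m - k) ∧
      (R k : ℤ) - (2 * p + 2) * (2 * m - k) ≤ c + 1) {N : ℕ} (hN : ∑ k ∈ range (2 * m + 1), R k = N)
    (hNC : 2 * (2 * p + 2) * m * (m + 1) ≤ N) (h4a : N ≤ 2 * (2 * p + 2) * m * (m + 1) + p + 1 → c = p + 1)
    (h4b : N < 2 * (2 * p + 2) * m * (m + 1) + p → c = p + 1 →
      p ≤ ((range (2 * m + 1)).filter fun k => (R k : ℤ) - (2 * p + 2) * (2 * m - k) = c).card)
    (base : ∀ x y : ℕ, m ≤ x → x + y + p = 2 * m → SurA w (ShS m p x y)) : SurA w (Rw R) := by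
  obtain ⟨P, Z, M, hR⟩ := rowData R c hc hN
  obtain ⟨h1, h2, hP, hZ, hM⟩ := hR
  have hR : RowData m p R c N P Z M := ⟨h1, h2, hP, hZ, hM⟩
  have hcg := card_ge hR hc
  rw [hZ] at h4b
  obtain ⟨C, hC⟩ : ∃ C, C = 2 * (2 * p + 2) * m * (m + 1) := ⟨_, rfl⟩
  rw [← hC] at h4a h4b hNC
  have hC2 : (C : ℤ) = (2 * p + 2) * m * (2 * m + 1) + (2 * p + 2) * m := by rw [hC]; push_cast; ring
  have hlow : ∀ k ≤ 2 * m, (p : ℤ) + 1 ≤ c → (2 * p + 2) * (2 * m - k) + p ≤ R k := by
    intro k hk hcp
    rw [geE (by omega)]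
    have h3 := (hc k hk).1
    omega
  have hdiff : (N : ℤ) - C = (c - p) * (2 * m + 1) + P - M - 2 * m + p := by
    rw [h1, hC2]; ring
  have hNC' : (C : ℤ) ≤ N := by exact_mod_cast hNC
  have h2' : (P : ℤ) + Z + M = 2 * m + 1 := by exact_mod_cast h2
  rcases lt_trichotomy c (p + 1) with h3 | h3 | h3
  · exfalso
    rcases lt_or_ge c p with h4 | h4
    · have h6 : (c - p) * (2 * m + 1) ≤ (-1 : ℤ) * (2 * m + 1) :=
        mul_le_mul_of_nonneg_right (by omega) (by positivity)
      have h7 : (P : ℤ) ≤ 2 * m + 1 := by omega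
      have h8 : (0 : ℤ) ≤ M := by positivity
      have h9 : (p : ℤ) ≤ m := by exact_mod_cast hpm
      have h10 : (0 : ℤ) < m := by exact_mod_cast hm
      linarith
    · have hcp : c = p := by omega
      have h5 : (N : ℤ) ≤ C + p + 1 := by
        rw [hcp] at hdiff
        have h7 : (P : ℤ) ≤ 2 * m + 1 := by omega
        have h8 : (0 : ℤ) ≤ M := by positivity
        linarith
      have := h4a (by exact_mod_cast h5)
      omega
  · have h5 : 2 * (P : ℤ) + Z = N - C + 2 * m - p := by
      rw [hdiff, h3]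
      linarith
    rcases Nat.lt_or_ge P (m - p) with h6 | h6
    · refine compS (x := 2 * m - p - P) (y := P) (by omega) R (fun k hk => hlow k hk (by omega)) ?_ ?_
        (base _ _ (by omega) (by omega))
      · have := (hcg (p + 1)).2.2.1 (by push_cast; omega)
        simp only [← add_assoc] at this
        omega
      · have := (hcg (p + 2)).2.1 (by push_cast; omega)
        simp only [← add_assoc] at this
        omega
    · have h7 : m ≤ P + Z := by
        rcases Nat.lt_or_ge N (C + p) with h8 | h8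
        · have := h4b h8 h3
          omega
        · omega
      refine compS (x := m) (y := m - p) (by omega) R (fun k hk => hlow k hk (by omega)) ?_ ?_
        (base _ _ (by omega) (by omega))
      · have := (hcg (p + 1)).2.2.1 (by push_cast; omega)
        simp only [← add_assoc] at this
        omega
      · have := (hcg (p + 2)).2.1 (by push_cast; omega)
        simp only [← add_assoc] at this
        omega
  · refine compS (x := 2 * m - p) (y := 0) (by omega) R (fun k hk => hlow k hk (by omega)) ?_ ?_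
      (base _ _ (by omega) (by omega))
    · have := (hcg (p + 1)).2.2.2 (by push_cast; omega)
      simp only [← add_assoc] at this
      omega
    · exact Nat.zero_le _

end Pool.Agent.Run7.h968
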