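import Mathlib

/-! Two lemmas on pencils of linear maps, and the palindromic polynomials. -/

namespace Pool.Agent.Run7.h968

open Polynomial

section pencil
variable {V Q : Type*} [AddCommGroup V] [Module ℚ V] [AddCommGroup Q] [Module ℚ Q]

theorem exists_inj_end [FiniteDimensional ℚ Q] (T : Module.End ℚ Q) :
    ∃ g : ℚ, Function.Injective (T + g • (LinearMap.id : Q →ₗ[ℚ] Q)) := by
  have hfin : {μ : ℚ | T.HasEigenvalue μ}.Finite := Module.End.finite_hasEigenvalue T
  obtain ⟨μ, hμ⟩ := hfin.exists_notMem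
  refine ⟨-μ, ?_⟩
  rw [← LinearMap.ker_eq_bot]
  rw [LinearMap.ker_eq_bot']
  intro v hv
  by_contra hne
  apply hμ
  refine Module.End.hasEigenvalue_of_hasEigenvector (x := v) ⟨?_, hne⟩
  rw [Module.End.mem_eigenspace_iff]
  have h1 : T v + (-μ) • v = 0 := by simpa using hv
  rw [neg_smul, ← sub_eq_add_neg] at h1
  exact sub_eq_zero.1 h1

theorem pencil_surj [FiniteDimensional ℚ Q] (A B : V →ₗ[ℚ] Q) (hB : Function.Surjective B) :
    ∃ g : ℚ, Function.Surjective (A + g • B) := by
  obtain ⟨R, hR⟩ := LinearMap.exists_rightInverse_of_surjective B (LinearMap.range_eq_top.2 hB)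
  obtain ⟨g, hg⟩ := exists_inj_end (A ∘ₗ R)
  refine ⟨g, fun q => ?_⟩
  have hs := LinearMap.surjective_of_injective hg
  obtain ⟨w, hw⟩ := hs q
  refine ⟨R w, ?_⟩
  rw [← hw]
  have h1 : B (R w) = w := by
    have := LinearMap.congr_fun hR w
    simpa using this
  simp [h1]

theorem pencil_inj [FiniteDimensional ℚ V] (A B : V →ₗ[ℚ] Q) (hB : Function.Injective B) :
    ∃ g : ℚ, Function.Injective (A + g • B) := by
  obtain ⟨L, hL⟩ := LinearMap.exists_leftInverse_of_injective B (LinearMap.ker_eq_bot.2 hB)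
  obtain ⟨g, hg⟩ := exists_inj_end (L ∘ₗ A)
  refine ⟨g, fun v w h => hg ?_⟩
  have h2 := congrArg L h
  have h1 : ∀ w, L (B w) = w := by
    intro w
    have := LinearMap.congr_fun hL w
    simpa using this
  simpa [h1] using h2

/-- surjectivity for a pencil, modulo the image of a subspace -/
theorem pencil_surj' {M N E : Type*} [AddCommGroup M] [Module ℚ M] [AddCommGroup N] [Module ℚ N]
    [AddCommGroup E] [Module ℚ E] [FiniteDimensional ℚ E] (D : Submodule ℚ M) (P : Submodule ℚ N)
    (Φ : M →ₗ[ℚ] E) (a b : N →ₗ[ℚ] E) (hB : ∀ e : E, ∃ v ∈ P, ∃ u ∈ D, b v + Φ u = e) :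
    ∃ g : ℚ, ∀ e : E, ∃ v ∈ P, ∃ u ∈ D, a v + g • b v + Φ u = e := by
  obtain ⟨R, hR⟩ : ∃ R, R = D.map Φ := ⟨_, rfl⟩
  have hs : Function.Surjective (R.mkQ ∘ₗ b.domRestrict P) := by
    intro q
    obtain ⟨e, rfl⟩ := Submodule.mkQ_surjective R q
    obtain ⟨v, hv, u, hu, h⟩ := hB e
    refine ⟨⟨v, hv⟩, ?_⟩
    rw [LinearMap.comp_apply, ← sub_eq_zero, ← map_sub, Submodule.mkQ_apply,
      Submodule.Quotient.mk_eq_zero, hR]
    refine ⟨-u, D.neg_mem hu, ?_⟩
    rw [map_neg, ← h, LinearMap.domRestrict_apply]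
    abel
  obtain ⟨g, hg⟩ := pencil_surj (R.mkQ ∘ₗ a.domRestrict P) (R.mkQ ∘ₗ b.domRestrict P) hs
  refine ⟨g, fun e => ?_⟩
  obtain ⟨⟨v, hv⟩, h⟩ := hg (R.mkQ e)
  have h1 : e - (a v + g • b v) ∈ R := by
    rw [← Submodule.Quotient.mk_eq_zero, ← Submodule.mkQ_apply, map_sub, sub_eq_zero, ← h]
    simp
  rw [hR] at h1
  obtain ⟨u, hu, h2⟩ := h1
  exact ⟨v, hv, u, hu, by rw [h2]; abel⟩

/-- a subspace with a finite family of coordinates -/
theorem fd_of_coord {M : Type*} [AddCommGroup M] [Module ℚ M] {ι : Type} [Fintype ι]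
    (K : Submodule ℚ M) (F : M →ₗ[ℚ] (ι → ℚ)) (hF : ∀ v ∈ K, F v = 0 → v = 0) :
    FiniteDimensional ℚ K ∧ Module.finrank ℚ K ≤ Fintype.card ι := by
  have hi : Function.Injective (F.domRestrict K) := by
    rw [← LinearMap.ker_eq_bot, LinearMap.ker_eq_bot']
    rintro ⟨v, hv⟩ h
    ext1
    exact hF v hv h
  refine ⟨FiniteDimensional.of_injective _ hi, ?_⟩
  have := LinearMap.finrank_le_finrank_of_injective hi
  rwa [Module.finrank_fintype_fun_eq_card] at this

theorem card_le_of_coord {M : Type*} [AddCommGroup M] [Module ℚ M] {ι κ : Type} [Fintype ι] [Fintype κ]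
    (K : Submodule ℚ M) (F : M →ₗ[ℚ] (ι → ℚ)) (hF : ∀ v ∈ K, F v = 0 → v = 0)
    (Φ : M →ₗ[ℚ] (κ → ℚ)) (hΦ : ∀ e, ∃ v ∈ K, Φ v = e) : Fintype.card κ ≤ Fintype.card ι := by
  obtain ⟨h1, h2⟩ := fd_of_coord K F hF
  have hs : Function.Surjective (Φ.domRestrict K) := by
    intro e
    obtain ⟨v, hv, h⟩ := hΦ e
    exact ⟨⟨v, hv⟩, h⟩
  have := LinearMap.finrank_le_finrank_of_surjective hs
  rw [Module.finrank_fintype_fun_eq_card] at this
  exact this.trans h2

/-- injectivity for a pencil on a subspace -/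
theorem pencil_inj' {M E : Type*} [AddCommGroup M] [Module ℚ M] [AddCommGroup E] [Module ℚ E]
    {ι : Type} [Fintype ι] (K : Submodule ℚ M) (F : M →ₗ[ℚ] (ι → ℚ)) (hF : ∀ v ∈ K, F v = 0 → v = 0)
    (a b : M →ₗ[ℚ] E) (hB : ∀ v ∈ K, b v = 0 → v = 0) :
    ∃ g : ℚ, ∀ v ∈ K, a v + g • b v = 0 → v = 0 := by
  have h1 := (fd_of_coord K F hF).1
  have hi : Function.Injective (b.domRestrict K) := by
    rw [← LinearMap.ker_eq_bot, LinearMap.ker_eq_bot']
    rintro ⟨v, hv⟩ h
    ext1
    exact hB v hv h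
  obtain ⟨g, hg⟩ := pencil_inj (a.domRestrict K) (b.domRestrict K) hi
  refine ⟨g, fun v hv h => ?_⟩
  have h2 : (a.domRestrict K + g • b.domRestrict K) ⟨v, hv⟩ = 0 := h
  exact congrArg Subtype.val (hg (h2.trans (map_zero _).symm))

end pencil

/-- palindromic polynomials of degree at most `2 m` -/
def Pal (m : ℕ) : Submodule ℚ ℚ[X] where
  carrier := {v | (∀ k, 2 * m < k → v.coeff k = 0) ∧ ∀ k < m, v.coeff k = v.coeff (2 * m - k)}
  zero_mem' := by simp
  add_mem' := by
    rintro a b ⟨h1, h2⟩ ⟨h3, h4⟩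
    refine ⟨fun k hk => ?_, fun k hk => ?_⟩
    · rw [coeff_add, h1 k hk, h3 k hk, add_zero]
    · rw [coeff_add, coeff_add, h2 k hk, h4 k hk]
  smul_mem' := by
    rintro c a ⟨h1, h2⟩
    refine ⟨fun k hk => ?_, fun k hk => ?_⟩
    · rw [coeff_smul, h1 k hk, smul_zero]
    · rw [coeff_smul, coeff_smul, h2 k hk]

theorem mem_Pal {m : ℕ} {v : ℚ[X]} : v ∈ Pal m ↔ (∀ k, 2 * m < k → v.coeff k = 0) ∧
    ∀ k < m, v.coeff k = v.coeff (2 * m - k) := Iff.rfl

theorem Pal.symm {m : ℕ} {v : ℚ[X]} (hv : v ∈ Pal m) {k : ℕ} (hk : k ≤ 2 * m) :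
    v.coeff k = v.coeff (2 * m - k) := by
  obtain ⟨-, h⟩ := hv
  rcases lt_trichotomy k m with h1 | h1 | h1
  · exact h k h1
  · subst h1; congr 1; omega
  · have := h (2 * m - k) (by omega)
    rw [this]; congr 1; omega

/-- the polynomial `z ^ 2 + 2 β z + 1`, to the power `m` -/
noncomputable def wb (m : ℕ) (β : ℚ) : ℚ[X] := (X ^ 2 + C (2 * β) * X + 1) ^ m

/-- the products `z ^ j (z ^ 2 + 1) ^ (m - j)` -/
noncomputable def uj (m j : ℕ) : ℚ[X] := X ^ j * (X ^ 2 + 1) ^ (m - j)

theorem wb_eq (m : ℕ) (β : ℚ) : wb m β = ∑ j ∈ Finset.range (m + 1), ((2 * β) ^ j * (m.choose j : ℚ)) • uj m j := by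
  unfold wb uj
  have e : (X ^ 2 + C (2 * β) * X + 1 : ℚ[X]) = C (2 * β) * X + (X ^ 2 + 1) := by ring
  rw [e, add_pow]
  refine Finset.sum_congr rfl fun j _ => ?_
  rw [smul_eq_C_mul]
  simp only [map_mul, map_pow, map_natCast]
  ring

/-- a reflection: `z ^ n p (1 / z)` for a polynomial of degree at most `n` -/
theorem pal_mul {a b : ℕ} {p q : ℚ[X]} (hp : p.natDegree ≤ a) (hq : q.natDegree ≤ b)
    (hp' : p.reflect a = p) (hq' : q.reflect b = q) : (p * q).reflect (a + b) = p * q := by
  rw [reflect_mul p q hp hq, hp', hq']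

theorem mem_Pal_of_reflect {m : ℕ} {v : ℚ[X]} (hd : v.natDegree ≤ 2 * m) (h : v.reflect (2 * m) = v) :
    v ∈ Pal m := by
  refine ⟨fun k hk => coeff_eq_zero_of_natDegree_lt (by omega), fun k hk => ?_⟩
  conv_lhs => rw [← h]
  rw [coeff_reflect]
  congr 1
  rw [revAt_le (by omega)]

theorem natDegree_quad (β : ℚ) : (X ^ 2 + C (2 * β) * X + 1 : ℚ[X]).natDegree ≤ 2 := by
  compute_degree

theorem reflect_quad (β : ℚ) : (X ^ 2 + C (2 * β) * X + 1 : ℚ[X]).reflect 2 = X ^ 2 + C (2 * β) * X + 1 := by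
  ext k
  rw [coeff_reflect]
  by_cases hk : k ≤ 2
  · rw [revAt_le hk]
    interval_cases k <;> simp [coeff_one, coeff_X, coeff_X_pow]
  · rw [revAt_eq_self_of_lt (by omega)]

theorem pal_pow {p : ℚ[X]} (hp : p.natDegree ≤ 2) (hp' : p.reflect 2 = p) (m : ℕ) :
    (p ^ m).natDegree ≤ 2 * m ∧ (p ^ m).reflect (2 * m) = p ^ m := by
  induction m with
  | zero =>
    refine ⟨by simp, ?_⟩
    ext k
    rw [coeff_reflect]
    rcases Nat.eq_zero_or_pos k with rfl | hk
    · rw [revAt_le (by omega)]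
    · rw [revAt_eq_self_of_lt (by omega)]
  | succ m ih =>
    refine ⟨?_, ?_⟩
    · have := natDegree_pow_le (p := p) (n := m + 1)
      calc _ ≤ (m + 1) * p.natDegree := this
        _ ≤ (m + 1) * 2 := Nat.mul_le_mul_left _ hp
        _ = 2 * (m + 1) := by ring
    · rw [pow_succ, show 2 * (m + 1) = 2 * m + 2 by ring]
      exact pal_mul ih.1 hp ih.2 hp'

theorem wb_mem (m : ℕ) (β : ℚ) : wb m β ∈ Pal m := by
  obtain ⟨h1, h2⟩ := pal_pow (natDegree_quad β) (reflect_quad β) m
  exact mem_Pal_of_reflect h1 h2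

theorem uj_mem {m j : ℕ} (hj : j ≤ m) : uj m j ∈ Pal m := by
  have h0 := pal_pow (natDegree_quad 0) (reflect_quad 0) (m - j)
  simp only [mul_zero, map_zero, zero_mul, add_zero] at h0
  obtain ⟨h1, h2⟩ := h0
  have hX : (X : ℚ[X]).reflect 2 = X := by
    ext k
    rw [coeff_reflect]
    by_cases hk : k ≤ 2
    · rw [revAt_le hk]
      interval_cases k <;> simp [coeff_X]
    · rw [revAt_eq_self_of_lt (by omega)]
  obtain ⟨h3, h4⟩ := pal_pow (p := X) (by simp) hX j
  refine mem_Pal_of_reflect ?_ ?_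
  · unfold uj
    refine natDegree_mul_le.trans ?_
    omega
  · unfold uj
    have := pal_mul h3 h1 h4 h2
    rwa [show 2 * j + 2 * (m - j) = 2 * m by omega] at this

/-- the products span the palindromic polynomials -/
theorem pal_span {m : ℕ} {Z : Submodule ℚ ℚ[X]} (h : ∀ j ≤ m, uj m j ∈ Z) : Pal m ≤ Z := by
  have key : ∀ n j : ℕ, j + n = m + 1 → ∀ v ∈ Pal m, (∀ k < j, v.coeff k = 0) → v ∈ Z := by
    intro n
    induction n with
    | zero =>
      intro j hj v hv h0
      have : v = 0 := by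
        ext k
        rw [coeff_zero]
        rcases Nat.lt_or_ge (2 * m) k with hk | hk
        · exact hv.1 k hk
        · rcases Nat.lt_or_ge k j with h1 | h1
          · exact h0 k h1
          · rw [Pal.symm hv hk]
            exact h0 _ (by omega)
      rw [this]; exact Z.zero_mem
    | succ n ih =>
      intro j hj v hv h0
      have hjm : j ≤ m := by omega
      have h1 := ih (j + 1) (by omega) (v - v.coeff j • uj m j)
        ((Pal m).sub_mem hv ((Pal m).smul_mem _ (uj_mem hjm))) (by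
          intro k hk
          rw [coeff_sub, coeff_smul, smul_eq_mul]
          unfold uj
          rcases Nat.lt_or_ge k j with h2 | h2
          · rw [coeff_X_pow_mul', if_neg (by omega), h0 k h2]; ring
          · have : k = j := by omega
            subst this
            rw [coeff_X_pow_mul', if_pos le_rfl, Nat.sub_self, coeff_zero_eq_eval_zero]
            simp)
      have h2 := Z.add_mem h1 (Z.smul_mem (v.coeff j) (h j hjm))
      simpa using h2
  intro v hv
  exact key (m + 1) 0 (by omega) v hv (fun k hk => absurd hk (by omega))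

/-- a subspace with all values of a polynomial curve contains the coefficients -/
theorem curve_mem {V : Type*} [AddCommGroup V] [Module ℚ V] {Z : Submodule ℚ V} {n : ℕ} {u : ℕ → V}
    (h : ∀ β : ℚ, ∑ j ∈ Finset.range n, β ^ j • u j ∈ Z) : ∀ j < n, u j ∈ Z := by
  intro j hj
  rw [← Submodule.Quotient.mk_eq_zero]
  rw [← Module.forall_dual_apply_eq_zero_iff ℚ]
  intro φ
  let P : ℚ[X] := ∑ j ∈ Finset.range n, C (φ (Submodule.Quotient.mk (u j))) * X ^ j
  have hP : P = 0 := by
    apply Polynomial.funext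
    intro β
    rw [eval_zero]
    have h1 := (Submodule.Quotient.mk_eq_zero Z).2 (h β)
    have h2 : φ (Z.mkQ (∑ j ∈ Finset.range n, β ^ j • u j)) = 0 := by
      rw [Submodule.mkQ_apply, h1, map_zero]
    simp only [P, eval_finsetSum, eval_mul, eval_C, eval_pow, eval_X]
    rw [← h2, map_sum, map_sum]
    refine Finset.sum_congr rfl fun j _ => ?_
    rw [map_smul, map_smul, smul_eq_mul, Submodule.mkQ_apply, mul_comm]
  have h3 : P.coeff j = φ (Submodule.Quotient.mk (u j)) := by
    simp only [P, finsetSum_coeff, coeff_C_mul_X_pow]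
    rw [Finset.sum_ite_eq, if_pos (Finset.mem_range.2 hj)]
  rw [← h3, hP, coeff_zero]

/-- a subspace with all `wb` contains the palindromic polynomials -/
theorem pal_le {m : ℕ} {Z : Submodule ℚ ℚ[X]} (h : ∀ β, wb m β ∈ Z) : Pal m ≤ Z := by
  apply pal_span
  intro j hj
  have h1 := curve_mem (Z := Z) (n := m + 1) (u := fun j => (m.choose j : ℚ) • uj m j) (by
    intro β
    have := h (β / 2)
    rw [wb_eq] at this
    convert this using 2 with j _
    rw [smul_smul]
    congr 2
    ring) j (by omega)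
  have h2 := Z.smul_mem ((m.choose j : ℚ)⁻¹) h1
  rwa [smul_smul, inv_mul_cancel₀, one_smul] at h2
  exact_mod_cast (Nat.choose_pos hj).ne'

/-- the kernel of `v ↦ (β z + 1) v'` modulo palindromic polynomials -/
theorem ker_beta {m : ℕ} {β : ℚ} {v : ℚ[X]} (hv : v ∈ Pal m)
    (h : ∀ k < m, ((C β * X + 1) * derivative v).coeff k = ((C β * X + 1) * derivative v).coeff (2 * m - k)) :
    v = v.coeff 0 • wb m β := by
  -- the recursion
  have hc : ∀ (w : ℚ[X]) (k : ℕ), ((C β * X + 1) * derivative w).coeff k =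
      β * k * w.coeff k + (k + 1) * w.coeff (k + 1) := by
    intro w k
    have e : (C β * X + 1) * derivative w = C β * (X * derivative w) + derivative w := by ring
    rw [e, coeff_add, coeff_C_mul, coeff_derivative]
    rcases k with _ | k
    · simp
    · rw [coeff_X_mul, coeff_derivative]; push_cast; ring
  have hr : ∀ w ∈ Pal m, (∀ k < m, ((C β * X + 1) * derivative w).coeff k =
      ((C β * X + 1) * derivative w).coeff (2 * m - k)) → ∀ k < m,
      (k + 1) * w.coeff (k + 1) = β * (2 * m - 2 * k) * w.coeff k +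
        (if k = 0 then 0 else (2 * m - k + 1) * w.coeff (k - 1)) := by
    intro w hw hw' k hk
    have h1 := hw' k hk
    rw [hc, hc] at h1
    have h2 : w.coeff (2 * m - k) = w.coeff k := (Pal.symm hw (by omega)).symm
    rw [h2] at h1
    have e1 : ((2 * m - k : ℕ) : ℚ) = 2 * m - k := by
      rw [Nat.cast_sub (by omega)]; push_cast; ring
    rw [e1] at h1
    split_ifs with h0
    · subst h0
      have h3 : w.coeff (2 * m - 0 + 1) = 0 := hw.1 _ (by omega)
      rw [h3] at h1
      push_cast at h1 ⊢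
      linear_combination h1
    · have h3 : w.coeff (2 * m - k + 1) = w.coeff (k - 1) := by
        rw [Pal.symm hw (k := k - 1) (by omega)]
        congr 1; omega
      rw [h3] at h1
      linear_combination h1
  -- `wb` is in the kernel
  have hw : ∀ k < m, ((C β * X + 1) * derivative (wb m β)).coeff k =
      ((C β * X + 1) * derivative (wb m β)).coeff (2 * m - k) := by
    intro k hk
    have hode : (X ^ 2 + C (2 * β) * X + 1) * derivative (wb m β) =
        C (m : ℚ) * ((C 2 * X + C (2 * β)) * wb m β) := by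
      unfold wb
      rcases m with _ | m
      · simp
      · have hd : derivative (X ^ 2 + C (2 * β) * X + 1 : ℚ[X]) = C 2 * X + C (2 * β) := by
          simp only [derivative_add, derivative_mul, derivative_C, derivative_X, derivative_one,
            derivative_X_pow]
          simp
        rw [derivative_pow_succ, hd]
        simp only [map_add, map_natCast, map_one]
        push_cast
        ring
    have hcoef := congrArg (fun p : ℚ[X] => p.coeff k) hode
    beta_reduce at hcoef
    have e : (X ^ 2 + C (2 * β) * X + 1) * derivative (wb m β) =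
      X * (X * derivative (wb m β)) + C (2 * β) * (X * derivative (wb m β)) + derivative (wb m β) := by ring
    have e' : (C 2 * X + C (2 * β)) * wb m β = C 2 * (X * wb m β) + C (2 * β) * wb m β := by ring
    rw [e, e', coeff_add, coeff_add, coeff_C_mul, coeff_C_mul, coeff_add, coeff_C_mul, coeff_C_mul,
      coeff_derivative] at hcoef
    have hp := wb_mem m β
    rw [hc, hc]
    have h2 : (wb m β).coeff (2 * m - k) = (wb m β).coeff k := (Pal.symm hp (by omega)).symm
    rw [h2]
    have e1 : ((2 * m - k : ℕ) : ℚ) = 2 * m - k := by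
      rw [Nat.cast_sub (by omega)]; push_cast; ring
    rw [e1]
    rcases k with _ | k
    · have h3 : (wb m β).coeff (2 * m - 0 + 1) = 0 := hp.1 _ (by omega)
      rw [h3]
      simp only [coeff_X_mul_zero, mul_zero, zero_add] at hcoef
      push_cast at hcoef ⊢
      linear_combination hcoef
    · have h3 : (wb m β).coeff (2 * m - (k + 1) + 1) = (wb m β).coeff k := by
        rw [Pal.symm hp (k := k) (by omega)]
        congr 1; omega
      rw [h3]
      rw [coeff_X_mul, coeff_X_mul, coeff_X_mul, coeff_derivative] at hcoef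
      rcases k with _ | k
      · simp only [coeff_X_mul_zero] at hcoef
        push_cast at hcoef ⊢
        linear_combination hcoef
      · rw [coeff_X_mul, coeff_derivative] at hcoef
        push_cast at hcoef ⊢
        linear_combination hcoef
  -- compare
  have hw0 : (wb m β).coeff 0 = 1 := by
    rw [coeff_zero_eq_eval_zero]; simp [wb]
  have hcmp : ∀ k ≤ m, v.coeff k = v.coeff 0 * (wb m β).coeff k := by
    intro k
    induction k using Nat.strong_induction_on with
    | _ k ih =>
      intro hk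
      rcases k with _ | k
      · rw [hw0, mul_one]
      · have h1 := hr v hv h k (by omega)
        have h2 := hr _ (wb_mem m β) hw k (by omega)
        have h3 := ih k (by omega) (by omega)
        have hk1 : ((k : ℚ) + 1) ≠ 0 := by positivity
        apply mul_left_cancel₀ hk1
        rw [h1, mul_left_comm, h2, h3]
        split_ifs with h0
        · ring
        · rw [ih (k - 1) (by omega) (by omega)]; ring
  ext k
  rw [coeff_smul, smul_eq_mul]
  rcases Nat.lt_or_ge (2 * m) k with hk | hk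
  · rw [hv.1 k hk, (wb_mem m β).1 k hk, mul_zero]
  · rcases Nat.lt_or_ge m k with h1 | h1
    · rw [Pal.symm hv hk, Pal.symm (wb_mem m β) hk]
      exact hcmp _ (by omega)
    · exact hcmp k h1

end Pool.Agent.Run7.h968
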