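import Pool.Agent.Run7.h968.Gen

/-! Coefficients of polynomials in two variables `s` (inner), `z` (outer), and the effect of a
substitution `z ↦ Z`. -/

namespace Pool.Agent.Run7.h968

open Polynomial

/-- the coefficient of `s ^ l z ^ k` -/
noncomputable def cf (l k : ℕ) : ℚ[X][X] →ₗ[ℚ] ℚ where
  toFun V := (V.coeff k).coeff l
  map_add' V W := by rw [coeff_add, coeff_add]
  map_smul' c V := by simp

theorem cf_apply (l k : ℕ) (V : ℚ[X][X]) : cf l k V = (V.coeff k).coeff l := rfl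

theorem cf_ext {V W : ℚ[X][X]} (h : ∀ l k, cf l k V = cf l k W) : V = W := by
  ext k l
  exact h l k

/-- polynomials in `z` alone -/
noncomputable def io (v : ℚ[X]) : ℚ[X][X] := v.map C

theorem io_add (v w : ℚ[X]) : io (v + w) = io v + io w := by unfold io; rw [Polynomial.map_add]

theorem io_smul (c : ℚ) (v : ℚ[X]) : io (c • v) = c • io v := by
  unfold io
  ext k l
  simp [smul_eq_C_mul]

theorem io_mul (v w : ℚ[X]) : io (v * w) = io v * io w := by unfold io; rw [Polynomial.map_mul]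

/-- polynomials in `z` alone, as a linear map -/
noncomputable def ioL : ℚ[X] →ₗ[ℚ] ℚ[X][X] where
  toFun := io
  map_add' := io_add
  map_smul' := io_smul

theorem ioL_apply (v : ℚ[X]) : ioL v = io v := rfl

theorem io_zero : io 0 = 0 := by unfold io; rw [Polynomial.map_zero]

theorem cf_io (l k : ℕ) (v : ℚ[X]) : cf l k (io v) = if l = 0 then v.coeff k else 0 := by
  rw [cf_apply]
  unfold io
  rw [coeff_map, coeff_C]

theorem cf_pow_mul (n l k : ℕ) (V : ℚ[X][X]) : cf l k (C (X ^ n) * V) = if n ≤ l then cf (l - n) k V else 0 := by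
  rw [cf_apply, coeff_C_mul, coeff_X_pow_mul', cf_apply]

theorem cf_X_mul_succ (l k : ℕ) (V : ℚ[X][X]) : cf (l + 1) k (C X * V) = cf l k V := by
  have := cf_pow_mul 1 (l + 1) k V
  rwa [pow_one, if_pos (by omega), Nat.add_sub_cancel] at this

theorem cf_X_mul_zero (k : ℕ) (V : ℚ[X][X]) : cf 0 k (C X * V) = 0 := by
  have := cf_pow_mul 1 0 k V
  rwa [pow_one, if_neg (by omega)] at this

theorem cf_eq_of_dvd {n l k : ℕ} (hl : l < n) {V W : ℚ[X][X]} (h : C (X ^ n) ∣ V - W) : cf l k V = cf l k W := by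
  obtain ⟨U, hU⟩ := h
  have : V = W + C (X ^ n) * U := by rw [← hU]; ring
  rw [this, map_add, cf_pow_mul, if_neg (by omega), add_zero]

/-- the lowest level -/
noncomputable def lv (V : ℚ[X][X]) : ℚ[X] := V.map (evalRingHom 0)

theorem lv_coeff (V : ℚ[X][X]) (k : ℕ) : (lv V).coeff k = cf 0 k V := by
  unfold lv
  rw [coeff_map, cf_apply, coe_evalRingHom, coeff_zero_eq_eval_zero]

theorem lv_add (V W : ℚ[X][X]) : lv (V + W) = lv V + lv W := by unfold lv; rw [Polynomial.map_add]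

theorem lv_smul (c : ℚ) (V : ℚ[X][X]) : lv (c • V) = c • lv V := by
  ext k
  rw [lv_coeff, coeff_smul, lv_coeff, map_smul]

/-- the lowest level as a linear map -/
noncomputable def lvL : ℚ[X][X] →ₗ[ℚ] ℚ[X] where
  toFun := lv
  map_add' := lv_add
  map_smul' := lv_smul

theorem lvL_apply (V : ℚ[X][X]) : lvL V = lv V := rfl

theorem lv_io (v : ℚ[X]) : lv (io v) = v := by
  ext k
  rw [lv_coeff, cf_io, if_pos rfl]

/-- splitting off the lowest level -/
theorem exists_dv (V : ℚ[X][X]) : ∃ V' : ℚ[X][X], V = io (lv V) + C X * V' := by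
  have h : (C X : ℚ[X][X]) ∣ V - io (lv V) := by
    rw [C_dvd_iff_dvd_coeff]
    intro k
    rw [X_dvd_iff, coeff_sub]
    unfold io
    rw [coeff_map, coeff_sub, coeff_C_zero, lv_coeff, cf_apply, sub_self]
  obtain ⟨V', hV'⟩ := h
  exact ⟨V', by rw [← hV']; ring⟩

/-- the substitution -/
noncomputable def sb (Z : ℚ[X][X]) : ℚ[X][X] →ₐ[ℚ[X]] ℚ[X][X] := aeval Z

theorem sb_C (Z : ℚ[X][X]) (p : ℚ[X]) : sb Z (C p) = C p := by
  unfold sb
  rw [aeval_C]
  rfl

theorem sb_X_mul (Z V : ℚ[X][X]) : sb Z (C X * V) = C X * sb Z V := by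
  rw [map_mul, sb_C]

/-- the substitutions which are the identity modulo `s` -/
def Uni (Z : ℚ[X][X]) : Prop := (C X : ℚ[X][X]) ∣ Z - X

theorem sb_sub_dvd {Z Z' D V : ℚ[X][X]} (h : D ∣ Z - Z') : D ∣ sb Z V - sb Z' V := by
  refine h.trans ?_
  unfold sb
  have := sub_dvd_eval_sub Z Z' (V.map (C : ℚ[X] →+* ℚ[X][X]))
  rw [eval_map, eval_map] at this
  exact this

theorem sb_self (V : ℚ[X][X]) : sb X V = V := by
  unfold sb
  rw [aeval_X_left]
  rfl

theorem cf_zero_sb {Z : ℚ[X][X]} (hZ : Uni Z) (V : ℚ[X][X]) (k : ℕ) : cf 0 k (sb Z V) = cf 0 k V := by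
  have h1 : (C (X ^ 1) : ℚ[X][X]) ∣ sb Z V - V := by
    have := sb_sub_dvd (V := V) hZ
    rwa [sb_self, ← pow_one X] at this
  exact cf_eq_of_dvd (by omega) h1

/-- the modified substitution -/
theorem sb_upd_lt {Z : ℚ[X][X]} {n l k : ℕ} (hl : l < n) (ζ : ℚ[X]) (V : ℚ[X][X]) :
    cf l k (sb (Z + C (X ^ n) * io ζ) V) = cf l k (sb Z V) := by
  refine cf_eq_of_dvd hl (sb_sub_dvd ?_)
  rw [add_sub_cancel_left]
  exact dvd_mul_right _ _

theorem sb_upd {Z : ℚ[X][X]} (hZ : Uni Z) {n k : ℕ} (hn : 1 ≤ n) (ζ : ℚ[X]) (V : ℚ[X][X]) :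
    cf n k (sb (Z + C (X ^ n) * io ζ) V) = cf n k (sb Z V) + (ζ * derivative (lv V)).coeff k := by
  obtain ⟨h, hh⟩ : ∃ h, h = C (X ^ n) * io ζ := ⟨_, rfl⟩
  obtain ⟨q, hq⟩ := binomExpansion (V.map (C : ℚ[X] →+* ℚ[X][X])) Z h
  rw [eval_map, eval_map, derivative_map, eval_map] at hq
  have e1 : sb (Z + h) V = sb Z V + sb Z (derivative V) * h + q * h ^ 2 := hq
  have e2 : (C (X ^ (n + 1)) : ℚ[X][X]) ∣ sb (Z + h) V - (sb Z V + C (X ^ n) * (io ζ * derivative V)) := by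
    have h1 : (C X : ℚ[X][X]) ∣ sb Z (derivative V) - derivative V := by
      have := sb_sub_dvd (V := derivative V) hZ
      rwa [sb_self] at this
    obtain ⟨w, hw⟩ := h1
    have h2 : sb Z (derivative V) = derivative V + C X * w := by rw [← hw]; ring
    rw [e1, h2, hh]
    have e3 : sb Z V + (derivative V + C X * w) * (C (X ^ n) * io ζ) + q * (C (X ^ n) * io ζ) ^ 2 -
        (sb Z V + C (X ^ n) * (io ζ * derivative V)) =
        C (X ^ (n + 1)) * (w * io ζ + C (X ^ (n - 1)) * (q * io ζ ^ 2)) := by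
      have e4 : (C (X ^ n) : ℚ[X][X]) * C (X ^ n) = C (X ^ (n + 1)) * C (X ^ (n - 1)) := by
        rw [← C_mul, ← C_mul, ← pow_add, ← pow_add]
        congr 2; omega
      have e5 : (C (X ^ (n + 1)) : ℚ[X][X]) = C X * C (X ^ n) := by rw [← C_mul]; congr 1; ring
      rw [mul_add, ← mul_assoc (C (X ^ (n + 1))) (C (X ^ (n - 1))), ← e4, e5]
      ring
    rw [e3]
    exact dvd_mul_right _ _
  rw [hh] at e2
  rw [cf_eq_of_dvd (Nat.lt_succ_self n) e2, map_add, cf_pow_mul, if_pos le_rfl, Nat.sub_self]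
  congr 1
  rw [← lv_coeff]
  congr 1
  unfold lv io
  rw [Polynomial.map_mul, Polynomial.map_map, ← derivative_map]
  congr 1
  ext k
  simp

theorem Uni.upd {Z : ℚ[X][X]} (hZ : Uni Z) {n : ℕ} (hn : 1 ≤ n) (ζ : ℚ[X]) : Uni (Z + C (X ^ n) * io ζ) := by
  unfold Uni at *
  have e : Z + C (X ^ n) * io ζ - X = (Z - X) + C X * (C (X ^ (n - 1)) * io ζ) := by
    have : (C (X ^ n) : ℚ[X][X]) = C X * C (X ^ (n - 1)) := by
      rw [← C_mul, ← pow_succ', Nat.sub_add_cancel hn]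
    rw [this]; ring
  rw [e]
  exact dvd_add hZ (dvd_mul_right _ _)

/-- the antisymmetric part at a level -/
noncomputable def An (m : ℕ) (Z : ℚ[X][X]) (l k : ℕ) : ℚ[X][X] →ₗ[ℚ] ℚ :=
  (cf l k - cf l (2 * m - k)) ∘ₗ ((sb Z).toLinearMap.restrictScalars ℚ)

theorem An_apply (m : ℕ) (Z : ℚ[X][X]) (l k : ℕ) (V : ℚ[X][X]) :
    An m Z l k V = cf l k (sb Z V) - cf l (2 * m - k) (sb Z V) := rfl

/-- the antisymmetric part of a polynomial -/
noncomputable def an (m k : ℕ) : ℚ[X] →ₗ[ℚ] ℚ := lcoeff ℚ k - lcoeff ℚ (2 * m - k)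

theorem an_apply (m k : ℕ) (v : ℚ[X]) : an m k v = v.coeff k - v.coeff (2 * m - k) := rfl

theorem An_zero {m k : ℕ} {Z : ℚ[X][X]} (hZ : Uni Z) (V : ℚ[X][X]) : An m Z 0 k V = an m k (lv V) := by
  rw [An_apply, an_apply, cf_zero_sb hZ, cf_zero_sb hZ, lv_coeff, lv_coeff]

theorem An_succ {m l k : ℕ} {Z : ℚ[X][X]} (V : ℚ[X][X]) : An m Z (l + 1) k (C X * V) = An m Z l k V := by
  rw [An_apply, An_apply, sb_X_mul, cf_X_mul_succ, cf_X_mul_succ]

theorem An_upd_lt {m n l k : ℕ} (hl : l < n) {Z : ℚ[X][X]} (ζ : ℚ[X]) (V : ℚ[X][X]) :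
    An m (Z + C (X ^ n) * io ζ) l k V = An m Z l k V := by
  rw [An_apply, An_apply, sb_upd_lt hl, sb_upd_lt hl]

theorem An_upd {m n k : ℕ} {Z : ℚ[X][X]} (hZ : Uni Z) (hn : 1 ≤ n) (ζ : ℚ[X]) (V : ℚ[X][X]) :
    An m (Z + C (X ^ n) * io ζ) n k V = An m Z n k V + an m k (ζ * derivative (lv V)) := by
  rw [An_apply, An_apply, an_apply, sb_upd hZ hn, sb_upd hZ hn]
  ring

end Pool.Agent.Run7.h968
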