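import Pool.Agent.Run7.h968.Low

/-! The ideals `(Y - Ψ, s ^ (4 a)) ^ m` and their limit. -/

namespace Pool.Agent.Run7.h968

open Polynomial

section PQ
variable {A A' : Type*} [CommRing A] [CommRing A']

/-- the first generator -/
noncomputable def PP (t α β : A) : A[X] := C t * (X - C α) - (X - C β) ^ 2

/-- the second generator -/
noncomputable def QQ (α : A) : A[X] := (X - C α) ^ 2

theorem PP_map (φ : A →+* A') (t α β : A) : mapRingHom φ (PP t α β) = PP (φ t) (φ α) (φ β) := by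
  unfold PP
  simp

theorem QQ_map (φ : A →+* A') (α : A) : mapRingHom φ (QQ α) = QQ (φ α) := by
  unfold QQ
  simp

theorem map_eq_zero_iff' (π : A →+* A') {t : A} (ht : ∀ a, π a = 0 ↔ t ∣ a) (g : A[X]) :
    mapRingHom π g = 0 ↔ C t ∣ g := by
  rw [C_dvd_iff_dvd_coeff, Polynomial.ext_iff]
  simp only [coe_mapRingHom, coeff_map, coeff_zero, ht]

theorem sat_step [IsDomain A] [IsDomain A'] (π : A →+* A') (hs : Function.Surjective π) {t : A}
    (ht0 : t ≠ 0) (ht : ∀ a, π a = 0 ↔ t ∣ a) {α β : A} (hαβ : π α ≠ π β) {m : ℕ} {g : A[X]}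
    (h : Mem (PP t α β) (QQ α) m (C t * g)) : Mem (PP t α β) (QQ α) m g := by
  have hs' : Function.Surjective (mapRingHom π) := by
    rw [coe_mapRingHom]; exact map_surjective _ hs
  refine Mem.saturate (mapRingHom π) hs' (by simpa using ht0) (map_eq_zero_iff' π ht) ?_ ?_ h
  · simp only [map_sub, coe_mapRingHom, map_X, map_C]
    exact prime_X_sub_C _
  · simp only [map_sub, coe_mapRingHom, map_X, map_C]
    rw [dvd_iff_isRoot, IsRoot.def, eval_sub, eval_X, eval_C, sub_eq_zero]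
    exact hαβ

theorem sat_pow [IsDomain A] [IsDomain A'] (π : A →+* A') (hs : Function.Surjective π) {t : A}
    (ht0 : t ≠ 0) (ht : ∀ a, π a = 0 ↔ t ∣ a) {α β : A} (hαβ : π α ≠ π β) {m n : ℕ} {g : A[X]}
    (h : Mem (PP t α β) (QQ α) m (C t ^ n * g)) : Mem (PP t α β) (QQ α) m g := by
  induction n generalizing g with
  | zero => simpa using h
  | succ n ih =>
    apply ih
    refine sat_step π hs ht0 ht hαβ ?_
    rwa [← mul_assoc, ← pow_succ']

theorem mem_red (π : A →+* A') {t : A} (ht : π t = 0) {α β : A} {m : ℕ} {g : A[X]}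
    (h : Mem (PP t α β) (QQ α) m g) : Mem (-(X - C (π β)) ^ 2) ((X - C (π α)) ^ 2) m (mapRingHom π g) := by
  have h1 := h.map (mapRingHom π)
  rw [PP_map, QQ_map, ht] at h1
  have e : PP 0 (π α) (π β) = -(X - C (π β)) ^ 2 := by unfold PP; simp
  rw [e] at h1
  exact h1

theorem factor_out [IsDomain A] [WfDvdMonoid A] (π : A →+* A') {t : A} (hp : Prime t)
    (ht : ∀ a, π a = 0 ↔ t ∣ a) {f : A[X]} (hf : f ≠ 0) :
    ∃ (n : ℕ) (g : A[X]), mapRingHom π g ≠ 0 ∧ f = C t ^ n * g := by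
  have h1 : Prime (C t : A[X]) := prime_C_iff.2 hp
  obtain ⟨n, g, hg, h2⟩ := WfDvdMonoid.max_power_factor hf h1.irreducible
  exact ⟨n, g, fun h => hg ((map_eq_zero_iff' π ht g).1 h), h2⟩

end PQ

section field
variable {K : Type*} [Field K]

/-- the curve -/
noncomputable def Psi (a : ℕ) (τ : K) (γ δ : K[X]) : K[X] :=
  (γ + δ) * X ^ a + C (4 * τ⁻¹) * (δ * X ^ a) ^ 2 + C (16 * τ⁻¹ ^ 2) * (δ * X ^ a) ^ 3

/-- the curve is in the ideal -/
theorem psi_mem (a : ℕ) {τ : K} (hτ : τ ≠ 0) (γ δ : K[X]) :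
    X - C (Psi a τ γ δ) ∈ Ideal.span {PP (C τ) ((γ + δ) * X ^ a) ((γ - δ) * X ^ a),
      QQ ((γ + δ) * X ^ a)} := by
  rw [Ideal.mem_span_pair]
  unfold PP QQ
  obtain ⟨τi, hτi⟩ : ∃ τi : K[X][X], τi = C (C τ⁻¹) := ⟨_, rfl⟩
  obtain ⟨T, hT⟩ : ∃ T : K[X][X], T = C (C τ) := ⟨_, rfl⟩
  obtain ⟨g, hg⟩ : ∃ g : K[X][X], g = C γ := ⟨_, rfl⟩
  obtain ⟨d, hd⟩ : ∃ d : K[X][X], d = C δ := ⟨_, rfl⟩
  obtain ⟨s, hs⟩ : ∃ s : K[X][X], s = C (X ^ a) := ⟨_, rfl⟩
  have h1 : T * τi = 1 := by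
    rw [hT, hτi, ← C_mul, ← C_mul, mul_inv_cancel₀ hτ, C_1, C_1]
  have e1 : (C ((γ + δ) * X ^ a) : K[X][X]) = (g + d) * s := by rw [C_mul, C_add, hg, hd, hs]
  have e2 : (C ((γ - δ) * X ^ a) : K[X][X]) = (g - d) * s := by rw [C_mul, C_sub, hg, hd, hs]
  have e3 : (C (Psi a τ γ δ) : K[X][X]) = (g + d) * s + 4 * τi * (d * s) ^ 2 + 16 * τi ^ 2 * (d * s) ^ 3 := by
    unfold Psi
    rw [hg, hd, hs, hτi]
    simp only [map_add, map_mul, map_pow, map_ofNat]
  rw [e1, e2, e3, ← hT]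
  refine ⟨τi ^ 2 * (T + 2 * (X - (g - d) * s) - 6 * (X - (g + d) * s)),
    τi ^ 2 * (5 * T - 6 * (X - (g - d) * s) + 2 * (X - (g + d) * s)), ?_⟩
  linear_combination ((X - (g + d) * s) * (T * τi + 1) - 4 * (d * s) ^ 2 * τi) * h1

/-- the power of the parameter is in the ideal -/
theorem pow_mem [CharZero K] (a : ℕ) (τ : K) (γ δ : K[X]) :
    C (δ * X ^ a) ^ 4 ∈ Ideal.span {PP (C τ) ((γ + δ) * X ^ a) ((γ - δ) * X ^ a),
      QQ ((γ + δ) * X ^ a)} := by
  rw [Ideal.mem_span_pair]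
  unfold PP QQ
  obtain ⟨q, hq⟩ : ∃ q : K[X][X], q = C (C (16 : K)⁻¹) := ⟨_, rfl⟩
  obtain ⟨T, hT⟩ : ∃ T : K[X][X], T = C (C τ) := ⟨_, rfl⟩
  obtain ⟨g, hg⟩ : ∃ g : K[X][X], g = C γ := ⟨_, rfl⟩
  obtain ⟨d, hd⟩ : ∃ d : K[X][X], d = C δ := ⟨_, rfl⟩
  obtain ⟨s, hs⟩ : ∃ s : K[X][X], s = C (X ^ a) := ⟨_, rfl⟩
  have h1 : q * 16 = 1 := by
    have : (C (C (16 : K)) : K[X][X]) = 16 := by simp only [map_ofNat]
    rw [← this, hq, ← C_mul, ← C_mul, inv_mul_cancel₀ (by norm_num), C_1, C_1]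
  have e1 : (C ((γ + δ) * X ^ a) : K[X][X]) = (g + d) * s := by rw [C_mul, C_add, hg, hd, hs]
  have e2 : (C ((γ - δ) * X ^ a) : K[X][X]) = (g - d) * s := by rw [C_mul, C_sub, hg, hd, hs]
  have e3 : (C (δ * X ^ a) : K[X][X]) = d * s := by rw [C_mul, hd, hs]
  rw [e1, e2, e3, ← hT]
  obtain ⟨u, hu⟩ : ∃ u, u = X - (g + d) * s := ⟨_, rfl⟩
  obtain ⟨v, hv⟩ : ∃ v, v = X - (g - d) * s := ⟨_, rfl⟩
  have e4 : d * s * 2 = v - u := by rw [hu, hv]; ring
  rw [← hu, ← hv]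
  refine ⟨q * (-2 * T * u + (T * u - v ^ 2) + 4 * u * v), q * (T ^ 2 - 4 * T * v + 6 * v ^ 2 - 4 * u * v + u ^ 2), ?_⟩
  have e5 : (d * s * 2) ^ 4 = (v - u) ^ 4 := by rw [e4]
  linear_combination (-q) * e5 + (d * s) ^ 4 * h1

/-- from the order along the curve to the ideal -/
theorem mem_of_order [CharZero K] {a m : ℕ} {τ : K} (hτ : τ ≠ 0) {γ δ : K[X]} {f : K[X][X]}
    (h : ∀ i j, i + 4 * a * j < 4 * a * m → ((taylor (Psi a τ γ δ) f).coeff j).coeff i = 0) :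
    Mem (PP (C τ) ((γ + δ) * X ^ a) ((γ - δ) * X ^ a)) (QQ ((γ + δ) * X ^ a)) m
      (C (δ ^ (4 * m)) * f) := by
  apply Mem.of_ideal
  obtain ⟨J, hJ⟩ : ∃ J, J = Ideal.span {PP (C τ) ((γ + δ) * X ^ a) ((γ - δ) * X ^ a),
      QQ ((γ + δ) * X ^ a)} := ⟨_, rfl⟩
  have h1 : X - C (Psi a τ γ δ) ∈ J := by rw [hJ]; exact psi_mem a hτ γ δ
  have h2 : C (δ * X ^ a) ^ 4 ∈ J := by rw [hJ]; exact pow_mem a τ γ δ
  rw [← hJ]
  have h3 : f = (taylor (Psi a τ γ δ) f).sum fun i b => C b * (X - C (Psi a τ γ δ)) ^ i :=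
    (sum_taylor_eq f _).symm
  rw [h3, Polynomial.sum, Finset.mul_sum]
  refine Ideal.sum_mem _ fun j _ => ?_
  rcases Nat.lt_or_ge j m with hj | hj
  · -- divisibility of the coefficient
    have h4 : X ^ (4 * a * (m - j)) ∣ (taylor (Psi a τ γ δ) f).coeff j := by
      rw [X_pow_dvd_iff]
      intro i hi
      apply h
      have e : 4 * a * m = 4 * a * (m - j) + 4 * a * j := by
        rw [← mul_add, Nat.sub_add_cancel hj.le]
      omega
    obtain ⟨w, hw⟩ := h4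
    rw [hw]
    have e : C (δ ^ (4 * m)) * (C (X ^ (4 * a * (m - j)) * w) * (X - C (Psi a τ γ δ)) ^ j) =
        C (δ ^ (4 * j) * w) * ((C (δ * X ^ a) ^ 4) ^ (m - j) * (X - C (Psi a τ γ δ)) ^ j) := by
      have e1 : δ ^ (4 * m) = δ ^ (4 * j) * δ ^ (4 * (m - j)) := by
        rw [← pow_add]; congr 1; omega
      rw [e1, ← pow_mul, ← C_pow, mul_pow, ← pow_mul, show a * (4 * (m - j)) = 4 * a * (m - j) by ring]
      simp only [map_mul]
      ring
    rw [e]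
    refine Ideal.mul_mem_left _ _ ?_
    have e2 : J ^ m = J ^ (m - j) * J ^ j := by
      have := pow_add J (m - j) j
      rwa [Nat.sub_add_cancel hj.le] at this
    rw [e2]
    exact Ideal.mul_mem_mul (Ideal.pow_mem_pow h2 _) (Ideal.pow_mem_pow h1 _)
  · refine Ideal.mul_mem_left _ _ (Ideal.mul_mem_left _ _ ?_)
    exact Ideal.pow_le_pow_right hj (Ideal.pow_mem_pow h1 _)

end field

section den
variable {K : Type} [Field K] [Algebra ℚ[X] K]

/-- extension of the coefficients, polynomials in `s` -/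
noncomputable def jl (K : Type) [Field K] [Algebra ℚ[X] K] : ℚ[X][X] →+* K[X] :=
  mapRingHom (algebraMap ℚ[X] K)

/-- extension of the coefficients -/
noncomputable def jm (K : Type) [Field K] [Algebra ℚ[X] K] : ℚ[X][X][X] →+* K[X][X] :=
  mapRingHom (jl K)

theorem jl_C (c : ℚ[X]) : jl K (C c) = C (algebraMap ℚ[X] K c) := by
  unfold jl
  rw [coe_mapRingHom, map_C]

theorem jm_C (c : ℚ[X]) : jm K (C (C c)) = C (C (algebraMap ℚ[X] K c)) := by
  unfold jm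
  rw [coe_mapRingHom, map_C, jl_C]

variable [IsFractionRing ℚ[X] K]

theorem jm_inj : Function.Injective (jm K) := by
  unfold jm jl
  rw [coe_mapRingHom]
  apply map_injective
  rw [coe_mapRingHom]
  apply map_injective
  exact IsFractionRing.injective ℚ[X] K

theorem exists_den1 (g : K[X]) :
    ∃ c : ℚ[X], c ≠ 0 ∧ ∃ g' : ℚ[X][X], jl K g' = C (algebraMap ℚ[X] K c) * g := by
  induction g using Polynomial.induction_on' with
  | add p q hp hq =>
    obtain ⟨c, hc, p', hp'⟩ := hp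
    obtain ⟨d, hd, q', hq'⟩ := hq
    refine ⟨c * d, mul_ne_zero hc hd, C d * p' + C c * q', ?_⟩
    rw [map_add, map_mul, map_mul, jl_C, jl_C, hp', hq', map_mul, map_mul]
    ring
  | monomial n x =>
    obtain ⟨a, b, hb, rfl⟩ := IsFractionRing.div_surjective (A := ℚ[X]) x
    have hb0 : b ≠ 0 := nonZeroDivisors.ne_zero hb
    refine ⟨b, hb0, monomial n a, ?_⟩
    unfold jl
    rw [coe_mapRingHom, map_monomial, C_mul_monomial]
    congr 1
    have : algebraMap ℚ[X] K b ≠ 0 := by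
      rw [Ne, IsFractionRing.to_map_eq_zero_iff]; exact hb0
    field_simp

theorem exists_den (g : K[X][X]) :
    ∃ c : ℚ[X], c ≠ 0 ∧ ∃ g' : ℚ[X][X][X], jm K g' = C (C (algebraMap ℚ[X] K c)) * g := by
  induction g using Polynomial.induction_on' with
  | add p q hp hq =>
    obtain ⟨c, hc, p', hp'⟩ := hp
    obtain ⟨d, hd, q', hq'⟩ := hq
    refine ⟨c * d, mul_ne_zero hc hd, C (C d) * p' + C (C c) * q', ?_⟩
    rw [map_add, map_mul, map_mul, jm_C, jm_C, hp', hq', map_mul, map_mul, map_mul]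
    ring
  | monomial n x =>
    obtain ⟨c, hc, x', hx'⟩ := exists_den1 x
    refine ⟨c, hc, monomial n x', ?_⟩
    unfold jm
    rw [coe_mapRingHom, map_monomial, C_mul_monomial, hx']

/-- clearing denominators -/
theorem mem_den {P Q : ℚ[X][X][X]} {m : ℕ} {g : ℚ[X][X][X]} (h : Mem (jm K P) (jm K Q) m (jm K g)) :
    ∃ c : ℚ[X], c ≠ 0 ∧ Mem P Q m (C (C c) * g) := by
  induction m generalizing g with
  | zero => exact ⟨1, one_ne_zero, trivial⟩
  | succ m ih =>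
    obtain ⟨b, g', h1, h2⟩ := h
    obtain ⟨c1, hc1, b1, hb1⟩ := exists_den b
    obtain ⟨c2, hc2, g2, hg2⟩ := exists_den g'
    have h3 : Mem (jm K P) (jm K Q) m (jm K g2) := by rw [hg2]; exact h1.mul_left _
    obtain ⟨c3, hc3, h4⟩ := ih h3
    refine ⟨c1 * c2 * c3, mul_ne_zero (mul_ne_zero hc1 hc2) hc3, C (C (c2 * c3)) * b1, C (C c1) * (C (C c3) * g2),
      h4.mul_left _, ?_⟩
    apply jm_inj (K := K)
    simp only [map_mul, map_add, jm_C, map_pow]
    rw [h2, hb1, hg2]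
    ring

end den

/-- the reduction modulo the parameter, polynomials in `s` -/
noncomputable def rl : ℚ[X][X] →+* ℚ[X] := mapRingHom (evalRingHom 0)

theorem rl_map (q : ℚ[X]) : rl (q.map C) = q := by
  unfold rl
  rw [coe_mapRingHom, map_map]
  ext i
  simp

theorem rl_surj : Function.Surjective rl := fun g => ⟨g.map C, rl_map g⟩

theorem rl_coeff (g : ℚ[X][X]) (i : ℕ) : (rl g).coeff i = (g.coeff i).eval 0 := by
  unfold rl
  rw [coe_mapRingHom, coeff_map]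
  rfl

theorem rl_eq_zero (g : ℚ[X][X]) : rl g = 0 ↔ C X ∣ g := by
  rw [C_dvd_iff_dvd_coeff]
  constructor
  · intro h i
    rw [X_dvd_iff, coeff_zero_eq_eval_zero, ← rl_coeff, h, coeff_zero]
  · intro h
    ext i
    rw [rl_coeff, ← coeff_zero_eq_eval_zero, X_dvd_iff.1 (h i), coeff_zero]

theorem rl_C (c : ℚ[X]) : rl (C c) = C (c.eval 0) := by
  unfold rl
  rw [coe_mapRingHom, map_C]
  rfl

/-- **The limit argument.** -/
theorem lim_zero {K : Type} [Field K] [CharZero K] [Algebra ℚ[X] K] [IsFractionRing ℚ[X] K]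
    {m p x y : ℕ} (hyx : y ≤ x) {γ δ : ℚ[X]} (hγ : γ.coeff 0 = 0) (hδ : δ.coeff 0 = 1)
    (hb : Pb m p x y (C δ * X + C γ)) {f : K[X][X]}
    (hf : ∀ i k, ¬ InSh m p x y i k → (f.coeff k).coeff i = 0)
    (h : ∀ i j, i + 4 * (2 * p + 2) * j < 4 * (2 * p + 2) * m →
      ((taylor (Psi (2 * p + 2) (algebraMap ℚ[X] K X) (jl K (γ.map C)) (jl K (δ.map C))) f).coeff j).coeff i = 0) :
    f = 0 := by
  obtain ⟨a, ha⟩ : ∃ a, a = 2 * p + 2 := ⟨_, rfl⟩
  rw [← ha] at h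
  by_contra hne
  obtain ⟨c, hc, f1, hf1⟩ := exists_den f
  have hcK : algebraMap ℚ[X] K c ≠ 0 := by
    rw [Ne, IsFractionRing.to_map_eq_zero_iff]; exact hc
  have hXK : algebraMap ℚ[X] K X ≠ 0 := by
    rw [Ne, IsFractionRing.to_map_eq_zero_iff]; exact X_ne_zero
  have hf10 : f1 ≠ 0 := by
    rintro rfl
    rw [map_zero] at hf1
    have h1 : (C (C (algebraMap ℚ[X] K c)) : K[X][X]) ≠ 0 := by simpa using hc
    exact (mul_ne_zero h1 hne) hf1.symm
  have hpr : Prime (C X : ℚ[X][X]) := by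
    rw [prime_C_iff]
    exact prime_X
  obtain ⟨n, f2, hf2, hf12⟩ := factor_out rl hpr rl_eq_zero hf10
  apply hf2
  -- the membership
  have h1 := mem_of_order hXK h
  obtain ⟨α, hα⟩ : ∃ α : ℚ[X][X], α = ((γ + δ) * X ^ a).map C := ⟨_, rfl⟩
  obtain ⟨β, hβ⟩ : ∃ β : ℚ[X][X], β = ((γ - δ) * X ^ a).map C := ⟨_, rfl⟩
  have e1 : (jl K (γ.map C) + jl K (δ.map C)) * X ^ a = jl K α := by
    rw [hα, Polynomial.map_mul, Polynomial.map_add, Polynomial.map_pow, map_X, map_mul, map_add, map_pow]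
    unfold jl
    simp
  have e2 : (jl K (γ.map C) - jl K (δ.map C)) * X ^ a = jl K β := by
    rw [hβ, Polynomial.map_mul, Polynomial.map_sub, Polynomial.map_pow, map_X, map_mul, map_sub, map_pow]
    unfold jl
    simp
  have hP : PP (C (algebraMap ℚ[X] K X)) (jl K α) (jl K β) = jm K (PP (C X) α β) := by
    unfold jm
    rw [PP_map, jl_C]
  have hQ : QQ (jl K α) = jm K (QQ α) := by
    unfold jm
    rw [QQ_map]
  rw [e1, e2, hP, hQ] at h1
  obtain ⟨D, hD⟩ : ∃ D : ℚ[X][X][X], D = C ((δ ^ (4 * m)).map C) := ⟨_, rfl⟩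
  have e4 : jm K D = C ((jl K (δ.map C)) ^ (4 * m)) := by
    rw [hD, Polynomial.map_pow]
    unfold jm
    rw [coe_mapRingHom, map_C, map_pow]
  obtain ⟨τi, hτi⟩ : ∃ τi : K[X][X], τi = C (C (algebraMap ℚ[X] K X)⁻¹) := ⟨_, rfl⟩
  have hτ : jm K (C (C X)) * τi = 1 := by
    rw [jm_C, hτi, ← C_mul, ← C_mul, mul_inv_cancel₀ hXK, C_1, C_1]
  have e5 : jm K (D * f2) = (τi ^ n * C (C (algebraMap ℚ[X] K c))) *
      (C ((jl K (δ.map C)) ^ (4 * m)) * f) := by
    have h3 : jm K f1 = jm K (C (C X)) ^ n * jm K f2 := by rw [hf12, map_mul, map_pow]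
    have h4 : (jm K (C (C X)) * τi) ^ n = 1 := by rw [hτ, one_pow]
    rw [mul_pow] at h4
    rw [map_mul, e4]
    have h5 : jm K f2 = τi ^ n * (C (C (algebraMap ℚ[X] K c)) * f) := by
      rw [← hf1, h3]
      linear_combination (-(jm K f2)) * h4
    rw [h5]; ring
  have h2 : Mem (jm K (PP (C X) α β)) (jm K (QQ α)) m (jm K (D * f2)) := by
    rw [e5]; exact h1.mul_left _
  obtain ⟨c2, hc2, h3⟩ := mem_den h2
  obtain ⟨n2, c3, hc3, rfl⟩ := WfDvdMonoid.max_power_factor hc2 irreducible_X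
  have hδ0 : δ ≠ 0 := by rintro rfl; simp at hδ
  have hαβ : rl α ≠ rl β := by
    rw [hα, hβ, rl_map, rl_map]
    intro he
    have h4 : (C 2 * δ) * X ^ a = 0 := by
      simp only [map_ofNat]
      linear_combination he
    have h5 : (C 2 : ℚ[X]) ≠ 0 := by simp
    exact (mul_ne_zero (mul_ne_zero h5 hδ0) (pow_ne_zero _ X_ne_zero)) h4
  have h4 : Mem (PP (C X) α β) (QQ α) m (C (C X) ^ n2 * (C (C c3) * (D * f2))) := by
    convert h3 using 1
    simp only [map_mul, map_pow]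
    ring
  have h5 := mem_red rl (by rw [rl_C, eval_X, C_0]) (sat_pow rl rl_surj (C_ne_zero.2 X_ne_zero) rl_eq_zero hαβ h4)
  have e6 : mapRingHom rl (C (C c3) * (D * f2)) = C (C (c3.eval 0) * δ ^ (4 * m)) * mapRingHom rl f2 := by
    rw [map_mul, map_mul, hD, coe_mapRingHom, map_C, map_C, rl_C, rl_map, C_mul, mul_assoc]
  rw [e6, hα, hβ, rl_map, rl_map, ha] at h5
  refine low hyx hγ hδ hb ?_ ?_ h5
  · intro i k hik
    rw [cf_apply, coe_mapRingHom, coeff_map, rl_coeff]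
    have h6 := congrArg (fun q : K[X][X] => (q.coeff k).coeff i) hf1
    beta_reduce at h6
    rw [coeff_C_mul, coeff_C_mul, hf i k hik, mul_zero] at h6
    have h7 : (f1.coeff k).coeff i = 0 := by
      unfold jm jl at h6
      rw [coe_mapRingHom, coeff_map, coe_mapRingHom, coeff_map] at h6
      rwa [IsFractionRing.to_map_eq_zero_iff] at h6
    rw [hf12, ← C_pow, ← C_pow, coeff_C_mul, coeff_C_mul] at h7
    have h8 := (mul_eq_zero.1 h7).resolve_left (pow_ne_zero _ X_ne_zero)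
    rw [h8, eval_zero]
  · rw [← coeff_zero_eq_eval_zero, Ne, ← X_dvd_iff]; exact hc3

end Pool.Agent.Run7.h968
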