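import Mathlib

/-! Powers of an ideal with two generators, and a saturation lemma. -/

namespace Pool.Agent.Run7.h968

section Mem
variable {B B' : Type*} [CommRing B] [CommRing B'] {P Q : B}

/-- the elements of the power of the ideal generated by `P` and `Q` -/
def Mem (P Q : B) : ℕ → B → Prop
  | 0, _ => True
  | m + 1, g => ∃ b g', Mem P Q m g' ∧ g = b * P ^ (m + 1) + Q * g'

theorem Mem.zero (m : ℕ) : Mem P Q m 0 := by
  induction m with
  | zero => trivial
  | succ m ih => exact ⟨0, 0, ih, by ring⟩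

theorem Mem.add {m : ℕ} {x y : B} (hx : Mem P Q m x) (hy : Mem P Q m y) : Mem P Q m (x + y) := by
  induction m generalizing x y with
  | zero => trivial
  | succ m ih =>
    obtain ⟨b, x', h1, rfl⟩ := hx
    obtain ⟨c, y', h2, rfl⟩ := hy
    exact ⟨b + c, x' + y', ih h1 h2, by ring⟩

theorem Mem.mul_left {m : ℕ} {x : B} (hx : Mem P Q m x) (c : B) : Mem P Q m (c * x) := by
  induction m generalizing x with
  | zero => trivial
  | succ m ih =>
    obtain ⟨b, x', h1, rfl⟩ := hx
    exact ⟨c * b, c * x', ih h1, by ring⟩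

theorem Mem.pow (m : ℕ) (c : B) : Mem P Q m (c * P ^ m) := by
  cases m with
  | zero => trivial
  | succ m => exact ⟨c, 0, Mem.zero m, by ring⟩

theorem Mem.Q_mul {m : ℕ} {x : B} (hx : Mem P Q m x) : Mem P Q (m + 1) (Q * x) := ⟨0, x, hx, by ring⟩

theorem Mem.P_mul {m : ℕ} {x : B} (hx : Mem P Q m x) : Mem P Q (m + 1) (P * x) := by
  induction m generalizing x with
  | zero => exact ⟨x, 0, trivial, by ring⟩
  | succ m ih =>
    obtain ⟨b, x', h1, rfl⟩ := hx
    exact ⟨b, P * x', ih h1, by ring⟩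

theorem Mem.of_ideal {m : ℕ} {x : B} (hx : x ∈ (Ideal.span {P, Q}) ^ m) : Mem P Q m x := by
  induction m generalizing x with
  | zero => trivial
  | succ m ih =>
    rw [pow_succ] at hx
    induction hx using Submodule.mul_induction_on' with
    | mem_mul_mem y hy z hz =>
      obtain ⟨a, b, rfl⟩ := Ideal.mem_span_pair.1 hz
      have h1 := ih hy
      have e : y * (a * P + b * Q) = a * (P * y) + b * (Q * y) := by ring
      rw [e]
      exact (h1.P_mul.mul_left a).add (h1.Q_mul.mul_left b)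
    | add y _ z _ hy hz => exact hy.add hz

theorem Mem.map (φ : B →+* B') {m : ℕ} {x : B} (hx : Mem P Q m x) : Mem (φ P) (φ Q) m (φ x) := by
  induction m generalizing x with
  | zero => trivial
  | succ m ih =>
    obtain ⟨b, x', h1, rfl⟩ := hx
    exact ⟨φ b, φ x', ih h1, by simp⟩

/-- the saturation -/
theorem Mem.saturate [IsDomain B] [IsDomain B'] (π : B →+* B') {t u v : B}
    (hs : Function.Surjective π) (ht0 : t ≠ 0) (ht : ∀ b, π b = 0 ↔ t ∣ b)
    (hu : Prime (π u)) (huv : ¬ π u ∣ π v) {m : ℕ} {g : B}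
    (h : Mem (t * u - v ^ 2) (u ^ 2) m (t * g)) : Mem (t * u - v ^ 2) (u ^ 2) m g := by
  have hπt : π t = 0 := (ht t).2 dvd_rfl
  induction m generalizing g with
  | zero => trivial
  | succ m ih =>
    obtain ⟨b, g', h1, h2⟩ := h
    have h3 := congrArg π h2
    rw [map_mul, hπt, zero_mul, map_add, map_mul, map_mul, map_pow, map_sub, map_mul, hπt, zero_mul,
      zero_sub, map_pow, map_pow] at h3
    -- the square divides `b`
    have h4 : π u ^ 2 ∣ π b * (π v) ^ (2 * (m + 1)) := by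
      have e : π b * (-π v ^ 2) ^ (m + 1) = (-1) ^ (m + 1) * (π b * (π v) ^ (2 * (m + 1))) := by
        rw [neg_pow, pow_mul]; ring
      rw [e] at h3
      have e2 : (-1 : B') ^ (m + 1) * (-1) ^ (m + 1) = 1 := by
        rw [← mul_pow]; simp
      refine ⟨-((-1) ^ (m + 1) * π g'), ?_⟩
      linear_combination (-(π b * π v ^ (2 * (m + 1)))) * e2 - (-1) ^ (m + 1) * h3
    have h5 : π u ^ 2 ∣ π b := by
      have hc : ¬ π u ∣ (π v) ^ (2 * (m + 1)) := fun h => huv (hu.dvd_of_dvd_pow h)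
      exact hu.pow_dvd_of_dvd_mul_right 2 hc h4
    obtain ⟨c, hc⟩ := h5
    obtain ⟨b1, rfl⟩ := hs c
    obtain ⟨b2, hb2⟩ := (ht (b - u ^ 2 * b1)).1 (by rw [map_sub, hc, map_mul, map_pow, sub_self])
    have hb : b = u ^ 2 * b1 + t * b2 := by rw [← hb2]; ring
    have h6 : t * (g - b2 * (t * u - v ^ 2) ^ (m + 1)) = u ^ 2 * (b1 * (t * u - v ^ 2) ^ (m + 1) + g') := by
      rw [mul_sub, h2, hb]; ring
    have h7 := congrArg π h6
    rw [map_mul, hπt, zero_mul, map_mul, map_pow] at h7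
    have h8 := (mul_eq_zero.1 h7.symm).resolve_left (pow_ne_zero 2 hu.ne_zero)
    obtain ⟨k, hk⟩ := (ht _).1 h8
    rw [hk] at h6
    have h9 : g - b2 * (t * u - v ^ 2) ^ (m + 1) = u ^ 2 * k := by
      apply mul_left_cancel₀ ht0
      rw [h6]; ring
    have h10 : Mem (t * u - v ^ 2) (u ^ 2) m k := by
      apply ih
      rw [← hk]
      refine Mem.add ?_ h1
      have := Mem.pow (P := t * u - v ^ 2) (Q := u ^ 2) m (b1 * (t * u - v ^ 2))
      rwa [show b1 * (t * u - v ^ 2) * (t * u - v ^ 2) ^ m = b1 * (t * u - v ^ 2) ^ (m + 1) by ring] at this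
    exact ⟨b2, k, h10, by rw [← h9]; ring⟩

end Mem

end Pool.Agent.Run7.h968
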