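import Pool.Agent.Run7.h968.Tpr
import Pool.Agent.Run7.h968.Mem

/-! Polynomials with exponents in a staircase in the power of the ideal of two squares. -/

namespace Pool.Agent.Run7.h968

open Polynomial

/-- the surplus of a row -/
def nn (p x y k : ℕ) : ℕ := p + (if k < x then 1 else 0) + (if k < y then 1 else 0)

/-- the staircase -/
def InSh (m p x y i k : ℕ) : Prop := k ≤ 2 * m ∧ i < (2 * p + 2) * (2 * m - k) + nn p x y k

/-- the substitution `Y ↦ s ^ a z` of the linear form `Z` -/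
noncomputable def th (a : ℕ) (Z : ℚ[X][X]) : ℚ[X][X] →ₐ[ℚ[X]] ℚ[X][X] := sb (C (X ^ a) * Z)

/-- divisible by a power of `s` with palindromic quotient -/
def Good (a n : ℕ) (G : ℚ[X][X]) : Prop :=
  ∃ H, G = C (X ^ (2 * a * n)) * H ∧ ∀ k < n, X ^ a ∣ H.coeff k - H.coeff (2 * n - k)

theorem Good.add {a n : ℕ} {G G' : ℚ[X][X]} (h : Good a n G) (h' : Good a n G') : Good a n (G + G') := by
  obtain ⟨H, h1, h2⟩ := h
  obtain ⟨H', h1', h2'⟩ := h'
  refine ⟨H + H', by rw [h1, h1']; ring, fun k hk => ?_⟩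
  rw [coeff_add, coeff_add]
  have := dvd_add (h2 k hk) (h2' k hk)
  convert this using 1
  ring

/-- the products of squares are palindromic -/
theorem pal_two (i j : ℕ) : ((X + 1 : ℚ[X]) ^ (2 * i) * (X - 1) ^ (2 * j)) ∈ Pal (i + j) := by
  have h1 : ((X + 1) ^ 2 : ℚ[X]) = X ^ 2 + C (2 * 1) * X + 1 := by
    simp only [mul_one, map_ofNat]; ring
  have h2 : ((X - 1) ^ 2 : ℚ[X]) = X ^ 2 + C (2 * (-1)) * X + 1 := by
    simp only [map_mul, map_ofNat, map_neg, map_one]; ring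
  have hp := pal_pow (natDegree_quad 1) (reflect_quad 1) i
  have hq := pal_pow (natDegree_quad (-1)) (reflect_quad (-1)) j
  rw [← h1] at hp
  rw [← h2] at hq
  rw [pow_mul, pow_mul]
  refine mem_Pal_of_reflect ?_ ?_
  · refine natDegree_mul_le.trans ?_
    have := hp.1
    have := hq.1
    omega
  · have := pal_mul hp.1 hq.1 hp.2 hq.2
    rwa [show 2 * i + 2 * j = 2 * (i + j) by ring] at this

theorem good_term {a : ℕ} {Z δ : ℚ[X][X]} (i j : ℕ) (b : ℚ[X][X]) :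
    Good a (i + j) (th a Z b * (C (X ^ a) * C (δ.coeff 0) * (X + 1)) ^ (2 * i) *
      (C (X ^ a) * C (δ.coeff 0) * (X - 1)) ^ (2 * j)) := by
  obtain ⟨d, hd⟩ : ∃ d, d = δ.coeff 0 := ⟨_, rfl⟩
  rw [← hd]
  have hb : ∃ G, th a Z b = C (b.coeff 0) + C (X ^ a) * G := by
    have h1 : th a Z b = C (b.coeff 0) + C (X ^ a) * (Z * th a Z b.divX) := by
      conv_lhs => rw [← divX_mul_X_add b]
      unfold th
      rw [map_add, map_mul, sb_C]
      have : sb (C (X ^ a) * Z) X = C (X ^ a) * Z := by unfold sb; rw [aeval_X]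
      rw [this]; ring
    exact ⟨_, h1⟩
  obtain ⟨G, hG⟩ := hb
  obtain ⟨w, hw⟩ : ∃ w : ℚ[X], w = (X + 1) ^ (2 * i) * (X - 1) ^ (2 * j) := ⟨_, rfl⟩
  have hwp : w ∈ Pal (i + j) := by rw [hw]; exact pal_two i j
  have hio : io w = (X + 1) ^ (2 * i) * (X - 1) ^ (2 * j) := by
    rw [hw]; unfold io; simp
  refine ⟨C (b.coeff 0 * d ^ (2 * (i + j))) * io w + C (X ^ a) * (G * C (d ^ (2 * (i + j))) * io w), ?_, ?_⟩
  · rw [hG, hio]
    have e1 : (C (X ^ (2 * a * (i + j))) : ℚ[X][X]) = C (X ^ a) ^ (2 * i) * C (X ^ a) ^ (2 * j) := by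
      rw [← pow_add, ← map_pow, ← pow_mul]
      congr 2; ring
    rw [e1]
    simp only [map_mul, map_pow, mul_pow]
    rw [show 2 * (i + j) = 2 * i + 2 * j by ring, pow_add (C d)]
    ring
  · intro k hk
    rw [coeff_add, coeff_add, coeff_C_mul, coeff_C_mul, coeff_C_mul, coeff_C_mul]
    have e2 : (io w).coeff k = (io w).coeff (2 * (i + j) - k) := by
      unfold io
      rw [coeff_map, coeff_map, hwp.2 k hk]
    rw [e2]
    refine ⟨(G * C (d ^ (2 * (i + j))) * io w).coeff k - (G * C (d ^ (2 * (i + j))) * io w).coeff (2 * (i + j) - k), ?_⟩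
    ring

theorem neg_sq_pow {R : Type*} [CommRing R] (u v b F : R) (m j : ℕ) :
    u ^ (2 * j) * (b * (-v ^ 2) ^ (m + 1) + u ^ 2 * F) =
      (-1) ^ (m + 1) * b * v ^ (2 * (m + 1)) * u ^ (2 * j) + u ^ (2 * (j + 1)) * F := by
  rw [neg_pow, ← pow_mul]
  ring

/-- the image of an element of the power of the ideal -/
theorem good_of_mem {a : ℕ} {γ δ : ℚ[X]} {m : ℕ} {F : ℚ[X][X]}
    (h : Mem (-(X - C ((γ - δ) * X ^ a)) ^ 2) ((X - C ((γ + δ) * X ^ a)) ^ 2) m F) (j : ℕ) :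
    Good a (m + j) (th a (C δ * X + C γ) ((X - C ((γ + δ) * X ^ a)) ^ (2 * j) * F)) := by
  obtain ⟨Z, hZ⟩ : ∃ Z, Z = C δ * X + C γ := ⟨_, rfl⟩
  have hX : th a Z X = C (X ^ a) * Z := by unfold th sb; rw [aeval_X]
  have hC : ∀ q : ℚ[X], th a Z (C q) = C q := fun q => sb_C _ q
  have hu : th a Z (X - C ((γ + δ) * X ^ a)) = C (X ^ a) * C ((C δ : ℚ[X][X]).coeff 0) * (X - 1) := by
    rw [map_sub, hX, hC, hZ, coeff_C_zero]
    simp only [map_mul, map_add]
    ring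
  have hv : th a Z (X - C ((γ - δ) * X ^ a)) = C (X ^ a) * C ((C δ : ℚ[X][X]).coeff 0) * (X + 1) := by
    rw [map_sub, hX, hC, hZ, coeff_C_zero]
    simp only [map_mul, map_sub]
    ring
  rw [← hZ]
  induction m generalizing F j with
  | zero =>
    have := good_term (a := a) (Z := Z) (δ := C δ) 0 j F
    rw [map_mul, map_pow, hu]
    simp only [mul_zero, pow_zero, mul_one] at this
    rwa [mul_comm]
  | succ m ih =>
    obtain ⟨b, F', h1, rfl⟩ := h
    have h2 := ih h1 (j + 1)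
    have h3 := good_term (a := a) (Z := Z) (δ := C δ) (m + 1) j ((-1) ^ (m + 1) * b)
    have e : th a Z ((X - C ((γ + δ) * X ^ a)) ^ (2 * j) *
        (b * (-(X - C ((γ - δ) * X ^ a)) ^ 2) ^ (m + 1) + (X - C ((γ + δ) * X ^ a)) ^ 2 * F')) =
        th a Z ((-1) ^ (m + 1) * b) * (C (X ^ a) * C ((C δ : ℚ[X][X]).coeff 0) * (X + 1)) ^ (2 * (m + 1)) *
          (C (X ^ a) * C ((C δ : ℚ[X][X]).coeff 0) * (X - 1)) ^ (2 * j) +
        th a Z ((X - C ((γ + δ) * X ^ a)) ^ (2 * (j + 1)) * F') := by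
      rw [← hu, ← hv, ← map_pow, ← map_pow, ← map_mul, ← map_mul, ← map_add]
      congr 1
      exact neg_sq_pow _ _ _ _ _ _
    rw [e]
    rw [show m + 1 + j = m + (j + 1) by ring] at h3 ⊢
    exact h3.add h2

/-- divisibility by a power of `s` is detected after a substitution -/
theorem dvd_of_sb {Z : ℚ[X][X]} (hZ : Uni Z) {n : ℕ} {W : ℚ[X][X]} (h : C (X ^ n) ∣ sb Z W) :
    C (X ^ n) ∣ W := by
  induction n generalizing W with
  | zero => simp
  | succ n ih =>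
    have h0 : lv W = 0 := by
      ext k
      rw [coeff_zero, lv_coeff, ← cf_zero_sb hZ]
      obtain ⟨U, hU⟩ := h
      rw [hU, cf_pow_mul, if_neg (by omega)]
    obtain ⟨W', hW'⟩ := exists_dv W
    rw [h0, io_zero, zero_add] at hW'
    have h1 : C (X ^ n) ∣ sb Z W' := by
      obtain ⟨U, hU⟩ := h
      refine ⟨U, ?_⟩
      have hne : (C X : ℚ[X][X]) ≠ 0 := by simp
      apply mul_left_cancel₀ hne
      rw [← sb_X_mul, ← hW', hU, ← mul_assoc, ← C_mul, pow_succ']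
    obtain ⟨U, hU⟩ := ih h1
    refine ⟨U, ?_⟩
    rw [hW', hU, ← mul_assoc, ← C_mul, ← pow_succ']

/-- **The limit.** -/
theorem low {m p x y : ℕ} (hyx : y ≤ x) {γ δ : ℚ[X]} (hγ : γ.coeff 0 = 0) (hδ : δ.coeff 0 = 1)
    (hb : Pb m p x y (C δ * X + C γ)) {F : ℚ[X][X]} (hF : ∀ i k, ¬ InSh m p x y i k → cf i k F = 0)
    {c : ℚ} (hc : c ≠ 0)
    (h : Mem (-(X - C ((γ - δ) * X ^ (2 * p + 2))) ^ 2) ((X - C ((γ + δ) * X ^ (2 * p + 2))) ^ 2) m
      (C (C c * δ ^ (4 * m)) * F)) : F = 0 := by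
  obtain ⟨a, ha⟩ : ∃ a, a = 2 * p + 2 := ⟨_, rfl⟩
  obtain ⟨Z, hZ⟩ : ∃ Z, Z = C δ * X + C γ := ⟨_, rfl⟩
  have hA : Aff Z := ⟨γ, δ, hγ, hδ, hZ⟩
  have hU : Uni Z := hA.uni
  obtain ⟨H, hH1, hH2⟩ := good_of_mem h 0
  rw [← ha, ← hZ] at hH1
  rw [← ha] at hH2
  rw [← hZ] at hb
  simp only [add_zero, mul_zero, pow_zero, one_mul] at hH1 hH2
  have hC : ∀ q : ℚ[X], th a Z (C q) = C q := fun q => sb_C _ q
  rw [map_mul, hC] at hH1
  obtain ⟨e, he⟩ : ∃ e, e = C c * δ ^ (4 * m) := ⟨_, rfl⟩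
  rw [← he] at hH1
  have hcop : ∀ n, IsCoprime (X ^ n) e := by
    intro n
    apply IsCoprime.pow_left
    rw [irreducible_X.coprime_iff_not_dvd, X_dvd_iff, he, coeff_zero_eq_eval_zero, eval_mul, eval_pow,
      eval_C, ← coeff_zero_eq_eval_zero, hδ, one_pow, mul_one]
    exact hc
  -- divisibility of the image
  obtain ⟨G, hG⟩ : ∃ G, G = sb (C (X ^ a) * X) F := ⟨_, rfl⟩
  have hthG : th a Z F = sb Z G := by
    rw [hG]
    unfold th sb
    rw [← comp_eq_aeval, ← comp_eq_aeval, ← comp_eq_aeval, comp_assoc, mul_comp, C_comp, X_comp]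
  have hd1 : C (X ^ (2 * a * m)) ∣ th a Z F := by
    rw [C_dvd_iff_dvd_coeff]
    intro k
    have h1 := congrArg (fun p : ℚ[X][X] => p.coeff k) hH1
    beta_reduce at h1
    rw [coeff_C_mul, coeff_C_mul] at h1
    exact (hcop _).dvd_of_dvd_mul_left ⟨_, h1⟩
  rw [hthG] at hd1
  obtain ⟨V, hV⟩ := dvd_of_sb hU hd1
  -- the coefficients
  have hcf : ∀ l k, cf l k G = if a * k ≤ l then cf (l - a * k) k F else 0 := by
    intro l k
    have h1 : G.coeff k = X ^ (a * k) * F.coeff k := by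
      rw [hG]
      unfold sb
      rw [← comp_eq_aeval, comp_C_mul_X_coeff, ← pow_mul]
      ring
    rw [cf_apply, h1, coeff_X_pow_mul', cf_apply]
  have hVcf : ∀ l k, cf l k V = cf (l + 2 * a * m) k G := by
    intro l k
    rw [hV, cf_pow_mul, if_pos (by omega), Nat.add_sub_cancel]
  have hVD : V ∈ Dm m p x y := by
    intro l k hk
    rw [hVcf, hcf]
    split_ifs with h1
    · apply hF
      rintro ⟨h2, h3⟩
      rw [← ha] at h3
      have e1 : a * (2 * m - k) = 2 * a * m - a * k := by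
        rw [Nat.mul_sub]; congr 1; ring
      have e2 : a * k ≤ 2 * a * m := by
        calc a * k ≤ a * (2 * m) := Nat.mul_le_mul_left _ h2
          _ = 2 * a * m := by ring
      rw [e1] at h3
      have h4 : l < nn p x y k := by omega
      unfold nn at h4
      unfold shp at hk
      split_ifs at hk h4 <;> omega
    · rfl
  have hlev : ∀ l ≤ 2 * p + 1, ∀ k < m, An m Z l k V = 0 := by
    intro l hl k hk
    have h1 : C e * sb Z V = H := by
      have hne : (C (X ^ (2 * a * m)) : ℚ[X][X]) ≠ 0 := by simp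
      apply mul_left_cancel₀ hne
      rw [← hH1, hthG, hV, map_mul, sb_C]
      ring
    have h2 := hH2 k hk
    rw [← h1, coeff_C_mul, coeff_C_mul, ← mul_sub] at h2
    have h3 := (hcop a).dvd_of_dvd_mul_left h2
    rw [An_apply, cf_apply, cf_apply, ← coeff_sub]
    obtain ⟨q, hq⟩ := h3
    rw [hq, coeff_X_pow_mul', if_neg (by omega)]
  have hV0 := hb V hVD hlev
  rw [hV0, mul_zero] at hV
  apply cf_ext
  intro l k
  have h1 := hcf (l + a * k) k
  rw [if_pos (by omega), Nat.add_sub_cancel, hV, map_zero] at h1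
  rw [← h1, map_zero]

end Pool.Agent.Run7.h968
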