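import Pool.Agent.Run7.h968.Tri
import Mathlib.Data.Int.CardIntervalMod

/-! The rows for `a = 9 q ^ 2 + 1`. -/

namespace Pool.Agent.Run7.h968

open Finset Pool.Agent.TH183.QC Pool.Agent.TH176.Nag Pool.Agent.TH387.SH Pool.Agent.TH641.NW

/-- the excluded lines -/
noncomputable def Ex (q : ℕ) (c₀ : ℤ) : Finset ℤ :=
  (range q).biUnion fun r => (Finset.Ico c₀ (c₀ + 9 * q * r)).filter fun c => c ≡ (r : ℤ) [ZMOD q]

theorem mem_Ex {q : ℕ} (hq : 0 < q) {c₀ c : ℤ} :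
    c ∈ Ex q c₀ ↔ c₀ ≤ c ∧ c < c₀ + 9 * q * (c % q) := by
  have hq' : (0 : ℤ) < q := by exact_mod_cast hq
  unfold Ex
  rw [mem_biUnion]
  constructor
  · rintro ⟨r, hr, hc⟩
    rw [mem_range] at hr
    rw [mem_filter, Finset.mem_Ico] at hc
    have : c % q = r := by
      have h := hc.2
      rw [Int.ModEq] at h
      rw [h]
      exact Int.emod_eq_of_lt (by positivity) (by exact_mod_cast hr)
    rw [this]
    exact hc.1
  · rintro ⟨h1, h2⟩
    refine ⟨(c % q).toNat, ?_, ?_⟩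
    · rw [mem_range]
      have := Int.emod_lt_of_pos c hq'
      have := Int.emod_nonneg c hq'.ne'
      omega
    · rw [Int.toNat_of_nonneg (Int.emod_nonneg c hq'.ne'), mem_filter, Finset.mem_Ico]
      exact ⟨⟨h1, h2⟩, (Int.mod_modEq c q).symm⟩

theorem card_Ex {q : ℕ} (hq : 0 < q) (c₀ : ℤ) : (Ex q c₀).card = ∑ r ∈ range q, 9 * r := by
  classical
  have hq' : (0 : ℤ) < q := by exact_mod_cast hq
  unfold Ex
  rw [card_biUnion]
  · refine sum_congr rfl fun r _ => ?_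
    have h := Int.Ico_filter_modEq_card c₀ (c₀ + 9 * q * r) hq' (r : ℤ)
    have e : (((c₀ + 9 * q * r : ℤ) : ℚ) - ((r : ℤ) : ℚ)) / ((q : ℤ) : ℚ) =
        ((c₀ : ℚ) - ((r : ℤ) : ℚ)) / ((q : ℤ) : ℚ) + ((9 * r : ℤ) : ℚ) := by
      have : (q : ℚ) ≠ 0 := by exact_mod_cast hq.ne'
      push_cast
      field_simp
      ring
    rw [e, Int.ceil_add_intCast] at h
    have h2 : (0 : ℤ) ≤ 9 * r := by positivity
    rw [add_sub_cancel_left, max_eq_left h2] at h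
    exact_mod_cast h
  · intro i hi j hj hij
    rw [Function.onFun, disjoint_left]
    intro c hc hc'
    rw [mem_filter] at hc hc'
    rw [mem_coe, mem_range] at hi hj
    have h := hc.2.symm.trans hc'.2
    rw [Int.ModEq, Int.emod_eq_of_lt (by positivity) (by exact_mod_cast hi),
      Int.emod_eq_of_lt (by positivity) (by exact_mod_cast hj)] at h
    exact hij (by exact_mod_cast h)

/-- the number of the excluded lines -/
def EE (q : ℕ) : ℤ := ∑ r ∈ range q, 9 * (r : ℤ)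

theorem two_EE (q : ℕ) : 2 * EE q = 9 * q * (q - 1) := by
  unfold EE
  induction q with
  | zero => simp
  | succ n ih => rw [sum_range_succ, mul_add, ih]; push_cast; ring

theorem EE_nonneg (q : ℕ) : 0 ≤ EE q := by
  unfold EE
  exact sum_nonneg fun _ _ => by positivity

theorem card_Ex' {q : ℕ} (hq : 0 < q) (c₀ : ℤ) : ((Ex q c₀).card : ℤ) = EE q := by
  rw [card_Ex hq]
  unfold EE
  push_cast
  rfl

/-- the standing assumptions: `s ^ 2 = 9 q ^ 2 + 1`, `3 τ q = 3 s - 6 q - 1` -/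
structure RD (q : ℕ) (s τ : ℝ) : Prop where
  hq : 1 ≤ q
  hs : s * s = 9 * q ^ 2 + 1
  hs0 : 3 * q < s
  hirr : Irrational τ
  hτ : 3 * q * (1 + τ) + (3 * q + 1) = 3 * s

variable {q : ℕ} {s τ : ℝ}

theorem RD.q_pos (h : RD q s τ) : (1 : ℝ) ≤ q := by exact_mod_cast h.hq

/-- the rows -/
theorem RD.row (h : RD q s τ) {d k : ℕ} {c : ℤ} :
    k < ln (TD d τ) q (3 * q + 1) c ↔ ∃ b : ℤ, 0 ≤ b ∧ b ≡ c [ZMOD q] ∧
      (3 * q + 1) * (d : ℝ) / 3 - s * (d - 3 * b - 3 * q * k) ≤ c ∧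
      (c : ℝ) ≤ (3 * q + 1) * d / 3 - (s - 3 * q) * (d - 3 * b) := by
  have hq := h.hq
  rw [row_iff (q := (q : ℤ)) (p' := 3 * q + 1) (u := -3) (v := 1) h.hirr (by ring) (by exact_mod_cast hq)
    (K := 3 * s) (by push_cast; linarith [h.hτ]) (by push_cast; linarith [h.hs0])]
  constructor
  · rintro ⟨b, hb, ⟨a, ha⟩, h1, h2⟩
    push_cast at h1 h2
    refine ⟨b, hb, ?_, by linarith, by linarith⟩
    rw [Int.modEq_iff_dvd]
    exact ⟨a + 3 * b, by rw [← ha]; ring⟩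
  · rintro ⟨b, hb, hbc, h1, h2⟩
    obtain ⟨a, ha⟩ := (Int.modEq_iff_dvd.1 hbc)
    refine ⟨b, hb, ⟨a - 3 * b, by linear_combination -ha⟩, ?_, ?_⟩
    · push_cast; linarith
    · push_cast; linarith

/-- the upper bound -/
theorem RD.up (h : RD q s τ) {d k : ℕ} (hY : 3 * ((q : ℝ) - 1) ≤ d - s * k) :
    (rc (TD d τ) q (3 * q + 1) k : ℤ) ≤ ⌊(3 * q + 1) * (d : ℝ) / 3 - s * (s - 3 * q) * k⌋ -
      ⌈(3 * q + 1) * (d : ℝ) / 3 - s * d + 3 * s * q * k⌉ + 1 - EE q := by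
  classical
  have hq := h.q_pos
  have hs := h.hs
  have hs0 := h.hs0
  have hqz : (0 : ℤ) < q := by have := h.hq; positivity
  obtain ⟨X, hX⟩ : ∃ X : ℝ, X = (3 * q + 1) * (d : ℝ) / 3 := ⟨_, rfl⟩
  obtain ⟨L, hL⟩ : ∃ L : ℝ, L = X - s * d + 3 * s * q * k := ⟨_, rfl⟩
  obtain ⟨ρ, hρ⟩ : ∃ ρ : ℝ, ρ = X - (s - 3 * q) * d := ⟨_, rfl⟩
  obtain ⟨z, hz⟩ : ∃ z : ℝ, z = X - s * (s - 3 * q) * k := ⟨_, rfl⟩
  obtain ⟨c₀, hc₀⟩ : ∃ c₀ : ℤ, c₀ = ⌈L⌉ := ⟨_, rfl⟩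
  rw [← hX, ← hL, ← hz, ← hc₀]
  have hk0 : (0 : ℝ) ≤ k := Nat.cast_nonneg k
  have e1 : ρ - L = 3 * q * (d - s * k) := by rw [hρ, hL]; ring
  have e2 : z - ρ = (s - 3 * q) * (d - s * k) := by rw [hρ, hz]; ring
  have hY0 : 0 ≤ (d : ℝ) - s * k := by linarith
  have hLc : L ≤ c₀ := by rw [hc₀]; exact Int.le_ceil L
  have hcL : (c₀ : ℝ) < L + 1 := by rw [hc₀]; exact Int.ceil_lt_add_one L
  have hrL : 9 * (q : ℝ) * (q - 1) ≤ ρ - L := by
    rw [e1]; nlinarith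
  have hzρ : ρ ≤ z := by
    have : 0 ≤ z - ρ := by rw [e2]; exact mul_nonneg (by linarith) hY0
    linarith
  obtain ⟨B, hB, hB2⟩ := exists_rc (TD d τ) q (3 * q + 1) k
  have hsub : B ⊆ (Finset.Icc c₀ ⌊ρ⌋ \ Ex q c₀) ∪ Finset.Ioc ⌊ρ⌋ ⌊z⌋ := by
    intro c hc
    obtain ⟨b, hb, hbc, h1, h2⟩ := h.row.1 (hB2 c hc)
    rw [← hX] at h1 h2
    have hb' : (0 : ℝ) ≤ b := by exact_mod_cast hb
    have h1' : L + 3 * s * b ≤ c := by rw [hL]; linarith
    have h2' : (c : ℝ) ≤ ρ + 3 * (s - 3 * q) * b := by rw [hρ]; linarith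
    rw [mem_union]
    rcases le_or_gt c ⌊ρ⌋ with h3 | h3
    · left
      rw [mem_sdiff, Finset.mem_Icc, mem_Ex h.hq]
      have hrem : c % q ≤ b := by
        have h4 : c % q = b % q := hbc.symm
        rw [h4]
        have h8 := Int.mul_ediv_add_emod b q
        have h9 : 0 ≤ (q : ℤ) * (b / q) := mul_nonneg hqz.le (Int.ediv_nonneg hb hqz.le)
        linarith
      have hrem' : (((c % q : ℤ)) : ℝ) ≤ b := by exact_mod_cast hrem
      have h0 : (0 : ℝ) ≤ ((c % q : ℤ) : ℝ) := by exact_mod_cast Int.emod_nonneg c hqz.ne'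
      have h5 : c₀ ≤ c - 9 * q * (c % q) := by
        rw [hc₀]
        apply Int.ceil_le.2
        push_cast
        have e3 : 9 * (q : ℝ) * ((c % q : ℤ) : ℝ) ≤ 3 * s * b := by
          have : 9 * (q : ℝ) * ((c % q : ℤ) : ℝ) ≤ 9 * q * b := mul_le_mul_of_nonneg_left hrem' (by positivity)
          have : 9 * (q : ℝ) * b ≤ 3 * s * b := mul_le_mul_of_nonneg_right (by linarith) hb'
          linarith
        linarith
      have h6 : (0 : ℤ) ≤ 9 * q * (c % q) := by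
        have := Int.emod_nonneg c hqz.ne'
        positivity
      refine ⟨⟨by linarith, h3⟩, ?_⟩
      rintro ⟨_, h7⟩
      linarith
    · right
      rw [Finset.mem_Ioc]
      refine ⟨h3, ?_⟩
      rw [Int.le_floor]
      -- `s (c - ρ) ≤ ε (c - L)`
      have h5 : s * (c - ρ) ≤ (s - 3 * q) * (c - L) := by
        have e3 : s * (c - ρ) ≤ s * (3 * (s - 3 * q) * b) := mul_le_mul_of_nonneg_left (by linarith) (by linarith)
        have e4 : (s - 3 * q) * (3 * s * b) ≤ (s - 3 * q) * (c - L) :=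
          mul_le_mul_of_nonneg_left (by linarith) (by linarith)
        linarith
      have h6 : 3 * (q : ℝ) * c ≤ 3 * q * z := by
        have e5 : z = ρ + (s - 3 * q) * (d - s * k) := by linarith
        have e6 : L = ρ - 3 * q * (d - s * k) := by linarith
        rw [e6] at h5
        rw [e5]
        nlinarith
      exact le_of_mul_le_mul_left h6 (by linarith)
  have hEx : Ex q c₀ ⊆ Finset.Icc c₀ ⌊ρ⌋ := by
    intro c hc
    rw [mem_Ex h.hq] at hc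
    rw [Finset.mem_Icc]
    refine ⟨hc.1, ?_⟩
    rw [Int.le_floor]
    have h1 := Int.emod_lt_of_pos c hqz
    have h2 : c ≤ c₀ + 9 * q * (q - 1) - 1 := by
      have : (9 * (q : ℤ)) * (c % q) ≤ 9 * q * (q - 1) := mul_le_mul_of_nonneg_left (by omega) (by positivity)
      linarith [hc.2]
    have h3 : (c : ℝ) ≤ c₀ + 9 * q * (q - 1) - 1 := by exact_mod_cast h2
    linarith
  have h1 := card_le_card hsub
  have h2 := h1.trans (card_union_le _ _)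
  rw [card_sdiff_of_subset hEx, hB] at h2
  have h3 := card_le_card hEx
  have h4 := card_Ex' h.hq c₀
  have h5 : ((Finset.Icc c₀ ⌊ρ⌋).card : ℤ) = max (⌊ρ⌋ + 1 - c₀) 0 := by
    rw [Int.card_Icc, Int.toNat_eq_max]
  have h6 : ((Finset.Ioc ⌊ρ⌋ ⌊z⌋).card : ℤ) = ⌊z⌋ - ⌊ρ⌋ := by
    rw [Int.card_Ioc, Int.toNat_of_nonneg]
    have := Int.floor_le_floor hzρ
    linarith
  have h7 : c₀ ≤ ⌊ρ⌋ + 1 := by
    have : L ≤ ρ := by nlinarith
    rw [hc₀]
    exact (Int.ceil_le_ceil this).trans (Int.ceil_le_floor_add_one ρ)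
  rw [max_eq_left (by linarith)] at h5
  omega

/-- the lower bound -/
theorem RD.lo (h : RD q s τ) {d k : ℕ} (hY : 3 * ((q : ℝ) - 1) ≤ d - s * k) {w : ℤ}
    (hw : (w = 0 ∧ 3 * (s - 3 * q) * (q - 1) ≤
        ⌈(3 * q + 1) * (d : ℝ) / 3 - s * d + 3 * s * q * k⌉ - ((3 * q + 1) * (d : ℝ) / 3 - s * d + 3 * s * q * k)) ∨
      w = 1) :
    ⌊(3 * q + 1) * (d : ℝ) / 3 - s * (s - 3 * q) * k - s * (s - 3 * q)⌋ -
      ⌈(3 * q + 1) * (d : ℝ) / 3 - s * d + 3 * s * q * k⌉ + 1 - EE q - w ≤ (rc (TD d τ) q (3 * q + 1) k : ℤ) := by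
  classical
  have hq := h.q_pos
  have hs := h.hs
  have hs0 := h.hs0
  have hqz : (0 : ℤ) < q := by have := h.hq; positivity
  obtain ⟨X, hX⟩ : ∃ X : ℝ, X = (3 * q + 1) * (d : ℝ) / 3 := ⟨_, rfl⟩
  obtain ⟨L, hL⟩ : ∃ L : ℝ, L = X - s * d + 3 * s * q * k := ⟨_, rfl⟩
  obtain ⟨ρ, hρ⟩ : ∃ ρ : ℝ, ρ = X - (s - 3 * q) * d := ⟨_, rfl⟩
  obtain ⟨z, hz⟩ : ∃ z : ℝ, z = X - s * (s - 3 * q) * k - s * (s - 3 * q) := ⟨_, rfl⟩
  obtain ⟨c₀, hc₀⟩ : ∃ c₀ : ℤ, c₀ = ⌈L⌉ := ⟨_, rfl⟩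
  rw [← hX, ← hL, ← hc₀] at hw
  rw [← hX, ← hL, ← hz, ← hc₀]
  have hk0 : (0 : ℝ) ≤ k := Nat.cast_nonneg k
  have e1 : ρ - L = 3 * q * (d - s * k) := by rw [hρ, hL]; ring
  have hY0 : 0 ≤ (d : ℝ) - s * k := by linarith
  have hLc : L ≤ c₀ := by rw [hc₀]; exact Int.le_ceil L
  have hcL : (c₀ : ℝ) < L + 1 := by rw [hc₀]; exact Int.ceil_lt_add_one L
  have hrL : 9 * (q : ℝ) * (q - 1) ≤ ρ - L := by
    rw [e1]; nlinarith
  -- `(s - 3 q) (s + 3 q) = 1`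
  have hε : (s - 3 * q) * (s + 3 * q) = 1 := by linear_combination hs
  have hε1 : 3 * (s - 3 * q) * (q - 1) ≤ 1 := by nlinarith
  -- the set of the lines
  obtain ⟨W, hW⟩ : ∃ W : Finset ℤ, W = if w = 0 then ∅ else {c₀ + 9 * q * (c₀ % q)} := ⟨_, rfl⟩
  have hWc : (W.card : ℤ) = w := by
    rw [hW]
    rcases hw with ⟨h0, -⟩ | h0
    · rw [if_pos h0, h0]; rfl
    · rw [if_neg (by omega), h0]; rfl
  obtain ⟨B, hB⟩ : ∃ B : Finset ℤ, B = ((Finset.Icc c₀ ⌊ρ⌋ \ Ex q c₀) \ W) ∪ Finset.Ioc ⌊ρ⌋ ⌊z⌋ := ⟨_, rfl⟩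
  have hle : B.card ≤ rc (TD d τ) q (3 * q + 1) k := by
    apply card_le_rc
    intro c hc
    rw [h.row]
    rw [hB, mem_union] at hc
    rcases hc with hc | hc
    · rw [mem_sdiff, mem_sdiff, Finset.mem_Icc, mem_Ex h.hq] at hc
      obtain ⟨⟨⟨h1, h2⟩, h3⟩, h4⟩ := hc
      have hr0 := Int.emod_nonneg c hqz.ne'
      have hr1 := Int.emod_lt_of_pos c hqz
      have h5 : c₀ + 9 * q * (c % q) ≤ c := by
        by_contra hcon
        exact h3 ⟨h1, not_le.1 hcon⟩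
      have hr0' : (0 : ℝ) ≤ ((c % q : ℤ) : ℝ) := by exact_mod_cast hr0
      have hr1' : ((c % q : ℤ) : ℝ) ≤ q - 1 := by
        have : c % q ≤ q - 1 := by omega
        exact_mod_cast this
      have hρc : (c : ℝ) ≤ ρ := Int.le_floor.1 h2
      refine ⟨c % q, hr0, Int.mod_modEq c q, ?_, ?_⟩
      · rw [← hX]
        have h6 : L + 3 * s * ((c % q : ℤ) : ℝ) ≤ c := by
          have h7 : 3 * s * ((c % q : ℤ) : ℝ) = 9 * q * ((c % q : ℤ) : ℝ) + 3 * (s - 3 * q) * ((c % q : ℤ) : ℝ) := by ring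
          have h8 : 3 * (s - 3 * q) * ((c % q : ℤ) : ℝ) ≤ 3 * (s - 3 * q) * (q - 1) :=
            mul_le_mul_of_nonneg_left hr1' (by linarith)
          rcases hw with ⟨h0, h9⟩ | h0
          · have h5' : (c₀ : ℝ) + 9 * q * ((c % q : ℤ) : ℝ) ≤ c := by exact_mod_cast h5
            linarith
          · have h10 : c₀ + 9 * q * (c % q) + 1 ≤ c := by
              rcases h5.lt_or_eq with h11 | h11
              · exact h11
              · exfalso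
                apply h4
                rw [hW, if_neg (by omega), mem_singleton]
                have h12 : c % q = c₀ % q := by
                  rw [← h11]
                  have : (c₀ + 9 * q * (c % q)) = c₀ + q * (9 * (c % q)) := by ring
                  rw [h11] at this ⊢
                  rw [this, Int.add_mul_emod_self_left]
                rw [← h12]
                exact h11.symm
            have h10' : (c₀ : ℝ) + 9 * q * ((c % q : ℤ) : ℝ) + 1 ≤ c := by exact_mod_cast h10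
            linarith
        rw [hL] at h6
        linarith
      · rw [← hX]
        have : 0 ≤ (s - 3 * q) * (3 * ((c % q : ℤ) : ℝ)) := mul_nonneg (by linarith) (by positivity)
        rw [hρ] at hρc
        linarith
    · rw [Finset.mem_Ioc] at hc
      obtain ⟨h1, h2⟩ := hc
      have h1' : ρ < c := Int.floor_lt.1 h1
      have h2' : (c : ℝ) ≤ z := Int.le_floor.1 h2
      have hε0 : 0 < s - 3 * q := by linarith
      obtain ⟨β, hβ⟩ : ∃ β : ℝ, β = (c - ρ) / (3 * (s - 3 * q)) := ⟨_, rfl⟩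
      have hβ1 : 3 * (s - 3 * q) * β = c - ρ := by rw [hβ]; field_simp
      have hβ0 : 0 ≤ β := by rw [hβ]; exact div_nonneg (by linarith) (by linarith)
      have hr0 := Int.emod_nonneg (c - ⌈β⌉) hqz.ne'
      have hr1 := Int.emod_lt_of_pos (c - ⌈β⌉) hqz
      have hr0' : (0 : ℝ) ≤ (((c - ⌈β⌉) % q : ℤ) : ℝ) := by exact_mod_cast hr0
      have hr1' : (((c - ⌈β⌉) % q : ℤ) : ℝ) ≤ q - 1 := by
        have : (c - ⌈β⌉) % q ≤ q - 1 := by omega
        exact_mod_cast this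
      have hc1 := Int.le_ceil β
      have hc2 := Int.ceil_lt_add_one β
      refine ⟨⌈β⌉ + (c - ⌈β⌉) % q, ?_, ?_, ?_, ?_⟩
      · have := Int.ceil_nonneg hβ0
        linarith
      · have h3 := (Int.mod_modEq (c - ⌈β⌉) q).add_left ⌈β⌉
        rwa [show ⌈β⌉ + (c - ⌈β⌉) = c by ring] at h3
      · rw [← hX]
        push_cast
        have h3 : 3 * s * (⌈β⌉ + (((c - ⌈β⌉) % q : ℤ) : ℝ)) ≤ 3 * s * (β + q) :=
          mul_le_mul_of_nonneg_left (by linarith) (by linarith)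
        -- `3 s β = (c - ρ) + 3 q (c - ρ) / ε`
        have h4 : 3 * s * β = (c - ρ) + 9 * q * β := by
          rw [← hβ1]; ring
        have h5 : 9 * (q : ℝ) * β ≤ 3 * q * (d - s * k) - 3 * q * s := by
          have h6 : c - ρ ≤ (s - 3 * q) * (d - s * k) - s * (s - 3 * q) := by
            have : z = ρ + (s - 3 * q) * (d - s * k) - s * (s - 3 * q) := by rw [hz, hρ]; ring
            linarith
          have h7 : 3 * (s - 3 * q) * β ≤ (s - 3 * q) * (d - s * k - s) := by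
            rw [hβ1]; linarith
          have h8 : 3 * β ≤ d - s * k - s := by
            have : (s - 3 * q) * (3 * β) ≤ (s - 3 * q) * (d - s * k - s) := by linarith
            exact le_of_mul_le_mul_left this hε0
          nlinarith
        rw [hρ] at h4
        linarith
      · rw [← hX]
        push_cast
        have h3 : 3 * (s - 3 * q) * β ≤ 3 * (s - 3 * q) * (⌈β⌉ + (((c - ⌈β⌉) % q : ℤ) : ℝ)) :=
          mul_le_mul_of_nonneg_left (by linarith) (by linarith)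
        rw [hβ1, hρ] at h3
        linarith
  have hdisj : Disjoint ((Finset.Icc c₀ ⌊ρ⌋ \ Ex q c₀) \ W) (Finset.Ioc ⌊ρ⌋ ⌊z⌋) := by
    rw [disjoint_left]
    intro c hc hc'
    rw [mem_sdiff, mem_sdiff, Finset.mem_Icc] at hc
    rw [Finset.mem_Ioc] at hc'
    have := hc.1.1.2
    omega
  rw [hB, card_union_of_disjoint hdisj] at hle
  have h1 := le_card_sdiff W (Finset.Icc c₀ ⌊ρ⌋ \ Ex q c₀)
  have h2 := le_card_sdiff (Ex q c₀) (Finset.Icc c₀ ⌊ρ⌋)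
  have h4 := card_Ex' h.hq c₀
  have h5 : ((Finset.Icc c₀ ⌊ρ⌋).card : ℤ) = max (⌊ρ⌋ + 1 - c₀) 0 := by
    rw [Int.card_Icc, Int.toNat_eq_max]
  have h6 : ((Finset.Ioc ⌊ρ⌋ ⌊z⌋).card : ℤ) = max (⌊z⌋ - ⌊ρ⌋) 0 := by
    rw [Int.card_Ioc, Int.toNat_eq_max]
  have h7 : ⌊ρ⌋ + 1 - c₀ ≤ max (⌊ρ⌋ + 1 - c₀) 0 := le_max_left _ _
  have h8 : ⌊z⌋ - ⌊ρ⌋ ≤ max (⌊z⌋ - ⌊ρ⌋) 0 := le_max_left _ _
  omega

/-- the ceiling in the bounds -/
theorem RD.ceil_eq (h : RD q s τ) (d k : ℕ) :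
    ⌈(3 * q + 1) * (d : ℝ) / 3 - s * d + 3 * s * q * k⌉ = (9 * q ^ 2 + 1) * k -
      ⌊s * d - (3 * q + 1) * (d : ℝ) / 3 + s * (s - 3 * q) * k⌋ := by
  have hs := h.hs
  have e : (3 * q + 1) * (d : ℝ) / 3 - s * d + 3 * s * q * k =
      -(s * d - (3 * q + 1) * (d : ℝ) / 3 + s * (s - 3 * q) * k) + (((9 * (q : ℤ) ^ 2 + 1) * k : ℤ) : ℝ) := by
    push_cast
    linear_combination (k : ℝ) * hs
  rw [e, Int.ceil_add_intCast, Int.ceil_neg]
  ring

theorem RD.eps (h : RD q s τ) : (s - 3 * q) * (s + 3 * q) = 1 ∧ s * (s - 3 * q) = (1 + (s - 3 * q) ^ 2) / 2 ∧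
    3 * (s - 3 * q) * (q - 1) ≤ 1 / 2 - 3 * (s - 3 * q) ∧ s - 3 * q ≤ 1 / 6 ∧ 0 < s - 3 * q := by
  have hq := h.q_pos
  have hs := h.hs
  have hs0 := h.hs0
  have h1 : (s - 3 * q) * (s + 3 * q) = 1 := by linear_combination hs
  have h2 : 0 < s - 3 * q := by linarith
  have h3 : (s - 3 * q) * (6 * q) ≤ 1 := by nlinarith
  refine ⟨h1, ?_, ?_, ?_, h2⟩
  · linear_combination (1 / 2) * h1
  · nlinarith
  · nlinarith

/-- **The values of the rows.** -/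
theorem RD.facts (h : RD q s τ) {d k : ℕ} (hY : 3 * ((q : ℝ) - 1) ≤ d - s * k) :
    (rc (TD d τ) q (3 * q + 1) k : ℤ) ≤ ⌊s * (d : ℝ)⌋ - (9 * q ^ 2 + 1) * k - EE q + 1 ∧
    ⌊s * (d : ℝ)⌋ - (9 * q ^ 2 + 1) * k - EE q - 1 ≤ (rc (TD d τ) q (3 * q + 1) k : ℤ) ∧
    (Int.fract (s * (d : ℝ)) < Int.fract (s * d - (3 * q + 1) * (d : ℝ) / 3 + s * (s - 3 * q) * k) →
      3 * (s - 3 * q) * (q - 1) ≤ Int.fract (s * d - (3 * q + 1) * (d : ℝ) / 3 + s * (s - 3 * q) * k) →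
      Int.fract (s * d - (3 * q + 1) * (d : ℝ) / 3 + s * (s - 3 * q) * k) ≤
        1 + Int.fract (s * (d : ℝ)) - s * (s - 3 * q) →
      (rc (TD d τ) q (3 * q + 1) k : ℤ) = ⌊s * (d : ℝ)⌋ - (9 * q ^ 2 + 1) * k - EE q) := by
  obtain ⟨hε, hκ, hε1, hε2, hε0⟩ := h.eps
  have hs := h.hs
  have hup := h.up hY
  have hlo1 := h.lo hY (w := 1) (Or.inr rfl)
  have hlo0 := h.lo hY (w := 0)
  have hce := h.ceil_eq d k
  have hφ : (⌈(3 * q + 1) * (d : ℝ) / 3 - s * d + 3 * s * q * k⌉ : ℝ) -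
      ((3 * q + 1) * (d : ℝ) / 3 - s * d + 3 * s * q * k) =
      Int.fract (s * d - (3 * q + 1) * (d : ℝ) / 3 + s * (s - 3 * q) * k) := by
    rw [hce]
    have : Int.fract (s * d - (3 * q + 1) * (d : ℝ) / 3 + s * (s - 3 * q) * k) =
        (s * d - (3 * q + 1) * (d : ℝ) / 3 + s * (s - 3 * q) * k) -
        ⌊s * d - (3 * q + 1) * (d : ℝ) / 3 + s * (s - 3 * q) * k⌋ := rfl
    rw [this]
    push_cast
    linear_combination (-(k : ℝ)) * hs
  rw [hφ] at hlo0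
  rw [hce] at hup hlo1 hlo0
  obtain ⟨x, hx⟩ : ∃ x : ℝ, x = s * d - (3 * q + 1) * (d : ℝ) / 3 + s * (s - 3 * q) * k := ⟨_, rfl⟩
  obtain ⟨κ, hκ'⟩ : ∃ κ : ℝ, κ = s * (s - 3 * q) := ⟨_, rfl⟩
  obtain ⟨E, hE⟩ : ∃ E : ℝ, E = s * (d : ℝ) := ⟨_, rfl⟩
  rw [← hκ'] at hκ
  have hzx : (3 * q + 1) * (d : ℝ) / 3 - s * (s - 3 * q) * k = E - x := by rw [hx, hE]; ring
  rw [← hx, ← hE, ← hκ']
  rw [← hx] at hup hlo1 hlo0
  rw [hzx, ← hκ'] at hlo1 hlo0
  rw [hzx] at hup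
  have hxf : x = ⌊x⌋ + Int.fract x := (Int.floor_add_fract x).symm
  have hEf : E = ⌊E⌋ + Int.fract E := (Int.floor_add_fract E).symm
  have hf0 := Int.fract_nonneg x
  have hf1 := Int.fract_lt_one x
  have hg0 := Int.fract_nonneg E
  have hg1 := Int.fract_lt_one E
  have hκ1 : κ ≤ 1 := by rw [hκ]; nlinarith
  have hκ0 : 0 ≤ κ := by rw [hκ]; positivity
  -- the floor in the lower bound
  have hfl : ∀ t : ℤ, (t : ℝ) ≤ Int.fract E - κ - Int.fract x → ⌊E⌋ + t ≤ ⌊E - x - κ⌋ + ⌊x⌋ := by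
    intro t ht
    have : ⌊E⌋ + t - ⌊x⌋ ≤ ⌊E - x - κ⌋ := by
      rw [Int.le_floor]
      push_cast
      linarith
    linarith
  refine ⟨?_, ?_, ?_⟩
  · have : ⌊E - x⌋ + ⌊x⌋ ≤ ⌊E⌋ := by
      have := Int.le_floor_add (E - x) x
      rwa [sub_add_cancel] at this
    linarith
  · rcases lt_or_ge (Int.fract x) (3 * (s - 3 * q) * (q - 1)) with h1 | h1
    · have := hfl (-1) (by
        push_cast
        have : (s - 3 * q) ^ 2 ≤ s - 3 * q := by nlinarith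
        linarith)
      linarith
    · have h2 := hlo0 (Or.inl ⟨rfl, h1⟩)
      have := hfl (-2) (by push_cast; linarith)
      linarith
  · intro h1 h2 h3
    have h4 := hlo0 (Or.inl ⟨rfl, h2⟩)
    have h5 := hfl (-1) (by push_cast; linarith)
    have h6 : ⌊E - x⌋ + ⌊x⌋ ≤ ⌊E⌋ - 1 := by
      have : ⌊E - x⌋ < ⌊E⌋ - ⌊x⌋ := by
        rw [Int.floor_lt]
        push_cast
        linarith
      linarith
    apply le_antisymm
    · linarith
    · linarith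

end Pool.Agent.Run7.h968
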