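import Pool.Agent.Run7.h968.Tri

/-! The rows for `a = 10`. -/

namespace Pool.Agent.Run7.h968

open Finset Pool.Agent.TH183.QC Pool.Agent.TH176.Nag Pool.Agent.TH387.SH Pool.Agent.TH641.NW

theorem floor_add_le (a b : ℝ) : ⌊a⌋ + ⌊b⌋ ≤ ⌊a + b⌋ := Int.le_floor_add a b

/-- the rows as unions of intervals -/
theorem row_one {d : ℕ} {τ K : ℝ} (hirr : Irrational τ) (hK : 3 * (1 + τ) + 5 = K) (hK9 : 9 ≤ K) {k : ℕ}
    {c : ℤ} : k < ln (TD d τ) 1 5 c ↔ c ∈ U (5 * d / 3 - K / 3 * (d - 3 * k)) (3 * d - K * k) K := by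
  rw [row_iff (q := 1) (p' := 5) (u := 1) (v := 0) hirr (by norm_num) one_pos (K := K)
    (by push_cast; linarith) (by push_cast; linarith)]
  constructor
  · rintro ⟨b, hb, -, h1, h2⟩
    obtain ⟨b, rfl⟩ := Int.eq_ofNat_of_zero_le hb
    push_cast at h1 h2
    exact ⟨b, by linarith, by linarith⟩
  · rintro ⟨b, h1, h2⟩
    refine ⟨b, by simp, ⟨c - 5 * b, by ring⟩, ?_, ?_⟩
    · push_cast; linarith
    · push_cast; linarith

theorem rc_NN {d : ℕ} {τ K : ℝ} (hirr : Irrational τ) (hK : 3 * (1 + τ) + 5 = K) (hK9 : 9 ≤ K) {k : ℕ}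
    {h Q : ℕ} (hhQ : h ≤ Q) (hQ1 : 9 * (Q : ℝ) ≤ 3 * d - K * k) (hQ2 : 3 * d - K * k < 9 * (Q + 1))
    (hh1 : ∀ s : ℕ, s < h → K ≤ 3 * d - K * k - 9 * s) (hh2 : 3 * d - K * k - 9 * h < K) :
    (rc (TD d τ) 1 5 k : ℤ) = NN (5 * d / 3 - K / 3 * (d - 3 * k)) (3 * d - K * k) K h Q := by
  apply le_antisymm
  · obtain ⟨B, hB, hB2⟩ := exists_rc (TD d τ) 1 5 k
    rw [← hB]
    exact card_le_NN hK9 hhQ hQ1 hQ2 fun c hc => (row_one hirr hK hK9).1 (hB2 c hc)
  · obtain ⟨B, hB, hB2⟩ := exists_NN (x := 5 * d / 3 - K / 3 * (d - 3 * k)) hK9 hhQ hQ1 hh1 hh2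
    rw [← hB2]
    exact_mod_cast card_le_rc fun c hc => (row_one hirr hK hK9).2 (hB c hc)

theorem rc_zero {d : ℕ} {τ K : ℝ} (hirr : Irrational τ) (hK : 3 * (1 + τ) + 5 = K) (hK9 : 9 ≤ K) {k : ℕ}
    (h : 3 * (d : ℝ) - K * k < 0) : rc (TD d τ) 1 5 k = 0 := by
  obtain ⟨B, hB, hB2⟩ := exists_rc (TD d τ) 1 5 k
  rw [← hB, card_eq_zero, eq_empty_iff_forall_notMem]
  intro c hc
  exact U_empty h ((row_one hirr hK hK9).1 (hB2 c hc))

/-- the values of the rows -/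
theorem rc_val {d : ℕ} {τ K : ℝ} (hirr : Irrational τ) (hK : 3 * (1 + τ) + 5 = K) (hK2 : K * K = 90)
    (hK9 : 9 ≤ K) {k : ℕ} (hY : 0 ≤ 3 * (d : ℝ) - K * k) :
    (rc (TD d τ) 1 5 k : ℤ) ≤ ⌊K / 3 * d⌋ - 10 * k + 1 ∧ ⌊K / 3 * d⌋ - 10 * k - 1 ≤ (rc (TD d τ) 1 5 k : ℤ) ∧
      (10 - K ≤ Int.fract (5 * (d : ℝ) / 3 - (10 - K) * k) → Int.fract (K / 3 * d) <
        Int.fract (5 * (d : ℝ) / 3 - (10 - K) * k) → (rc (TD d τ) 1 5 k : ℤ) = ⌊K / 3 * d⌋ - 10 * k) := by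
  have hKu : K < 9.4869 := by nlinarith
  obtain ⟨h, Q, hhQ, hQ1, hQ2, hh1, hh2, -, -⟩ := exists_hQ hK9 hY
  rw [rc_NN hirr hK hK9 hhQ hQ1 hQ2 hh1 hh2]
  obtain ⟨y, hy⟩ : ∃ y : ℝ, y = 3 * d - K * k - 9 * Q := ⟨_, rfl⟩
  obtain ⟨z, hz⟩ : ∃ z : ℝ, z = 5 * d / 3 - (10 - K) * k := ⟨_, rfl⟩
  obtain ⟨δ, hδ⟩ : ∃ δ : ℝ, δ = (K - 9) * y / 9 := ⟨_, rfl⟩
  have hy0 : 0 ≤ y := by rw [hy]; linarith
  have hy9 : y < 9 := by rw [hy]; linarith
  have hδ0 : 0 ≤ δ := by rw [hδ]; apply div_nonneg (mul_nonneg (by linarith) hy0) (by norm_num)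
  have hδ1 : δ < K - 9 + 0.0001 := by rw [hδ]; nlinarith
  have hδ2 : δ < 10 - K := by linarith
  have e1 : 5 * (d : ℝ) / 3 - K / 3 * (d - 3 * k) + (3 * d - K * k) + (K - 9) * Q = z - δ := by
    rw [hδ, hy, hz]
    linear_combination (-(k : ℝ) / 9) * hK2
  have e2 : 5 * (d : ℝ) / 3 - K / 3 * (d - 3 * k) = -((K / 3 * d - z) + ((-(10 * (k : ℤ)) : ℤ) : ℝ)) := by
    rw [hz]; push_cast; ring
  have e3 : 5 * (d : ℝ) / 3 - K / 3 * (d - 3 * k) + K * Q = z - δ - y := by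
    rw [← e1, hy]; ring
  have hc : ⌈5 * (d : ℝ) / 3 - K / 3 * (d - 3 * k)⌉ = -(⌊K / 3 * d - z⌋ - 10 * k) := by
    rw [e2, Int.ceil_neg, Int.floor_add_intCast]; ring
  obtain ⟨S, hS⟩ : ∃ S : ℝ, S = K / 3 * d := ⟨_, rfl⟩
  rw [← hS, ← hz]
  rw [← hS] at hc
  have f1 := Int.floor_le S
  have f2 := Int.lt_floor_add_one S
  have f3 := Int.floor_le (S - z)
  have f4 := Int.lt_floor_add_one (S - z)
  have f5 := Int.floor_le (z - δ)
  have f6 := Int.lt_floor_add_one (z - δ)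
  have f7 := Int.floor_le z
  have f8 := Int.lt_floor_add_one z
  have hfr : Int.fract z = z - ⌊z⌋ := rfl
  have hfS : Int.fract S = S - ⌊S⌋ := rfl
  have hQh : Q = h ∨ Q = h + 1 := by
    have h1 : ((Q : ℕ) : ℝ) < h + 2 := by linarith
    have h2 : Q < h + 2 := by exact_mod_cast h1
    omega
  -- the upper bound
  have hup : ⌊z - δ⌋ + ⌊S - z⌋ ≤ ⌊S⌋ := by
    refine (Int.le_floor_add _ _).trans (Int.floor_le_floor ?_)
    linarith
  rcases hQh with hQh | hQh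
  · subst hQh
    unfold NN
    rw [Ioc_self, sum_empty, add_zero, e1, hc]
    refine ⟨by omega, ?_, ?_⟩
    · have h1 : ((⌊S⌋ - 3 : ℤ) : ℝ) < ((⌊z - δ⌋ + ⌊S - z⌋ : ℤ) : ℝ) := by
        push_cast; linarith
      have h2 : ⌊S⌋ - 3 < ⌊z - δ⌋ + ⌊S - z⌋ := by exact_mod_cast h1
      omega
    · intro g1 g2
      have h1 : ⌊z - δ⌋ = ⌊z⌋ := by
        rw [Int.floor_eq_iff]
        rw [hfr] at g1
        exact ⟨by linarith, by linarith⟩
      have h2 : ⌊S - z⌋ = ⌊S⌋ - ⌊z⌋ - 1 := by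
        rw [Int.floor_eq_iff]
        rw [hfr, hfS] at g2
        push_cast
        exact ⟨by linarith, by linarith⟩
      rw [h1, h2]
      ring
  · -- two intervals
    have hyK : y < K - 9 := by
      rw [hy, hQh]
      push_cast
      linarith
    unfold NN
    have hI : Ioc h Q = {Q} := by
      rw [hQh]
      ext s
      simp only [mem_Ioc, mem_singleton]
      omega
    rw [hI, sum_singleton, e1, e3, hc]
    have e4 : 5 * (d : ℝ) / 3 - K / 3 * (d - 3 * k) + (3 * d - K * k) + (K - 9) * h = z - δ - (K - 9) := by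
      rw [← e1, hQh]
      push_cast
      ring
    rw [e4]
    have f9 := Int.floor_le (z - δ - (K - 9))
    have f10 := Int.lt_floor_add_one (z - δ - (K - 9))
    have f11 := Int.le_ceil (z - δ - y)
    have f12 := Int.ceil_lt_add_one (z - δ - y)
    have hk1 : ⌊z - δ - (K - 9)⌋ + 1 ≤ ⌈z - δ - y⌉ := by
      have h1 : (⌊z - δ - (K - 9)⌋ : ℝ) < (⌈z - δ - y⌉ : ℝ) := by linarith
      have h2 : ⌊z - δ - (K - 9)⌋ < ⌈z - δ - y⌉ := by exact_mod_cast h1
      omega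
    have hk2 : ⌈z - δ - y⌉ ≤ ⌊z - δ⌋ + 1 := by
      rw [Int.ceil_le]; push_cast; linarith
    have hδ3 : δ + (K - 9) < 10 - K := by
      have : δ < (K - 9) * (K - 9) / 9 := by
        rw [hδ]
        have h9 : 0 ≤ K - 9 := by linarith
        rcases h9.lt_or_eq with h10 | h10
        · have := mul_lt_mul_of_pos_left hyK h10
          linarith
        · exfalso
          have : K = 9 := by linarith
          rw [this] at hK2
          norm_num at hK2
      nlinarith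
    have hδ4 : δ + y < 10 - K := by
      have : δ + y < (K - 9) * K / 9 := by
        rw [hδ]
        have h1 : (K - 9) * y / 9 + y = y * K / 9 := by ring
        rw [h1]
        have := mul_lt_mul_of_pos_right hyK (show 0 < K by linarith)
        linarith
      nlinarith
    refine ⟨by omega, ?_, ?_⟩
    · have h1 : ((⌊S⌋ - 3 : ℤ) : ℝ) < ((⌊z - δ - (K - 9)⌋ + ⌊S - z⌋ : ℤ) : ℝ) := by
        push_cast; linarith
      have h2 : ⌊S⌋ - 3 < ⌊z - δ - (K - 9)⌋ + ⌊S - z⌋ := by exact_mod_cast h1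
      omega
    · intro g1 g2
      have h1 : ⌊z - δ⌋ = ⌊z⌋ := by
        rw [Int.floor_eq_iff]
        rw [hfr] at g1
        exact ⟨by linarith, by linarith⟩
      have h2 : ⌊S - z⌋ = ⌊S⌋ - ⌊z⌋ - 1 := by
        rw [Int.floor_eq_iff]
        rw [hfr, hfS] at g2
        push_cast
        exact ⟨by linarith, by linarith⟩
      have h3 : ⌊z - δ - (K - 9)⌋ = ⌊z⌋ := by
        rw [Int.floor_eq_iff]
        rw [hfr] at g1
        exact ⟨by linarith, by linarith⟩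
      have h4 : ⌈z - δ - y⌉ = ⌊z⌋ + 1 := by
        rw [Int.ceil_eq_iff]
        rw [hfr] at g1
        push_cast
        exact ⟨by linarith, by linarith⟩
      rw [h1, h2, h3, h4]
      ring

/-- counting the large fractional parts along an arithmetic progression -/
theorem count_fract (z κ : ℝ) (hκ0 : 0 < κ) (hκ1 : κ < 1) (n : ℕ) :
    (1 - κ) * n - 1 < (((range n).filter fun k : ℕ => κ ≤ Int.fract (z - κ * k)).card : ℝ) := by
  have h1 : ∀ n : ℕ, (((range n).filter fun k : ℕ => κ ≤ Int.fract (z - κ * k)).card : ℤ) =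
      n - (⌊z⌋ - ⌊z - κ * n⌋) := by
    intro n
    induction n with
    | zero => simp
    | succ n ih =>
      have hcard : ((range (n + 1)).filter fun k : ℕ => κ ≤ Int.fract (z - κ * k)).card =
          ((range n).filter fun k : ℕ => κ ≤ Int.fract (z - κ * k)).card +
            (if κ ≤ Int.fract (z - κ * n) then 1 else 0) := by
        rw [range_add_one, filter_insert]
        split_ifs with h5
        · rw [card_insert_of_notMem (by simp)]
        · rfl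
      rw [hcard]
      push_cast
      rw [ih]
      have g1 := Int.floor_le (z - κ * n)
      have g2 := Int.lt_floor_add_one (z - κ * n)
      have hf : Int.fract (z - κ * n) = z - κ * n - ⌊z - κ * n⌋ := rfl
      split_ifs with h5
      · have : ⌊z - κ * (n + 1)⌋ = ⌊z - κ * n⌋ := by
          rw [Int.floor_eq_iff]
          rw [hf] at h5
          exact ⟨by linarith, by linarith⟩
        rw [this]; ring
      · have : ⌊z - κ * (n + 1)⌋ = ⌊z - κ * n⌋ - 1 := by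
          rw [Int.floor_eq_iff]
          rw [hf] at h5
          push_cast
          exact ⟨by linarith, by linarith⟩
        rw [this]; ring
  have h2 := h1 n
  have h3 : (((range n).filter fun k : ℕ => κ ≤ Int.fract (z - κ * k)).card : ℝ) =
      n - (⌊z⌋ - ⌊z - κ * n⌋) := by exact_mod_cast h2
  rw [h3]
  have g1 := Int.floor_le z
  have g2 := Int.lt_floor_add_one (z - κ * n)
  linarith

end Pool.Agent.Run7.h968
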