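import Pool.Agent.Run7.h968.Lev

/-! The substitution with no nonzero polynomial of the given shape, all of whose levels become
palindromic. -/

namespace Pool.Agent.Run7.h968

open Polynomial

/-- the heights of the columns -/
def shp (m i x y l : ℕ) : ℕ := if l < i then 2 * m + 1 else if l = i then x else if l = i + 1 then y else 0

/-- the polynomials of a given shape -/
def Dm (m i x y : ℕ) : Submodule ℚ ℚ[X][X] where
  carrier := {V | ∀ l k, shp m i x y l ≤ k → cf l k V = 0}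
  zero_mem' := fun l k _ => map_zero _
  add_mem' := fun ha hb l k h => by rw [map_add, ha l k h, hb l k h, add_zero]
  smul_mem' := fun c a ha l k h => by rw [map_smul, ha l k h, smul_zero]

theorem mem_Dm {m i x y : ℕ} {V : ℚ[X][X]} : V ∈ Dm m i x y ↔ ∀ l k, shp m i x y l ≤ k → cf l k V = 0 := Iff.rfl

theorem shp_succ (m i x y l : ℕ) : shp m (i + 1) x y (l + 1) = shp m i x y l := by
  unfold shp
  simp only [Nat.add_lt_add_iff_right, Nat.add_right_cancel_iff]

theorem shp_zero_succ (m i x y : ℕ) : shp m (i + 1) x y 0 = 2 * m + 1 := by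
  unfold shp; rw [if_pos (by omega)]

/-- surjectivity -/
def Pa (m i x y : ℕ) (Z : ℚ[X][X]) : Prop :=
  ∀ t : ℕ → ℕ → ℚ, ∃ V ∈ Dm m i x y, ∀ l ≤ 2 * i, ∀ k < m, An m Z l k V = t l k

/-- injectivity -/
def Pb (m i x y : ℕ) (Z : ℚ[X][X]) : Prop :=
  ∀ V ∈ Dm m i x y, (∀ l ≤ 2 * i + 1, ∀ k < m, An m Z l k V = 0) → V = 0

theorem Pa.upd {m i x y : ℕ} {Z : ℚ[X][X]} (h : Pa m i x y Z) {n : ℕ} (hn : 2 * i < n) (ζ : ℚ[X]) :
    Pa m i x y (Z + C (X ^ n) * io ζ) := by
  intro t
  obtain ⟨V, hV, h1⟩ := h t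
  exact ⟨V, hV, fun l hl k hk => by rw [An_upd_lt (by omega)]; exact h1 l hl k hk⟩

theorem Pb.upd {m i x y : ℕ} {Z : ℚ[X][X]} (h : Pb m i x y Z) {n : ℕ} (hn : 2 * i + 1 < n) (ζ : ℚ[X]) :
    Pb m i x y (Z + C (X ^ n) * io ζ) := by
  intro V hV h1
  refine h V hV fun l hl k hk => ?_
  have := h1 l hl k hk
  rwa [An_upd_lt (by omega)] at this

/-- the tail of a polynomial of a given shape -/
theorem Dm_tail {m i x y : ℕ} {V V' : ℚ[X][X]} (hV : V ∈ Dm m (i + 1) x y) (h : V = io (lv V) + C X * V') :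
    V' ∈ Dm m i x y := by
  intro l k hk
  have h1 := hV (l + 1) k (by rw [shp_succ]; exact hk)
  rw [h, map_add, cf_io, if_neg (by omega), zero_add, cf_X_mul_succ] at h1
  exact h1

theorem Dm_cons {m i x y : ℕ} {v : ℚ[X]} (hv : ∀ k, 2 * m < k → v.coeff k = 0) {V' : ℚ[X][X]}
    (hV : V' ∈ Dm m i x y) : io v + C X * V' ∈ Dm m (i + 1) x y := by
  intro l k hk
  rcases l with _ | l
  · rw [shp_zero_succ] at hk
    rw [map_add, cf_io, if_pos rfl, cf_X_mul_zero, add_zero]
    exact hv k (by omega)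
  · rw [shp_succ] at hk
    rw [map_add, cf_io, if_neg (by omega), cf_X_mul_succ, zero_add]
    exact hV l k hk

theorem lv_cons (v : ℚ[X]) (V' : ℚ[X][X]) : lv (io v + C X * V') = v := by
  ext k
  rw [lv_coeff, map_add, cf_io, if_pos rfl, cf_X_mul_zero, add_zero]

/-- the base of the induction, surjectivity -/
theorem Pa_base {m x y : ℕ} (hx : m ≤ x) {Z : ℚ[X][X]} (hZ : Uni Z) : Pa m 0 x y Z := by
  intro t
  refine ⟨io (∑ k ∈ Finset.range m, C (t 0 k) * X ^ k), ?_, ?_⟩
  · intro l k hk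
    rw [cf_io]
    split_ifs with hl
    · subst hl
      simp only [finsetSum_coeff, coeff_C_mul_X_pow]
      apply Finset.sum_eq_zero
      intro j hj
      rw [if_neg]
      have := Finset.mem_range.1 hj
      unfold shp at hk
      simp at hk
      omega
    · rfl
  · intro l hl k hk
    have hl0 : l = 0 := by omega
    subst hl0
    rw [An_zero hZ, lv_io, an_apply]
    simp only [finsetSum_coeff, coeff_C_mul_X_pow]
    rw [Finset.sum_ite_eq, if_pos (Finset.mem_range.2 hk), Finset.sum_ite_eq, if_neg, sub_zero]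
    rw [Finset.mem_range]
    omega

/-- the base of the induction, injectivity -/
theorem Pb_base {m p x y : ℕ} (hx : m ≤ x) (hxy : x + y + p = 2 * m) :
    Pb m 0 x y (X + C (X ^ 1) * io 1) := by
  have hX : Uni (X : ℚ[X][X]) := by unfold Uni; rw [sub_self]; exact dvd_zero _
  intro V hV h1
  have h0 : ∀ k < m, (lv V).coeff k = (lv V).coeff (2 * m - k) := by
    intro k hk
    have := h1 0 (by omega) k hk
    rw [An_upd_lt (by omega), An_zero hX, an_apply] at this
    exact sub_eq_zero.1 this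
  have hz : ∀ k, x ≤ k → (lv V).coeff k = 0 := by
    intro k hk
    rw [lv_coeff]
    exact hV 0 k (by unfold shp; simpa using hk)
  have hz2 : ∀ k, y ≤ k → cf 1 k V = 0 := by
    intro k hk
    exact hV 1 k (by unfold shp; simpa using hk)
  have hz3 : ∀ l, 2 ≤ l → ∀ k, cf l k V = 0 := by
    intro l hl k
    refine hV l k ?_
    unfold shp
    rw [if_neg (by omega), if_neg (by omega), if_neg (by omega)]
    exact Nat.zero_le _
  have hrec : ∀ k < m, y ≤ k → (k + 1) * (lv V).coeff (k + 1) =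
      ((2 * m - k : ℕ) + 1) * (lv V).coeff (2 * m - k + 1) := by
    intro k hk hy
    have := h1 1 (by omega) k hk
    rw [An_upd hX le_rfl, An_apply, sb_self, hz2 k hy, hz2 (2 * m - k) (by omega), an_apply, one_mul,
      coeff_derivative, coeff_derivative] at this
    linear_combination this
  have hsym : ∀ k ≤ 2 * m, (lv V).coeff k = (lv V).coeff (2 * m - k) := by
    intro k hk
    rcases lt_trichotomy k m with h2 | h2 | h2
    · exact h0 k h2
    · subst h2; congr 1; omega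
    · rw [h0 (2 * m - k) (by omega)]
      congr 1; omega
  have hlow : ∀ k ≤ m, (lv V).coeff k = 0 := by
    intro k
    induction k using Nat.strong_induction_on with
    | _ k ih =>
      intro hk
      rcases Nat.lt_or_ge y k with hyk | hyk
      · obtain ⟨j, rfl⟩ : ∃ j, k = j + 1 := ⟨k - 1, by omega⟩
        have h2 := hrec j (by omega) (by omega)
        have h3 : (lv V).coeff (2 * m - j + 1) = 0 := by
          rcases Nat.eq_zero_or_pos j with hj | hj
          · exact hz _ (by omega)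
          · rw [hsym _ (by omega)]
            exact ih _ (by omega) (by omega)
        rw [h3, mul_zero] at h2
        have : ((j : ℚ) + 1) ≠ 0 := by positivity
        exact (mul_eq_zero.1 h2).resolve_left this
      · rw [hsym k (by omega)]
        exact hz _ (by omega)
  have hl0 : lv V = 0 := by
    ext k
    rw [coeff_zero]
    rcases Nat.lt_or_ge m k with h2 | h2
    · rcases Nat.lt_or_ge (2 * m) k with h3 | h3
      · exact hz k (by omega)
      · rw [hsym k h3]; exact hlow _ (by omega)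
    · exact hlow k h2
  apply cf_ext
  intro l k
  rw [map_zero]
  rcases l with _ | _ | l
  · rw [← lv_coeff, hl0, coeff_zero]
  · rcases Nat.lt_or_ge k m with h2 | h2
    · have := h1 1 (by omega) k h2
      rw [An_upd hX le_rfl, An_apply, sb_self, hl0, derivative_zero, mul_zero, map_zero, add_zero,
        hz2 (2 * m - k) (by omega), sub_zero] at this
      exact this
    · exact hz2 k (by omega)
  · exact hz3 _ (by omega) k

/-- a palindromic polynomial with a prescribed antisymmetric part of the derivative -/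
theorem exists_pal (m : ℕ) (r : ℕ → ℚ) : ∃ v ∈ Pal m, ∀ k < m, an m k (derivative v) = r k := by
  have hex : ∃ c : ℕ → ℚ, ∀ k < m, (k + 1) * c (k + 1) =
      (if k = 0 then 0 else (2 * m - k + 1) * c (k - 1)) + r k := by
    let c : ℕ → ℚ := fun n => Nat.strongRec (motive := fun _ => ℚ) (fun n ih =>
      if h : n = 0 then 0 else if h' : n = 1 then r 0 else
        ((2 * m - (n - 1) + 1) * ih (n - 2) (by omega) + r (n - 1)) / n) n
    have hc : ∀ n, c n = if n = 0 then 0 else if n = 1 then r 0 else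
        ((2 * m - (n - 1) + 1) * c (n - 2) + r (n - 1)) / n := by
      intro n
      simp only [c]
      rw [Nat.strongRec_eq]
      rfl
    refine ⟨c, fun k _ => ?_⟩
    rw [hc (k + 1), if_neg (by omega)]
    rcases Nat.eq_zero_or_pos k with rfl | hk
    · simp
    · rw [if_neg (by omega), if_neg (by omega)]
      have : ((k : ℚ) + 1) ≠ 0 := by positivity
      have e1 : k + 1 - 2 = k - 1 := by omega
      rw [e1, Nat.add_sub_cancel]
      push_cast
      field_simp
      ring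
  obtain ⟨c, hc⟩ := hex
  have hco : ∀ n, (∑ k ∈ Finset.range (2 * m + 1), C (if k ≤ m then c k else c (2 * m - k)) * X ^ k).coeff n =
      if n ≤ 2 * m then (if n ≤ m then c n else c (2 * m - n)) else 0 := by
    intro n
    simp only [finsetSum_coeff, coeff_C_mul_X_pow]
    rw [Finset.sum_ite_eq]
    simp only [Finset.mem_range, Nat.lt_succ_iff]
  refine ⟨∑ k ∈ Finset.range (2 * m + 1), C (if k ≤ m then c k else c (2 * m - k)) * X ^ k, ?_, ?_⟩
  · refine ⟨fun k hk => ?_, fun k hk => ?_⟩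
    · rw [hco, if_neg (by omega)]
    · rw [hco, hco, if_pos (by omega), if_pos (by omega), if_pos (by omega), if_neg (by omega)]
      congr 1; omega
  · intro k hk
    rw [an_apply, coeff_derivative, coeff_derivative, hco, hco, if_pos (by omega), if_pos (by omega)]
    have h3 := hc k hk
    have e1 : ((2 * m - k : ℕ) : ℚ) = 2 * m - k := by
      rw [Nat.cast_sub (by omega)]; push_cast; ring
    rw [e1]
    split_ifs at h3 with h0
    · subst h0
      rw [if_neg (by omega)]
      push_cast at h3 ⊢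
      linear_combination h3
    · rw [if_pos (by omega), if_neg (by omega)]
      have e2 : 2 * m - (2 * m - k + 1) = k - 1 := by omega
      rw [e2]
      linear_combination h3

/-- the step, surjectivity -/
theorem Pa_step {m i x y : ℕ} {Z : ℚ[X][X]} (hZ : Uni Z) (ha : Pa m i x y Z) :
    ∃ g : ℚ, Pa m (i + 1) x y (Z + C (X ^ (2 * i + 2)) * io (C g)) := by
  classical
  let Φ : ℚ[X][X] →ₗ[ℚ] (Fin (2 * i + 2) × Fin m → ℚ) := LinearMap.pi fun p => An m Z p.1 p.2
  let aM : ℚ[X] →ₗ[ℚ] (Fin (2 * i + 2) × Fin m → ℚ) :=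
    LinearMap.pi fun p => An m Z (p.1 + 1) p.2 ∘ₗ ioL
  let bM : ℚ[X] →ₗ[ℚ] (Fin (2 * i + 2) × Fin m → ℚ) :=
    LinearMap.pi fun p => if (p.1 : ℕ) = 2 * i + 1 then an m p.2 ∘ₗ derivative else 0
  have hbM : ∀ v l k, bM v (l, k) = if (l : ℕ) = 2 * i + 1 then an m k (derivative v) else 0 := by
    intro v l k
    simp only [bM, LinearMap.pi_apply]
    split_ifs <;> simp
  obtain ⟨g, hg⟩ := pencil_surj' (Dm m i x y) (Pal m) Φ aM bM (by
    intro e
    obtain ⟨V, hV, h1⟩ := ha fun l k => if h : l < 2 * i + 2 ∧ k < m then e (⟨l, h.1⟩, ⟨k, h.2⟩) else 0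
    obtain ⟨v, hv, h2⟩ := exists_pal m fun k => if h : k < m then
      e (⟨2 * i + 1, by omega⟩, ⟨k, h⟩) - An m Z (2 * i + 1) k V else 0
    refine ⟨v, hv, V, hV, ?_⟩
    ext ⟨l, k⟩
    rw [Pi.add_apply, hbM]
    show _ + An m Z l k V = _
    split_ifs with hl
    · rw [h2 k k.2, dif_pos k.2]
      have e1 : (⟨2 * i + 1, by omega⟩ : Fin (2 * i + 2)) = l := by ext; exact hl.symm
      rw [e1, hl]
      simp
    · have := h1 l (by omega) k k.2
      rw [this, dif_pos ⟨l.2, k.2⟩, zero_add])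
  refine ⟨g, fun t => ?_⟩
  obtain ⟨Z', hZ'⟩ : ∃ Z', Z' = Z + C (X ^ (2 * i + 2)) * io (C g) := ⟨_, rfl⟩
  have hU : Uni Z' := by rw [hZ']; exact hZ.upd (by omega) _
  rw [← hZ']
  -- the lowest level
  let v0 : ℚ[X] := ∑ k ∈ Finset.range m, C (t 0 k) * X ^ k
  have hv0 : ∀ n, v0.coeff n = if n < m then t 0 n else 0 := by
    intro n
    simp only [v0, finsetSum_coeff, coeff_C_mul_X_pow]
    rw [Finset.sum_ite_eq]
    simp only [Finset.mem_range]
  obtain ⟨v, hv, V', hVD, hV'⟩ := hg fun p => t (p.1 + 1) p.2 - An m Z' (p.1 + 1) p.2 (io v0)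
  have hV2 : ∀ (l k : ℕ) (hl : l < 2 * i + 2) (hk : k < m), An m Z (l + 1) k (io v) +
        (g * if l = 2 * i + 1 then an m k (derivative v) else 0) + An m Z l k V' =
      t (l + 1) k - An m Z' (l + 1) k (io v0) := by
    intro l k hl hk
    have h1 := congrFun hV' (⟨l, hl⟩, ⟨k, hk⟩)
    rw [Pi.add_apply, Pi.add_apply, Pi.smul_apply, hbM] at h1
    exact h1
  refine ⟨io (v0 + v) + C X * V', Dm_cons ?_ hVD, ?_⟩
  · intro k hk
    rw [coeff_add, hv0, if_neg (by omega), hv.1 k hk, add_zero]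
  · intro l hl k hk
    rcases l with _ | l
    · rw [An_zero hU, lv_cons, map_add, an_apply, an_apply, hv0, hv0, if_pos hk, if_neg (by omega),
        hv.2 k hk]
      ring
    · rw [map_add, An_succ, io_add, map_add]
      have h2 : An m Z' l k V' = An m Z l k V' := by rw [hZ', An_upd_lt (by omega)]
      have h3 : An m Z' (l + 1) k (io v) = An m Z (l + 1) k (io v) +
          g * if l = 2 * i + 1 then an m k (derivative v) else 0 := by
        split_ifs with hl1
        · subst hl1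
          rw [hZ', An_upd hZ (by omega), lv_io, ← smul_eq_C_mul, map_smul, smul_eq_mul]
        · rw [hZ', An_upd_lt (by omega), mul_zero, add_zero]
      have h4 := hV2 l k (by omega) hk
      rw [h2, h3]
      linear_combination h4

/-- the coordinates of a polynomial of a given shape -/
noncomputable def crd (m i x y : ℕ) : ℚ[X][X] →ₗ[ℚ] ((Σ l : Fin (i + 2), Fin (shp m i x y l)) → ℚ) :=
  LinearMap.pi fun p => cf p.1 p.2

theorem crd_inj {m i x y : ℕ} {V : ℚ[X][X]} (hV : V ∈ Dm m i x y) (h : crd m i x y V = 0) : V = 0 := by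
  apply cf_ext
  intro l k
  rw [map_zero]
  rcases Nat.lt_or_ge k (shp m i x y l) with hk | hk
  · have hl : l < i + 2 := by
      by_contra hcon
      unfold shp at hk
      rw [if_neg (by omega), if_neg (by omega), if_neg (by omega)] at hk
      omega
    exact congrFun h ⟨⟨l, hl⟩, ⟨k, hk⟩⟩
  · exact hV l k hk

theorem crd_card (m i x y : ℕ) : Fintype.card (Σ l : Fin (i + 2), Fin (shp m i x y l)) =
    i * (2 * m + 1) + x + y := by
  rw [Fintype.card_sigma]
  simp only [Fintype.card_fin]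
  rw [Fin.sum_univ_castSucc, Fin.sum_univ_castSucc]
  simp only [Fin.val_castSucc, Fin.val_last]
  have e1 : ∑ j : Fin i, shp m i x y j = i * (2 * m + 1) := by
    rw [Finset.sum_congr rfl (g := fun _ => 2 * m + 1), Finset.sum_const, Finset.card_univ,
      Fintype.card_fin, smul_eq_mul]
    intro j _
    unfold shp
    rw [if_pos j.2]
  rw [e1]
  unfold shp
  simp

/-- the polynomials of a given shape with palindromic levels -/
def Kr (m i x y : ℕ) (Z : ℚ[X][X]) : Submodule ℚ ℚ[X][X] where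
  carrier := {V | V ∈ Dm m (i + 1) x y ∧ ∀ l ≤ 2 * i + 2, ∀ k < m, An m Z l k V = 0}
  zero_mem' := ⟨Submodule.zero_mem _, fun l _ k _ => map_zero _⟩
  add_mem' := fun ha hb => ⟨Submodule.add_mem _ ha.1 hb.1, fun l hl k hk => by
    rw [map_add, ha.2 l hl k hk, hb.2 l hl k hk, add_zero]⟩
  smul_mem' := fun c a ha => ⟨Submodule.smul_mem _ c ha.1, fun l hl k hk => by
    rw [map_smul, ha.2 l hl k hk, smul_zero]⟩

theorem mem_Kr {m i x y : ℕ} {Z V : ℚ[X][X]} : V ∈ Kr m i x y Z ↔
    V ∈ Dm m (i + 1) x y ∧ ∀ l ≤ 2 * i + 2, ∀ k < m, An m Z l k V = 0 := Iff.rfl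

/-- the lowest level determines the element -/
theorem Kr_inj {m i x y : ℕ} {Z : ℚ[X][X]} (hb : Pb m i x y Z) {V : ℚ[X][X]}
    (hV : V ∈ Kr m i x y Z) (h0 : lv V = 0) : V = 0 := by
  obtain ⟨V', hV'⟩ := exists_dv V
  have h1 := Dm_tail (mem_Kr.1 hV).1 hV'
  rw [h0, io_zero, zero_add] at hV'
  have h2 : V' = 0 := by
    apply hb V' h1
    intro l hl k hk
    have := (mem_Kr.1 hV).2 (l + 1) (by omega) k hk
    rwa [hV', An_succ] at this
  rw [hV', h2, mul_zero]

theorem lv_pal {m i x y : ℕ} {Z : ℚ[X][X]} (hZ : Uni Z) {V : ℚ[X][X]}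
    (hV : V ∈ Dm m (i + 1) x y) (h : ∀ k < m, An m Z 0 k V = 0) : lv V ∈ Pal m := by
  refine ⟨fun k hk => ?_, fun k hk => ?_⟩
  · rw [lv_coeff]
    exact hV 0 k (by rw [shp_zero_succ]; omega)
  · have := h k hk
    rw [An_zero hZ, an_apply] at this
    exact sub_eq_zero.1 this

/-- if all palindromic polynomials are lowest levels then there are too many conditions -/
theorem Kr_proper {m p i x y : ℕ} (hxy : x + y + p = 2 * m) (hip : i < p) {Z : ℚ[X][X]} (hZ : Uni Z)
    (ha : Pa m (i + 1) x y Z) (hle : ∀ v ∈ Pal m, ∃ W ∈ Kr m i x y Z, lv W = v) : False := by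
  have h5 := card_le_of_coord (Dm m i x y) (crd m i x y) (fun V hV h => crd_inj hV h)
    (LinearMap.pi fun p : Fin (2 * i + 2) × Fin m => An m Z p.1 p.2) (by
      intro e
      obtain ⟨V, hV, h1⟩ := ha fun l k => if h : 0 < l ∧ l - 1 < 2 * i + 2 ∧ k < m then
        e (⟨l - 1, h.2.1⟩, ⟨k, h.2.2⟩) else 0
      have h2 : lv V ∈ Pal m := by
        refine lv_pal hZ hV fun k hk => ?_
        rw [h1 0 (by omega) k hk, dif_neg (by omega)]
      obtain ⟨W, hW, hW3⟩ := hle _ h2
      obtain ⟨U, hU⟩ := exists_dv (V - W)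
      have h3 := Dm_tail ((Dm m (i + 1) x y).sub_mem hV (mem_Kr.1 hW).1) hU
      have h4 : lv (V - W) = 0 := by
        have := lv_add (V - W) W
        rw [sub_add_cancel, hW3] at this
        exact left_eq_add.1 (by rw [add_comm] at this; exact this)
      rw [h4, io_zero, zero_add] at hU
      refine ⟨U, h3, ?_⟩
      ext ⟨l, k⟩
      show An m Z l k U = e (l, k)
      have h6 := h1 (l + 1) (by omega) k k.2
      rw [dif_pos ⟨by omega, by omega, k.2⟩] at h6
      rw [← An_succ, ← hU, map_sub, h6, (mem_Kr.1 hW).2 (l + 1) (by omega) k k.2, sub_zero]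
      rfl)
  rw [Fintype.card_prod, Fintype.card_fin, Fintype.card_fin, crd_card] at h5
  have e1 : (2 * i + 2) * m = i * (2 * m) + 2 * m := by ring
  have e2 : i * (2 * m + 1) = i * (2 * m) + i := by ring
  omega

/-- a good direction -/
theorem exists_dir {m p i x y : ℕ} (hxy : x + y + p = 2 * m) (hip : i < p) {Z : ℚ[X][X]} (hZ : Uni Z)
    (ha : Pa m (i + 1) x y Z) (hb : Pb m i x y Z) : ∃ β : ℚ, ∀ V ∈ Kr m i x y Z,
      (∀ k < m, an m k ((C β * X + 1) * derivative (lv V)) = 0) → V = 0 := by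
  by_contra hcon
  push Not at hcon
  have hw : ∀ β, wb m β ∈ (Kr m i x y Z).map lvL := by
    intro β
    obtain ⟨V, hV, h1, h2⟩ := hcon β
    have hp : lv V ∈ Pal m := lv_pal hZ (mem_Kr.1 hV).1 fun k hk => (mem_Kr.1 hV).2 0 (by omega) k hk
    have h3 := ker_beta hp (fun k hk => sub_eq_zero.1 (h1 k hk))
    have h4 : (lv V).coeff 0 ≠ 0 := by
      intro h0
      rw [h0, zero_smul] at h3
      exact h2 (Kr_inj hb hV h3)
    refine ⟨((lv V).coeff 0)⁻¹ • V, Submodule.smul_mem _ _ hV, ?_⟩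
    rw [map_smul, lvL_apply]
    obtain ⟨c, hc⟩ : ∃ c, c = (lv V).coeff 0 := ⟨_, rfl⟩
    rw [← hc] at h3 h4 ⊢
    rw [h3, smul_smul, inv_mul_cancel₀ h4, one_smul]
  have hle := pal_le hw
  refine Kr_proper hxy hip hZ ha fun v hv => ?_
  obtain ⟨W, hW, hW2⟩ := hle hv
  exact ⟨W, hW, hW2⟩

/-- the antisymmetric parts of the products with the derivative of the lowest level -/
noncomputable def bK (m : ℕ) (ζ : ℚ[X]) : ℚ[X][X] →ₗ[ℚ] (Fin m → ℚ) :=
  LinearMap.pi fun k : Fin m => an m k ∘ₗ (LinearMap.mulLeft ℚ ζ) ∘ₗ derivative ∘ₗ lvL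

theorem bK_apply (m : ℕ) (ζ : ℚ[X]) (V : ℚ[X][X]) (k : Fin m) :
    bK m ζ V k = an m k (ζ * derivative (lv V)) := rfl

/-- the antisymmetric parts of a level -/
noncomputable def aK (m l : ℕ) (Z : ℚ[X][X]) : ℚ[X][X] →ₗ[ℚ] (Fin m → ℚ) :=
  LinearMap.pi fun k : Fin m => An m Z l k

theorem aK_apply (m l : ℕ) (Z V : ℚ[X][X]) (k : Fin m) : aK m l Z V k = An m Z l k V := rfl

/-- the step, injectivity -/
theorem Pb_step {m p i x y : ℕ} (hxy : x + y + p = 2 * m) (hip : i < p) {Z : ℚ[X][X]} (hZ : Uni Z)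
    (ha : Pa m (i + 1) x y Z) (hb : Pb m i x y Z) :
    ∃ g β : ℚ, Pb m (i + 1) x y (Z + C (X ^ (2 * i + 3)) * io (C g * (C β * X + 1))) := by
  obtain ⟨β, hβ⟩ := exists_dir hxy hip hZ ha hb
  have hB : ∀ V ∈ Kr m i x y Z, bK m (C β * X + 1) V = 0 → V = 0 := by
    intro V hV h
    refine hβ V hV fun k hk => ?_
    have := congrFun h ⟨k, hk⟩
    rw [bK_apply] at this
    exact this
  -- the pencil
  obtain ⟨g, hg⟩ := pencil_inj' (Kr m i x y Z) (crd m (i + 1) x y)
    (fun V hV h => crd_inj (mem_Kr.1 hV).1 h) (aK m (2 * i + 3) Z) (bK m (C β * X + 1)) hB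
  refine ⟨g, β, fun V hV h1 => ?_⟩
  have hVK : V ∈ Kr m i x y Z := by
    rw [mem_Kr]
    refine ⟨hV, fun l hl k hk => ?_⟩
    have := h1 l (by omega) k hk
    rwa [An_upd_lt (by omega)] at this
  apply hg V hVK
  ext k
  have := h1 (2 * i + 3) (by omega) k k.2
  rw [An_upd hZ (by omega), mul_assoc, ← smul_eq_C_mul, map_smul] at this
  rw [Pi.add_apply, Pi.smul_apply, bK_apply, aK_apply, this, Pi.zero_apply]

/-- affine substitutions -/
def Aff (Z : ℚ[X][X]) : Prop := ∃ γ δ : ℚ[X], γ.coeff 0 = 0 ∧ δ.coeff 0 = 1 ∧ Z = C δ * X + C γ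

theorem Aff.uni {Z : ℚ[X][X]} (h : Aff Z) : Uni Z := by
  obtain ⟨γ, δ, hγ, hδ, rfl⟩ := h
  unfold Uni
  obtain ⟨γ', rfl⟩ := X_dvd_iff.2 hγ
  obtain ⟨δ', hδ'⟩ : (X : ℚ[X]) ∣ δ - 1 := by
    rw [X_dvd_iff, coeff_sub, hδ, coeff_one_zero, sub_self]
  refine ⟨C δ' * X + C γ', ?_⟩
  have : δ = 1 + X * δ' := by rw [← hδ']; ring
  rw [this]
  simp only [map_add, map_mul, map_one]
  ring

theorem Aff.upd {Z : ℚ[X][X]} (h : Aff Z) {n : ℕ} (hn : 1 ≤ n) (a b : ℚ) :
    Aff (Z + C (X ^ n) * io (C a * (C b * X + 1))) := by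
  obtain ⟨γ, δ, hγ, hδ, rfl⟩ := h
  refine ⟨γ + C a * X ^ n, δ + C (a * b) * X ^ n, ?_, ?_, ?_⟩
  · rw [coeff_add, hγ, coeff_C_mul, coeff_X_pow, if_neg (by omega)]; ring
  · rw [coeff_add, hδ, coeff_C_mul, coeff_X_pow, if_neg (by omega)]; ring
  · unfold io
    simp only [Polynomial.map_mul, Polynomial.map_add, map_C, map_X, Polynomial.map_one, map_add,
      map_mul, map_pow]
    ring

/-- **The substitution.** -/
theorem exists_sub {m p x y : ℕ} (hx : m ≤ x) (hxy : x + y + p = 2 * m) :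
    ∃ Z, Aff Z ∧ Pb m p x y Z := by
  have key : ∀ i ≤ p, ∃ Z, Aff Z ∧ Pa m i x y Z ∧ Pb m i x y Z := by
    intro i
    induction i with
    | zero =>
      intro _
      have h0 : Aff (X + C (X ^ 1) * io 1) := by
        refine ⟨X, 1, by simp, by simp, ?_⟩
        unfold io
        simp
      exact ⟨_, h0, Pa_base hx h0.uni, Pb_base hx hxy⟩
    | succ i ih =>
      intro hi
      obtain ⟨Z, hZ, ha, hb⟩ := ih (by omega)
      obtain ⟨g, hg⟩ := Pa_step hZ.uni ha
      have hZ1 : Aff (Z + C (X ^ (2 * i + 2)) * io (C g)) := by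
        have := hZ.upd (n := 2 * i + 2) (by omega) g 0
        simpa using this
      have hb1 := hb.upd (n := 2 * i + 2) (by omega) (C g)
      obtain ⟨g', β, hg'⟩ := Pb_step hxy (by omega) hZ1.uni hg hb1
      refine ⟨_, hZ1.upd (n := 2 * i + 3) (by omega) g' β, ?_, hg'⟩
      exact hg.upd (by omega) _
  obtain ⟨Z, h1, -, h2⟩ := key p le_rfl
  exact ⟨Z, h1, h2⟩

end Pool.Agent.Run7.h968
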