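import Pool.Agent.Run7.h968.Crit
import Pool.Agent.TH183.QS.Fin

/-! The lattice points of the triangles of the key lemma, and their lines. -/

namespace Pool.Agent.Run7.h968

open Finset Pool.Agent.TH183.QC Pool.Agent.TH176.Nag Pool.Agent.TH387.SH

/-- membership in the lattice triangle -/
theorem mem_TD {d : ℕ} {τ : ℝ} (hirr : Irrational τ) (q : ℤ × ℤ) :
    q ∈ TD d τ ↔ 0 ≤ q.2 ∧ -(((d : ℝ) - 3 * q.2) * (1 + τ)) ≤ q.1 ∧
      (q.1 : ℝ) ≤ ((d : ℝ) - 3 * q.2) * (2 - τ) := by
  constructor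
  · intro h
    unfold TD at h
    rw [mem_union, mem_biUnion] at h
    rcases h with ⟨j, hj, h⟩ | h
    · rw [mem_image] at h
      obtain ⟨i, hi, rfl⟩ := h
      rw [mem_row] at hi
      refine ⟨by simp, ?_, ?_⟩
      · simp only [Int.cast_natCast]; linarith [hi.1]
      · simp only [Int.cast_natCast]; linarith [hi.2]
    · split_ifs at h with h3
      · rw [mem_singleton] at h
        obtain ⟨n, rfl⟩ := h3
        rw [Nat.mul_div_cancel_left _ (by norm_num)] at h
        subst h
        refine ⟨by simp, ?_, ?_⟩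
        · simp
        · simp
      · simp at h
  · rintro ⟨h2, h3, h4⟩
    have := Reg_subset_TD (d := d) hirr (show q ∈ Reg (-((d : ℝ) * (1 + τ))) (d * (2 - τ)) (3 * (1 + τ)) (3 * (2 - τ)) from
      ⟨h2, by linarith, by linarith⟩)
    exact this

theorem Reg_eq_TD {d : ℕ} {τ : ℝ} (hirr : Irrational τ) :
    Reg (-((d : ℝ) * (1 + τ))) (d * (2 - τ)) (3 * (1 + τ)) (3 * (2 - τ)) = ↑(TD d τ) := by
  refine Set.Subset.antisymm (Reg_subset_TD hirr) ?_
  intro q hq
  rw [mem_coe, mem_TD hirr] at hq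
  obtain ⟨h1, h2, h3⟩ := hq
  exact ⟨h1, by linarith, by linarith⟩

theorem card_row_eq {d : ℕ} {τ : ℝ} (hirr : Irrational τ) {j : ℕ} (hj : 3 * j ≤ d) :
    (row d τ j).card = 3 * (d - 3 * j) := by
  unfold row
  rw [Int.card_Icc]
  have e : ((d : ℝ) - 3 * j) * (2 - τ) =
      -(((d : ℝ) - 3 * j) * (1 + τ)) + ((3 * ((d : ℤ) - 3 * j) : ℤ) : ℝ) := by
    push_cast; ring
  rw [e, Int.ceil_add_intCast]
  rcases hj.eq_or_lt with h | h
  · have e2 : (d : ℝ) - 3 * j = 0 := by rw [← h]; push_cast; ring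
    rw [e2]
    simp
    omega
  · have hne : ∀ z : ℤ, (z : ℝ) ≠ -(((d : ℝ) - 3 * j) * (1 + τ)) := by
      intro z hz
      have h0 : ((d : ℤ) - 3 * j : ℤ) ≠ 0 := by omega
      have h1 := ((hirr.intCast_add (1 : ℤ)).intCast_mul h0).neg
      apply h1
      refine ⟨(z : ℚ), ?_⟩
      rw [Rat.cast_intCast, hz]
      push_cast
      ring
    have h2 : ⌈-(((d : ℝ) - 3 * j) * (1 + τ))⌉ = ⌊-(((d : ℝ) - 3 * j) * (1 + τ))⌋ + 1 := by
      rw [Int.ceil_eq_iff]
      push_cast
      have h3 := Int.floor_le (-(((d : ℝ) - 3 * j) * (1 + τ)))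
      have h4 := Int.lt_floor_add_one (-(((d : ℝ) - 3 * j) * (1 + τ)))
      refine ⟨?_, h4.le⟩
      rw [add_sub_cancel_right]
      exact lt_of_le_of_ne h3 (hne _)
    rw [h2]
    omega

theorem sum_rows_eq (q r : ℕ) (hr : r < 3) :
    ∑ j ∈ range (q + 1), 3 * ((3 * q + r) - 3 * j) + (if r = 0 then 1 else 0) =
      (3 * q + r + 2).choose 2 := by
  have h1 : ∑ j ∈ range (q + 1), 3 * ((3 * q + r) - 3 * j) =
      ∑ j ∈ range (q + 1), (9 * j + 3 * r) := by
    rw [← Finset.sum_range_reflect]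
    refine sum_congr rfl fun j hj => ?_
    rw [mem_range] at hj
    omega
  have h2 : ∀ q : ℕ, 2 * ∑ j ∈ range (q + 1), (9 * j + 3 * r) = 9 * q * (q + 1) + 6 * r * (q + 1) := by
    intro q
    induction q with
    | zero => simp; ring
    | succ q ih => rw [sum_range_succ, mul_add, ih]; ring
  have h3 : 2 * (3 * q + r + 2).choose 2 = (3 * q + r + 2) * (3 * q + r + 1) := by
    rw [Nat.choose_two_right]
    have : (3 * q + r + 2) * (3 * q + r + 2 - 1) = (3 * q + r + 2) * (3 * q + r + 1) := by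
      congr 1
    rw [this]
    have h4 : Even ((3 * q + r + 2) * (3 * q + r + 1)) := by
      have := Nat.even_mul_succ_self (3 * q + r + 1)
      rw [mul_comm]
      exact this
    exact Nat.mul_div_cancel' h4.two_dvd
  have h5 := h2 q
  rw [h1]
  have h6 : 2 * (∑ j ∈ range (q + 1), (9 * j + 3 * r) + (if r = 0 then 1 else 0)) =
      2 * (3 * q + r + 2).choose 2 := by
    rw [mul_add, h5, h3]
    interval_cases r <;> simp <;> ring
  omega

theorem card_TD_eq (d : ℕ) {τ : ℝ} (hirr : Irrational τ) : (TD d τ).card = (d + 2).choose 2 := by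
  classical
  unfold TD
  rw [card_union_of_disjoint, card_biUnion]
  · have h1 : ∑ j ∈ range (d / 3 + 1), ((row d τ j).image fun i => (i, (j : ℤ))).card =
        ∑ j ∈ range (d / 3 + 1), 3 * (d - 3 * j) := by
      refine sum_congr rfl fun j hj => ?_
      rw [mem_range] at hj
      rw [card_image_of_injective, card_row_eq hirr (by omega)]
      intro a b hab
      exact (Prod.mk.inj hab).1
    rw [h1]
    have h2 : (if 3 ∣ d then ({((0 : ℤ), ((d / 3 : ℕ) : ℤ))} : Finset (ℤ × ℤ)) else ∅).card =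
        if d % 3 = 0 then 1 else 0 := by
      split_ifs with h3 h4 h4
      · simp
      · omega
      · omega
      · simp
    have h3 := sum_rows_eq (d / 3) (d % 3) (Nat.mod_lt _ (by norm_num))
    have h4 : 3 * (d / 3) + d % 3 = d := Nat.div_add_mod d 3
    rw [h4] at h3
    rw [h2, h3]
  · intro i _ j _ hij
    rw [Function.onFun, disjoint_left]
    intro p hp hp'
    rw [mem_image] at hp hp'
    obtain ⟨a, _, rfl⟩ := hp
    obtain ⟨b, _, h⟩ := hp'
    apply hij
    have := (Prod.mk.inj h).2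
    omega
  · rw [disjoint_left]
    intro p hp hp'
    split_ifs at hp' with h3
    · rw [mem_singleton] at hp'
      subst hp'
      rw [mem_biUnion] at hp
      obtain ⟨j, hj, h⟩ := hp
      rw [mem_image] at h
      obtain ⟨i, hi, h⟩ := h
      obtain ⟨n, rfl⟩ := h3
      rw [Nat.mul_div_cancel_left _ (by norm_num)] at h
      have h4 := (Prod.mk.inj h).1
      have h5 := (Prod.mk.inj h).2
      have h6 : j = n := by omega
      subst h6 h4
      rw [mem_row] at hi
      have := hi.1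
      push_cast at this
      simp at this
    · simp at hp'

/-- convexity in a direction -/
def Cvx (T : Finset (ℤ × ℤ)) (x y : ℤ) : Prop := ∀ (p : ℤ × ℤ) (j k : ℕ), j ≤ k → p ∈ T →
  (p.1 - y * k, p.2 + x * k) ∈ T → (p.1 - y * j, p.2 + x * j) ∈ T

theorem lt_ln_iff {T : Finset (ℤ × ℤ)} {x y u v : ℤ} (hdet : x * u + y * v = 1) (hT : Cvx T x y)
    {k : ℕ} {c : ℤ} : k < ln T x y c ↔
      ∃ p ∈ T, x * p.1 + y * p.2 = c ∧ (p.1 - y * k, p.2 + x * k) ∈ T := by
  classical
  constructor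
  · intro h
    obtain ⟨B, hB, hB2⟩ := exists_ln T x y u v hdet c
    have hne : B.Nonempty := card_pos.1 (by omega)
    have hsub : B ⊆ Finset.Icc (B.min' hne) (B.max' hne) := by
      intro b hb
      rw [Finset.mem_Icc]
      exact ⟨B.min'_le b hb, B.le_max' b hb⟩
    have h3 := card_le_card hsub
    rw [Int.card_Icc] at h3
    have hle : B.min' hne ≤ B.max' hne := B.min'_le _ (B.max'_mem hne)
    obtain ⟨n, hn⟩ := Int.eq_ofNat_of_zero_le (show 0 ≤ B.max' hne - B.min' hne by omega)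
    have hkn : k ≤ n := by omega
    have hmin := hB2 _ (B.min'_mem hne)
    have hmax := hB2 _ (B.max'_mem hne)
    refine ⟨_, hmin, ?_, ?_⟩
    · simp only
      linear_combination c * hdet
    · refine hT _ k n hkn hmin ?_
      have e1 : u * c - y * B.min' hne - y * (n : ℤ) = u * c - y * B.max' hne := by rw [← hn]; ring
      have e2 : v * c + x * B.min' hne + x * (n : ℤ) = v * c + x * B.max' hne := by rw [← hn]; ring
      simp only [e1, e2]
      exact hmax
  · rintro ⟨p, hp, rfl, hp2⟩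
    unfold ln
    have h1 : (range (k + 1)).card ≤ (T.filter fun p' => x * p'.1 + y * p'.2 = x * p.1 + y * p.2).card := by
      refine card_le_card_of_injOn (fun j : ℕ => ((p.1 - y * j, p.2 + x * j) : ℤ × ℤ)) ?_ ?_
      · intro j hj
        rw [mem_coe, mem_range] at hj
        rw [mem_coe, mem_filter]
        refine ⟨hT p j k (by omega) hp hp2, ?_⟩
        simp only
        ring
      · intro j _ j' _ h
        simp only [Prod.mk.injEq] at h
        have e1 : y * ((j : ℤ) - j') = 0 := by linear_combination -h.1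
        have e2 : x * ((j : ℤ) - j') = 0 := by linear_combination h.2
        have e3 : (j : ℤ) - j' = 0 := by linear_combination (-((j : ℤ) - j')) * hdet + u * e2 + v * e1
        omega
    rw [card_range] at h1
    omega

theorem TD_cvx {d : ℕ} {τ : ℝ} (hirr : Irrational τ) {x y : ℤ} (hx : 0 ≤ x) : Cvx (TD d τ) x y := by
  intro p j k hjk hp hp2
  rw [mem_TD hirr] at hp hp2 ⊢
  simp only at hp2 ⊢
  obtain ⟨h1, h2, h3⟩ := hp
  obtain ⟨h4, h5, h6⟩ := hp2
  push_cast at h5 h6 ⊢
  rcases Nat.eq_zero_or_pos k with hk | hk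
  · have : j = 0 := by omega
    subst this
    refine ⟨by simpa using h1, by simpa using h2, by simpa using h3⟩
  have hk' : (0 : ℝ) < k := by exact_mod_cast hk
  have hj : (j : ℝ) ≤ k := by exact_mod_cast hjk
  have hj0 : (0 : ℝ) ≤ j := Nat.cast_nonneg _
  refine ⟨?_, ?_, ?_⟩
  · have : 0 ≤ x * j := by positivity
    linarith
  · have e1 := mul_le_mul_of_nonneg_left h2 (show (0 : ℝ) ≤ k - j by linarith)
    have e2 := mul_le_mul_of_nonneg_left h5 hj0
    have e3 : (k : ℝ) * -(((d : ℝ) - 3 * (p.2 + x * j)) * (1 + τ)) ≤ k * (p.1 - y * j) := by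
      nlinarith
    exact le_of_mul_le_mul_left e3 hk'
  · have e1 := mul_le_mul_of_nonneg_left h3 (show (0 : ℝ) ≤ k - j by linarith)
    have e2 := mul_le_mul_of_nonneg_left h6 hj0
    have e3 : (k : ℝ) * (p.1 - y * j) ≤ k * (((d : ℝ) - 3 * (p.2 + x * j)) * (2 - τ)) := by
      nlinarith
    exact le_of_mul_le_mul_left e3 hk'

/-- the lines with many points, in real terms -/
theorem row_iff {d : ℕ} {τ K : ℝ} (hirr : Irrational τ) {q p' u v : ℤ} (hdet : q * u + p' * v = 1)
    (hq : 0 < q) (hK : 3 * q * (1 + τ) + p' = K) (hK9 : 9 * q ≤ K) {k : ℕ} {c : ℤ} :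
    k < ln (TD d τ) q p' c ↔ ∃ b : ℤ, 0 ≤ b ∧ (∃ a : ℤ, q * a + p' * b = c) ∧
      p' * (d : ℝ) / 3 - K / 3 * (d - 3 * b - 3 * q * k) ≤ c ∧
      (c : ℝ) ≤ p' * d / 3 - (K - 9 * q) / 3 * (d - 3 * b) := by
  rw [lt_ln_iff hdet (TD_cvx hirr hq.le)]
  have hq' : (0 : ℝ) < q := by exact_mod_cast hq
  have hk0 : (0 : ℝ) ≤ k := Nat.cast_nonneg _
  have hqk : (0 : ℝ) ≤ q * k := by positivity
  constructor
  · rintro ⟨⟨a, b⟩, hp, rfl, hp2⟩
    rw [mem_TD hirr] at hp hp2
    simp only at hp hp2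
    obtain ⟨h1, h2, h3⟩ := hp
    obtain ⟨h4, h5, h6⟩ := hp2
    push_cast at h5 h6
    refine ⟨b, h1, ⟨a, rfl⟩, ?_, ?_⟩
    · push_cast
      have := mul_le_mul_of_nonneg_left h5 hq'.le
      rw [← hK]
      nlinarith
    · push_cast
      have := mul_le_mul_of_nonneg_left h3 hq'.le
      rw [← hK]
      nlinarith
  · rintro ⟨b, hb, ⟨a, rfl⟩, h1, h2⟩
    push_cast at h1 h2
    have hb' : (0 : ℝ) ≤ b := by exact_mod_cast hb
    have hK0 : 0 ≤ K := by
      have : (0 : ℝ) < 9 * q := by positivity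
      linarith
    have g1 : K * (q * k) ≥ 0 := mul_nonneg hK0 hqk
    have g2 : (K - 9 * q) * (q * k) ≥ 0 := mul_nonneg (by linarith) hqk
    refine ⟨(a, b), ?_, rfl, ?_⟩
    · rw [mem_TD hirr]
      refine ⟨hb, ?_, ?_⟩
      · simp only
        have : (q : ℝ) * -((d - 3 * b) * (1 + τ)) ≤ q * a := by
          rw [← hK] at h1 g1
          nlinarith
        exact le_of_mul_le_mul_left this hq'
      · simp only
        have : (q : ℝ) * a ≤ q * ((d - 3 * b) * (2 - τ)) := by
          rw [← hK] at h2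
          nlinarith
        exact le_of_mul_le_mul_left this hq'
    · rw [mem_TD hirr]
      simp only
      push_cast
      refine ⟨by positivity, ?_, ?_⟩
      · have : (q : ℝ) * -((d - 3 * (b + q * k)) * (1 + τ)) ≤ q * (a - p' * k) := by
          rw [← hK] at h1
          nlinarith
        exact le_of_mul_le_mul_left this hq'
      · have : (q : ℝ) * (a - p' * k) ≤ q * ((d - 3 * (b + q * k)) * (2 - τ)) := by
          rw [← hK] at h2 g2
          nlinarith
        exact le_of_mul_le_mul_left this hq'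

end Pool.Agent.Run7.h968
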